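import Mathlib

set_option autoImplicit false

namespace Pool.Agent.MP_ffd2b5_nt

/-- The complete quotients of the regular continued fraction of `x`. -/
noncomputable def cq (x : ℝ) : ℕ → ℝ
  | 0 => x
  | n + 1 => 1 / (cq x n - ⌊cq x n⌋)

/-- The partial quotients `a_n` of the regular continued fraction of `x`. -/
noncomputable def pq (x : ℝ) (n : ℕ) : ℤ := ⌊cq x n⌋

/-- The least `T ≥ 1` with `a_{n+T} = a_n` for all `n ≥ 1`, for the continued fraction of `√D`. -/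
noncomputable def period (D : ℕ) : ℕ :=
  sInf {T : ℕ | 1 ≤ T ∧ ∀ n : ℕ, 1 ≤ n → pq (Real.sqrt D) (n + T) = pq (Real.sqrt D) n}

/-- The `m`-th prime, `p_1 = 2`. -/
noncomputable def thePrime (m : ℕ) : ℕ := Nat.nth Nat.Prime (m - 1)

/-! Auxiliary notions for the proof. -/

/-- The integer pairs `(P_n, Q_n)` with `ξ_n = (P_n + √D) / Q_n`. -/
noncomputable def PQ (D : ℕ) : ℕ → ℤ × ℤ
  | 0 => (0, 1)
  | n + 1 =>
    (⌊(((PQ D n).1 : ℝ) + Real.sqrt D) / ((PQ D n).2 : ℝ)⌋ * (PQ D n).2 - (PQ D n).1,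
      ((D : ℤ) - (⌊(((PQ D n).1 : ℝ) + Real.sqrt D) / ((PQ D n).2 : ℝ)⌋ * (PQ D n).2
        - (PQ D n).1) ^ 2) / (PQ D n).2)

/-- Reduced pairs. -/
def Red (D : ℕ) (P Q : ℤ) : Prop :=
  0 < P ∧ 0 < Q ∧ P ^ 2 < D ∧ Q ∣ (D : ℤ) - P ^ 2 ∧
    Real.sqrt D - P < Q ∧ (Q : ℝ) < Real.sqrt D + P

/-- The number of residues `r` modulo `Q` with `r ^ 2 = D` modulo `Q`. -/
def rho (D Q : ℕ) : ℕ :=
  ((Finset.range Q).filter (fun r : ℕ => (Q : ℤ) ∣ (r : ℤ) ^ 2 - (D : ℤ))).card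

/-- `∑ (p/q) / q` over the odd primes `q ≤ y`. -/
noncomputable def S (p y : ℕ) : ℝ :=
  ∑ q ∈ (Nat.primesLE y).erase 2, ((jacobiSym (p : ℤ) q : ℤ) : ℝ) / q

/-- The primes in `(2 ^ j, 2 ^ (j+1)]`. -/
def blk (j : ℕ) : Finset ℕ := (Finset.Ioc (2 ^ j) (2 ^ (j + 1))).filter Nat.Prime

/-- The dyadic block sums. -/
noncomputable def b (p j : ℕ) : ℝ :=
  ∑ q ∈ blk j, ((jacobiSym (p : ℤ) q : ℤ) : ℝ) / q

/-- `e(t) = exp(2 π i t)`. -/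
noncomputable def e (t : ℝ) : ℂ := Complex.exp (2 * Real.pi * Complex.I * t)

end Pool.Agent.MP_ffd2b5_nt
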