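import Mathlib
import Pool.Agent.MP_ffd2b5_nt.Defs

set_option autoImplicit false

namespace Pool.Agent.MP_ffd2b5_nt

/-!
[TPE-LA] three tools for the large sieve.
`dual_of`: duality. Let `T` be the left side, `β r = conj (∑_n a n c n r)` for `r ∈ R`. Then
`T = ∑_r β r (∑_n a n c n r) = ∑_n a n (∑_r β r c n r)`, Cauchy-Schwarz: `T ≤ (∑ ‖a n‖²)^(1/2) (∑_n ‖∑_r β r c n r‖²)^(1/2)
≤ (∑ ‖a n‖²)^(1/2) (Δ ∑_r ‖β r‖²)^(1/2) = (∑ ‖a n‖²)^(1/2) (Δ T)^(1/2)`, hence `T ≤ Δ ∑ ‖a n‖²`.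
`sum_sq_sep`: split `R` into `θ r > 0` and `θ r < 0`. On `θ r > 0` the map `r ↦ ⌊θ r / δ⌋₊ ∈ {1, 2, ..}` is injective
(two values in the same cell would be closer than `δ`) and `1 / θ² ≤ 1 / (k δ)²`, and `∑_{k=1}^K 1/k² ≤ 2`.
`dirichlet_kernel`: geometric sum; `e (u θ) = e (u (θ - m))` for `m : ℤ`; with `t = θ - m`,
`‖e t - 1‖ = 2 |sin (π t)| ≥ 4 |t|` for `|t| ≤ 1/2` (Jordan, `Real.mul_le_sin`), and `‖e (M t) - 1‖ ≤ 2`.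
-/
theorem dual_of {ι κ : Type*} (R : Finset ι) (A : Finset κ) (c : κ → ι → ℂ) (Δ : ℝ) (hΔ : 0 ≤ Δ)
    (h : ∀ β : ι → ℂ, ∑ n ∈ A, ‖∑ r ∈ R, β r * c n r‖ ^ 2 ≤ Δ * ∑ r ∈ R, ‖β r‖ ^ 2)
    (a : κ → ℂ) :
    ∑ r ∈ R, ‖∑ n ∈ A, a n * c n r‖ ^ 2 ≤ Δ * ∑ n ∈ A, ‖a n‖ ^ 2 := by
  set T : ℝ := ∑ r ∈ R, ‖∑ n ∈ A, a n * c n r‖ ^ 2 with hT
  set β : ι → ℂ := fun r => (starRingEnd ℂ) (∑ n ∈ A, a n * c n r) with hβ
  have hT0 : 0 ≤ T := Finset.sum_nonneg fun r _ => by positivity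
  have h1 : ((T : ℝ) : ℂ) = ∑ n ∈ A, a n * ∑ r ∈ R, β r * c n r := by
    have h2 : ((T : ℝ) : ℂ) = ∑ r ∈ R, β r * ∑ n ∈ A, a n * c n r := by
      rw [hT]
      push_cast
      refine Finset.sum_congr rfl fun r _ => ?_
      rw [hβ]
      simp only
      rw [Complex.conj_mul']
    rw [h2]
    simp only [Finset.mul_sum]
    rw [Finset.sum_comm]
    refine Finset.sum_congr rfl fun n _ => Finset.sum_congr rfl fun r _ => ?_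
    ring
  have h2 : T ≤ ∑ n ∈ A, ‖a n‖ * ‖∑ r ∈ R, β r * c n r‖ := by
    calc T = ‖((T : ℝ) : ℂ)‖ := by rw [Complex.norm_real, Real.norm_eq_abs, abs_of_nonneg hT0]
      _ = ‖∑ n ∈ A, a n * ∑ r ∈ R, β r * c n r‖ := by rw [h1]
      _ ≤ ∑ n ∈ A, ‖a n * ∑ r ∈ R, β r * c n r‖ := norm_sum_le _ _
      _ = ∑ n ∈ A, ‖a n‖ * ‖∑ r ∈ R, β r * c n r‖ :=
        Finset.sum_congr rfl fun n _ => norm_mul _ _
  have h3 := Finset.sum_mul_sq_le_sq_mul_sq A (fun n => ‖a n‖)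
    (fun n => ‖∑ r ∈ R, β r * c n r‖)
  have h4 := h β
  have h5 : ∑ r ∈ R, ‖β r‖ ^ 2 = T := by
    rw [hT]
    refine Finset.sum_congr rfl fun r _ => ?_
    rw [hβ]
    simp only
    rw [Complex.norm_conj]
  rw [h5] at h4
  have hS : 0 ≤ ∑ n ∈ A, ‖a n‖ ^ 2 := Finset.sum_nonneg fun n _ => by positivity
  have h6 : T ^ 2 ≤ (∑ n ∈ A, ‖a n‖ ^ 2) * (Δ * T) := by
    calc T ^ 2 ≤ (∑ n ∈ A, ‖a n‖ * ‖∑ r ∈ R, β r * c n r‖) ^ 2 :=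
          pow_le_pow_left₀ hT0 h2 2
      _ ≤ _ := h3
      _ ≤ (∑ n ∈ A, ‖a n‖ ^ 2) * (Δ * T) := mul_le_mul_of_nonneg_left h4 hS
  rcases hT0.eq_or_lt with h7 | h7
  · rw [← h7]
    positivity
  · have h8 : T * T ≤ (Δ * ∑ n ∈ A, ‖a n‖ ^ 2) * T := by
      calc T * T = T ^ 2 := by ring
        _ ≤ _ := h6
        _ = _ := by ring
    exact le_of_mul_le_mul_right h8 h7

theorem la_sum_inv_sq (K : ℕ) : ∑ k ∈ Finset.Ioc 0 K, (((k : ℕ) : ℝ) ^ 2)⁻¹ ≤ 2 := by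
  rcases Nat.eq_zero_or_pos K with h | h
  · subst h
    simp
  · have h1 := sum_Ioc_inv_sq_le_sub (α := ℝ) one_ne_zero (show 1 ≤ K from h)
    have h2 : Finset.Ioc 0 K = insert 1 (Finset.Ioc 1 K) := by
      ext x
      simp only [Finset.mem_Ioc, Finset.mem_insert]
      omega
    rw [h2, Finset.sum_insert (by simp)]
    have h3 : (0 : ℝ) ≤ ((K : ℕ) : ℝ)⁻¹ := by positivity
    push_cast at h1 ⊢
    norm_num at h1 ⊢
    linarith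

theorem la_sep_pos {ι : Type*} (R : Finset ι) (θ : ι → ℝ) (δ : ℝ) (hδ : 0 < δ)
    (h0 : ∀ r ∈ R, δ ≤ θ r) (hsep : ∀ r ∈ R, ∀ s ∈ R, r ≠ s → δ ≤ |θ r - θ s|) :
    ∑ r ∈ R, 1 / (θ r) ^ 2 ≤ 2 / δ ^ 2 := by
  have hpos : ∀ r ∈ R, 0 < θ r := fun r hr => lt_of_lt_of_le hδ (h0 r hr)
  have hf1 : ∀ r ∈ R, 1 ≤ ⌊θ r / δ⌋₊ := by
    intro r hr
    rw [Nat.one_le_floor_iff, le_div_iff₀ hδ, one_mul]
    exact h0 r hr
  have hfle : ∀ r ∈ R, (⌊θ r / δ⌋₊ : ℝ) * δ ≤ θ r := by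
    intro r hr
    rw [← le_div_iff₀ hδ]
    exact Nat.floor_le (div_nonneg (hpos r hr).le hδ.le)
  have hflt : ∀ r ∈ R, θ r < ((⌊θ r / δ⌋₊ : ℝ) + 1) * δ := by
    intro r hr
    rw [← div_lt_iff₀ hδ]
    exact Nat.lt_floor_add_one _
  have hinj : Set.InjOn (fun r => ⌊θ r / δ⌋₊) (R : Set ι) := by
    intro r hr s hs hrs
    by_contra hne
    have h1 := hsep r hr s hs hne
    have h2 := hfle r hr
    have h3 := hflt r hr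
    have h4 := hfle s hs
    have h5 := hflt s hs
    have h6 : (⌊θ r / δ⌋₊ : ℝ) = (⌊θ s / δ⌋₊ : ℝ) := by
      exact_mod_cast hrs
    rw [h6] at h2 h3
    have h7 : |θ r - θ s| < δ := by
      rw [abs_lt]
      constructor <;> nlinarith
    linarith
  set K : ℕ := R.sup fun r => ⌊θ r / δ⌋₊ with hK
  have h1 : ∀ r ∈ R, 1 / (θ r) ^ 2 ≤ (1 / δ ^ 2) * (((⌊θ r / δ⌋₊ : ℕ) : ℝ) ^ 2)⁻¹ := by
    intro r hr
    have h2 : (1 : ℝ) ≤ (⌊θ r / δ⌋₊ : ℝ) := by exact_mod_cast hf1 r hr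
    have h3 := hfle r hr
    have h4 : (1 / δ ^ 2) * (((⌊θ r / δ⌋₊ : ℕ) : ℝ) ^ 2)⁻¹ = 1 / ((⌊θ r / δ⌋₊ : ℝ) * δ) ^ 2 := by
      rw [mul_pow, one_div, one_div, ← mul_inv, mul_comm (δ ^ 2)]
    rw [h4]
    apply one_div_le_one_div_of_le
    · positivity
    · exact pow_le_pow_left₀ (by positivity) h3 2
  calc ∑ r ∈ R, 1 / (θ r) ^ 2
      ≤ ∑ r ∈ R, (1 / δ ^ 2) * (((⌊θ r / δ⌋₊ : ℕ) : ℝ) ^ 2)⁻¹ := Finset.sum_le_sum h1
    _ = (1 / δ ^ 2) * ∑ r ∈ R, (((⌊θ r / δ⌋₊ : ℕ) : ℝ) ^ 2)⁻¹ := by rw [Finset.mul_sum]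
    _ = (1 / δ ^ 2) * ∑ k ∈ R.image (fun r => ⌊θ r / δ⌋₊), (((k : ℕ) : ℝ) ^ 2)⁻¹ := by
      rw [Finset.sum_image hinj]
    _ ≤ (1 / δ ^ 2) * ∑ k ∈ Finset.Ioc 0 K, (((k : ℕ) : ℝ) ^ 2)⁻¹ := by
      refine mul_le_mul_of_nonneg_left ?_ (by positivity)
      refine Finset.sum_le_sum_of_subset_of_nonneg ?_ fun _ _ _ => by positivity
      intro k hk
      obtain ⟨r, hr, rfl⟩ := Finset.mem_image.1 hk
      rw [Finset.mem_Ioc]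
      refine ⟨hf1 r hr, ?_⟩
      rw [hK]
      exact Finset.le_sup (f := fun r => ⌊θ r / δ⌋₊) hr
    _ ≤ (1 / δ ^ 2) * 2 := mul_le_mul_of_nonneg_left (la_sum_inv_sq K) (by positivity)
    _ = 2 / δ ^ 2 := by ring

theorem sum_sq_sep {ι : Type*} (R : Finset ι) (θ : ι → ℝ) (δ : ℝ) (hδ : 0 < δ)
    (h0 : ∀ r ∈ R, δ ≤ |θ r|) (hsep : ∀ r ∈ R, ∀ s ∈ R, r ≠ s → δ ≤ |θ r - θ s|) :
    ∑ r ∈ R, 1 / (θ r) ^ 2 ≤ 4 / δ ^ 2 := by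
  classical
  have h1 := la_sep_pos (R.filter fun r => 0 < θ r) θ δ hδ
    (fun r hr => by
      obtain ⟨h1, h2⟩ := Finset.mem_filter.1 hr
      have h3 := h0 r h1
      rwa [abs_of_pos h2] at h3)
    (fun r hr s hs hrs => hsep r (Finset.mem_filter.1 hr).1 s (Finset.mem_filter.1 hs).1 hrs)
  have h2 := la_sep_pos (R.filter fun r => ¬ 0 < θ r) (fun r => - θ r) δ hδ
    (fun r hr => by
      obtain ⟨h1, h2⟩ := Finset.mem_filter.1 hr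
      have h3 := h0 r h1
      rwa [abs_of_nonpos (not_lt.1 h2)] at h3)
    (fun r hr s hs hrs => by
      have h3 := hsep r (Finset.mem_filter.1 hr).1 s (Finset.mem_filter.1 hs).1 hrs
      have h4 : (-θ r) - (-θ s) = -(θ r - θ s) := by ring
      rw [h4, abs_neg]
      exact h3)
  simp only [neg_sq] at h2
  rw [← Finset.sum_filter_add_sum_filter_not R fun r => 0 < θ r]
  have h3 : (4 : ℝ) / δ ^ 2 = 2 / δ ^ 2 + 2 / δ ^ 2 := by ring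
  rw [h3]
  exact add_le_add h1 h2

theorem dirichlet_kernel (M : ℕ) (θ : ℝ) (m : ℤ) (h0 : θ ≠ m) (h : |θ - m| ≤ 1 / 2) :
    ‖∑ u ∈ Finset.range M, e (u * θ)‖ ≤ 1 / (2 * |θ - m|) := by
  set t : ℝ := θ - m with ht
  have ht0 : t ≠ 0 := sub_ne_zero.2 h0
  have htpos : 0 < |t| := abs_pos.2 ht0
  set w : ℂ := Complex.exp (Complex.I * ((2 * Real.pi * t : ℝ) : ℂ)) with hw
  have hwn : ‖w‖ = 1 := by
    rw [hw, mul_comm]
    exact Complex.norm_exp_ofReal_mul_I _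
  have h1 : ∀ u : ℕ, e (u * θ) = w ^ u := by
    intro u
    rw [hw, ← Complex.exp_nat_mul]
    unfold e
    rw [Complex.exp_eq_exp_iff_exists_int]
    refine ⟨u * m, ?_⟩
    rw [ht]
    push_cast
    ring
  have h2 : ‖w - 1‖ = 2 * |Real.sin (Real.pi * t)| := by
    rw [hw, Complex.norm_exp_I_mul_ofReal_sub_one, norm_mul, Real.norm_eq_abs, Real.norm_eq_abs,
      show 2 * Real.pi * t / 2 = Real.pi * t by ring]
    norm_num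
  have h3 : 2 * |t| ≤ |Real.sin (Real.pi * t)| := by
    have h4 : |Real.pi * t| ≤ Real.pi / 2 := by
      rw [abs_mul, abs_of_pos Real.pi_pos]
      nlinarith [Real.pi_pos]
    have h5 := Real.mul_abs_le_abs_sin h4
    rw [abs_mul, abs_of_pos Real.pi_pos] at h5
    have h6 : 2 / Real.pi * (Real.pi * |t|) = 2 * |t| := by
      field_simp
    rwa [h6] at h5
  have h4 : 4 * |t| ≤ ‖w - 1‖ := by
    rw [h2]
    linarith
  have hw1 : w ≠ 1 := by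
    intro h5
    rw [h5, sub_self, norm_zero] at h4
    linarith
  rw [Finset.sum_congr rfl fun u _ => h1 u, geom_sum_eq hw1, norm_div]
  have h5 : ‖w ^ M - 1‖ ≤ 2 := by
    calc ‖w ^ M - 1‖ ≤ ‖w ^ M‖ + ‖(1 : ℂ)‖ := norm_sub_le _ _
      _ = 2 := by rw [norm_pow, hwn, one_pow, norm_one]; norm_num
  calc ‖w ^ M - 1‖ / ‖w - 1‖ ≤ 2 / (4 * |t|) :=
        div_le_div₀ (by norm_num) h5 (by positivity) h4
    _ = 1 / (2 * |t|) := by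
      field_simp
      norm_num

end Pool.Agent.MP_ffd2b5_nt
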