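import Mathlib
import Pool.Agent.MP_ffd2b5_nt.Defs
import Pool.Agent.MP_ffd2b5_nt.LA

set_option autoImplicit false

namespace Pool.Agent.MP_ffd2b5_nt

private lemma lf_e_add (x y : ℝ) : e (x + y) = e x * e y := by
  unfold e
  rw [← Complex.exp_add]
  congr 1
  push_cast
  ring

private lemma lf_e_zero : e 0 = 1 := by
  unfold e
  simp

private lemma lf_conj (x : ℝ) : (starRingEnd ℂ) (e x) = e (-x) := by
  unfold e
  rw [← Complex.exp_conj]
  congr 1
  rw [map_mul, map_mul, map_mul, Complex.conj_I, Complex.conj_ofReal, Complex.conj_ofReal, map_ofNat]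
  push_cast
  ring

private lemma lf_comm4 {ι : Type*} (A : Finset ℕ) (R : Finset ι) (G : ℕ → ℕ → ι → ι → ℂ) :
    ∑ u ∈ A, ∑ v ∈ A, ∑ r ∈ R, ∑ s ∈ R, G u v r s =
      ∑ r ∈ R, ∑ s ∈ R, ∑ u ∈ A, ∑ v ∈ A, G u v r s := by
  calc _ = ∑ u ∈ A, ∑ r ∈ R, ∑ v ∈ A, ∑ s ∈ R, G u v r s :=
        Finset.sum_congr rfl fun u _ => Finset.sum_comm
    _ = ∑ r ∈ R, ∑ u ∈ A, ∑ v ∈ A, ∑ s ∈ R, G u v r s := Finset.sum_comm
    _ = ∑ r ∈ R, ∑ u ∈ A, ∑ s ∈ R, ∑ v ∈ A, G u v r s :=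
        Finset.sum_congr rfl fun r _ => Finset.sum_congr rfl fun u _ => Finset.sum_comm
    _ = _ := Finset.sum_congr rfl fun r _ => Finset.sum_comm

private lemma lf_main {ι : Type*} (R : Finset ι) (α : ι → ℝ) (β : ι → ℂ) (M : ℕ) :
    ∑ u ∈ Finset.range M, ∑ v ∈ Finset.range M, ‖∑ r ∈ R, β r * e (((u : ℝ) - v) * α r)‖ ^ 2 ≤
      ∑ r ∈ R, ∑ s ∈ R, ‖β r‖ * ‖β s‖ * ‖∑ u ∈ Finset.range M, e (u * (α r - α s))‖ ^ 2 := by
  have h : (((∑ u ∈ Finset.range M, ∑ v ∈ Finset.range M,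
      ‖∑ r ∈ R, β r * e (((u : ℝ) - v) * α r)‖ ^ 2 : ℝ)) : ℂ) =
      ∑ r ∈ R, ∑ s ∈ R, β r * (starRingEnd ℂ) (β s) *
        ((∑ u ∈ Finset.range M, e (u * (α r - α s))) *
          (starRingEnd ℂ) (∑ u ∈ Finset.range M, e (u * (α r - α s)))) := by
    push_cast
    have h1 : ∀ u v : ℕ, ((‖∑ r ∈ R, β r * e (((u : ℝ) - v) * α r)‖ : ℝ) : ℂ) ^ 2 =
        ∑ r ∈ R, ∑ s ∈ R, β r * (starRingEnd ℂ) (β s) *
          (e (u * (α r - α s)) * (starRingEnd ℂ) (e (v * (α r - α s)))) := by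
      intro u v
      rw [← Complex.mul_conj', map_sum, Finset.sum_mul_sum]
      refine Finset.sum_congr rfl fun r _ => Finset.sum_congr rfl fun s _ => ?_
      rw [map_mul, lf_conj, lf_conj]
      have h2 : e (((u : ℝ) - v) * α r) * e (-(((u : ℝ) - v) * α s)) =
          e (u * (α r - α s)) * e (-(v * (α r - α s))) := by
        rw [← lf_e_add, ← lf_e_add]
        congr 1
        ring
      linear_combination (β r * (starRingEnd ℂ) (β s)) * h2
    rw [Finset.sum_congr rfl fun u _ => Finset.sum_congr rfl fun v _ => h1 u v]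
    have h3 : ∀ r s, β r * (starRingEnd ℂ) (β s) *
        ((∑ u ∈ Finset.range M, e (u * (α r - α s))) *
          (starRingEnd ℂ) (∑ u ∈ Finset.range M, e (u * (α r - α s)))) =
        ∑ u ∈ Finset.range M, ∑ v ∈ Finset.range M, β r * (starRingEnd ℂ) (β s) *
          (e (u * (α r - α s)) * (starRingEnd ℂ) (e (v * (α r - α s)))) := by
      intro r s
      rw [map_sum, Finset.sum_mul_sum, Finset.mul_sum]
      refine Finset.sum_congr rfl fun u _ => ?_
      rw [Finset.mul_sum]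
    rw [Finset.sum_congr rfl fun r _ => Finset.sum_congr rfl fun s _ => h3 r s]
    exact lf_comm4 (Finset.range M) R _
  have h0 : 0 ≤ ∑ u ∈ Finset.range M, ∑ v ∈ Finset.range M,
      ‖∑ r ∈ R, β r * e (((u : ℝ) - v) * α r)‖ ^ 2 :=
    Finset.sum_nonneg fun u _ => Finset.sum_nonneg fun v _ => sq_nonneg _
  rw [← Complex.norm_of_nonneg h0, h]
  refine (norm_sum_le _ _).trans (Finset.sum_le_sum fun r _ => (norm_sum_le _ _).trans
    (Finset.sum_le_sum fun s _ => le_of_eq ?_))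
  rw [norm_mul, norm_mul, norm_mul, RCLike.norm_conj, RCLike.norm_conj]
  ring

private lemma lf_schur {ι : Type*} (R : Finset ι) (b : ι → ℝ) (K : ι → ι → ℝ) (B : ℝ)
    (hK : ∀ r ∈ R, ∀ s ∈ R, 0 ≤ K r s) (hs : ∀ r ∈ R, ∀ s ∈ R, K r s = K s r)
    (hB : ∀ r ∈ R, ∑ s ∈ R, K r s ≤ B) :
    ∑ r ∈ R, ∑ s ∈ R, b r * b s * K r s ≤ B * ∑ r ∈ R, b r ^ 2 := by
  have h1 : ∑ r ∈ R, ∑ s ∈ R, b r * b s * K r s ≤
      ∑ r ∈ R, ∑ s ∈ R, (b r ^ 2 * K r s / 2 + b s ^ 2 * K r s / 2) := by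
    refine Finset.sum_le_sum fun r hr => Finset.sum_le_sum fun s hs' => ?_
    have := hK r hr s hs'
    nlinarith [mul_nonneg this (sq_nonneg (b r - b s))]
  have h2 : ∑ r ∈ R, ∑ s ∈ R, (b r ^ 2 * K r s / 2 + b s ^ 2 * K r s / 2) =
      ∑ r ∈ R, b r ^ 2 * ∑ s ∈ R, K r s := by
    simp only [Finset.sum_add_distrib]
    have h3 : ∑ r ∈ R, ∑ s ∈ R, b s ^ 2 * K r s / 2 = ∑ r ∈ R, ∑ s ∈ R, b r ^ 2 * K r s / 2 := by
      rw [Finset.sum_comm]
      refine Finset.sum_congr rfl fun r hr => Finset.sum_congr rfl fun s hs' => ?_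
      rw [hs s hs' r hr]
    rw [h3, ← Finset.sum_add_distrib]
    refine Finset.sum_congr rfl fun r _ => ?_
    rw [← Finset.sum_add_distrib, Finset.mul_sum]
    refine Finset.sum_congr rfl fun s _ => ?_
    ring
  rw [Finset.mul_sum]
  calc _ ≤ _ := h1
    _ = _ := h2
    _ ≤ _ := Finset.sum_le_sum fun r hr => by
        rw [mul_comm]
        exact mul_le_mul_of_nonneg_right (hB r hr) (sq_nonneg _)

private lemma lf_norm_e (x : ℝ) : ‖e x‖ = 1 := by
  unfold e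
  rw [Complex.norm_exp]
  simp

private lemma lf_shift {ι : Type*} (R : Finset ι) (α : ι → ℝ) (β : ι → ℂ) (N L : ℕ) (hNL : N ≤ L) :
    (L : ℝ) * ∑ n ∈ Finset.range N, ‖∑ r ∈ R, β r * e (n * α r)‖ ^ 2 ≤
      ∑ u ∈ Finset.range (2 * L), ∑ v ∈ Finset.range (2 * L),
        ‖∑ r ∈ R, β r * e (((u : ℝ) - v) * α r)‖ ^ 2 := by
  rw [Finset.sum_comm (s := Finset.range (2 * L))]
  have h1 : ∀ v ∈ Finset.range L, ∑ n ∈ Finset.range N, ‖∑ r ∈ R, β r * e (n * α r)‖ ^ 2 ≤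
      ∑ u ∈ Finset.range (2 * L), ‖∑ r ∈ R, β r * e (((u : ℝ) - v) * α r)‖ ^ 2 := by
    intro v hv
    have hv' := Finset.mem_range.mp hv
    have h2 : ∑ n ∈ Finset.range N, ‖∑ r ∈ R, β r * e (n * α r)‖ ^ 2 =
        ∑ u ∈ (Finset.range N).image (fun n => n + v), ‖∑ r ∈ R, β r * e (((u : ℝ) - v) * α r)‖ ^ 2 := by
      rw [Finset.sum_image (by intro a _ b _ hab; simpa using hab)]
      refine Finset.sum_congr rfl fun n _ => ?_
      have h3 : (((n + v : ℕ) : ℝ) - v) = (n : ℝ) := by push_cast; ring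
      rw [h3]
    rw [h2]
    apply Finset.sum_le_sum_of_subset_of_nonneg
    · intro u hu
      obtain ⟨n, hn, rfl⟩ := Finset.mem_image.mp hu
      have := Finset.mem_range.mp hn
      exact Finset.mem_range.mpr (by omega)
    · intro u _ _
      exact sq_nonneg _
  calc (L : ℝ) * ∑ n ∈ Finset.range N, ‖∑ r ∈ R, β r * e (n * α r)‖ ^ 2
      = ∑ v ∈ Finset.range L, ∑ n ∈ Finset.range N, ‖∑ r ∈ R, β r * e (n * α r)‖ ^ 2 := by
        rw [Finset.sum_const, Finset.card_range, nsmul_eq_mul]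
    _ ≤ ∑ v ∈ Finset.range L, ∑ u ∈ Finset.range (2 * L), ‖∑ r ∈ R, β r * e (((u : ℝ) - v) * α r)‖ ^ 2 :=
        Finset.sum_le_sum h1
    _ ≤ _ := by
        apply Finset.sum_le_sum_of_subset_of_nonneg
        · intro u hu
          have := Finset.mem_range.mp hu
          exact Finset.mem_range.mpr (by omega)
        · intro v _ _
          exact Finset.sum_nonneg fun u _ => sq_nonneg _

/-!
[TPE-LF] the analytic large sieve inequality.
PROOF. `L = N + ⌈1/δ⌉₊`, so `1/δ ≤ L ≤ N + 1/δ + 1`, `L ≥ 1`. Weight `w n = (2L - |n|)/L` for `|n| < 2L` (integers): `w n ≥ 1` for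
`0 ≤ n < N`, and `w ≥ 0`. For `β : ι → ℂ`:
`∑_{n<N} ‖∑_r β r e(n α_r)‖² ≤ ∑_{|n|<2L} w n ‖∑_r β r e(n α_r)‖²
 = ∑_{r,s} β r conj(β s) ∑_n w n e(n (α_r - α_s)) = ∑_{r,s} β r conj(β s) (1/L) ‖D(α_r - α_s)‖²`,
`D θ = ∑_{u < 2L} e(u θ)` (a shorter way to the same thing: `∑_{u,v<2L} ‖∑_r β r e((u - v) α_r)‖²`, where every
`0 ≤ n < N` is a difference `u - v` in at least `L` ways).
Schur test with the symmetric kernel `K r s = (1/L) ‖D(α_r - α_s)‖²`: the double sum is at most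
`∑_r ‖β r‖² · max_r ∑_s K r s`. Diagonal: `4 L`. Off the diagonal, for fixed `r`, put
`θ_s = α_r - α_s - round (α_r - α_s)`, `|θ_s| ≤ 1/2`: `‖D‖ ≤ 1 / (2 |θ_s|)` (`dirichlet_kernel`), the `θ_s` satisfy the
hypotheses of `sum_sq_sep` (spacing hypothesis `hsp`), so `∑_{s≠r} K r s ≤ (1/L) (1/4) (4/δ²) ≤ L`.
So `Δ = 5 L ≤ 16 (N + 1/δ + 1)`; finish with `dual_of` (`c n r = e (n α_r)`, `A = range N`).
-/
theorem large_sieve {ι : Type*} (R : Finset ι) (α : ι → ℝ) (δ : ℝ) (hδ : 0 < δ) (hδ1 : δ ≤ 1)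
    (hsp : ∀ r ∈ R, ∀ s ∈ R, r ≠ s → ∀ m : ℤ, δ ≤ |α r - α s - m|) (N : ℕ) (a : ℕ → ℂ) :
    ∑ r ∈ R, ‖∑ n ∈ Finset.range N, a n * e (n * α r)‖ ^ 2 ≤
      16 * (N + 1 / δ + 1) * ∑ n ∈ Finset.range N, ‖a n‖ ^ 2 := by
  obtain ⟨L, hL⟩ : ∃ L : ℕ, L = N + ⌈1 / δ⌉₊ := ⟨_, rfl⟩
  have hd0 : 0 < 1 / δ := by positivity
  have hL1 : 1 / δ ≤ (L : ℝ) := by
    have := Nat.le_ceil (1 / δ)
    rw [hL]
    push_cast
    have : (0 : ℝ) ≤ N := Nat.cast_nonneg N
    linarith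
  have hL2 : (L : ℝ) ≤ N + 1 / δ + 1 := by
    have := (Nat.ceil_lt_add_one hd0.le).le
    rw [hL]
    push_cast
    linarith
  have hL0 : (0 : ℝ) < L := lt_of_lt_of_le hd0 hL1
  have key := dual_of R (Finset.range N) (fun n r => e (n * α r)) (5 * L) (by positivity) ?_ a
  · refine key.trans ?_
    apply mul_le_mul_of_nonneg_right _ (Finset.sum_nonneg fun n _ => sq_nonneg _)
    have : (0 : ℝ) ≤ N := Nat.cast_nonneg N
    linarith
  · intro β
    have h1 := lf_shift R α β N L (by omega)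
    have h2 := lf_main R α β (2 * L)
    have h3 : ∑ r ∈ R, ∑ s ∈ R, ‖β r‖ * ‖β s‖ * ‖∑ u ∈ Finset.range (2 * L), e (u * (α r - α s))‖ ^ 2 ≤
        (5 * (L : ℝ) ^ 2) * ∑ r ∈ R, ‖β r‖ ^ 2 := by
      apply lf_schur R (fun r => ‖β r‖)
        (fun r s => ‖∑ u ∈ Finset.range (2 * L), e (u * (α r - α s))‖ ^ 2)
      · intro r _ s _
        exact sq_nonneg _
      · intro r _ s _
        show ‖∑ u ∈ Finset.range (2 * L), e (u * (α r - α s))‖ ^ 2 =
          ‖∑ u ∈ Finset.range (2 * L), e (u * (α s - α r))‖ ^ 2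
        rw [← RCLike.norm_conj (∑ u ∈ Finset.range (2 * L), e (u * (α r - α s))), map_sum]
        congr 2
        refine Finset.sum_congr rfl fun u _ => ?_
        rw [lf_conj]
        congr 1
        ring
      · intro r hr
        show ∑ s ∈ R, ‖∑ u ∈ Finset.range (2 * L), e (u * (α r - α s))‖ ^ 2 ≤ 5 * (L : ℝ) ^ 2
        classical
        rw [← Finset.add_sum_erase R _ hr]
        have h4 : ‖∑ u ∈ Finset.range (2 * L), e (u * (α r - α r))‖ ^ 2 ≤ 4 * (L : ℝ) ^ 2 := by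
          have h5 : ‖∑ u ∈ Finset.range (2 * L), e (u * (α r - α r))‖ ≤ 2 * L := by
            refine (norm_sum_le _ _).trans (le_of_eq ?_)
            simp only [lf_norm_e]
            simp
          calc _ ≤ (2 * (L : ℝ)) ^ 2 := pow_le_pow_left₀ (norm_nonneg _) h5 2
            _ = _ := by ring
        have h6 : ∑ s ∈ R.erase r, ‖∑ u ∈ Finset.range (2 * L), e (u * (α r - α s))‖ ^ 2 ≤ (L : ℝ) ^ 2 := by
          obtain ⟨θ, hθ⟩ : ∃ θ : ι → ℝ, ∀ s, θ s = α r - α s - round (α r - α s) := ⟨_, fun _ => rfl⟩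
          have h7 : ∀ s ∈ R.erase r, δ ≤ |θ s| := by
            intro s hs
            rw [hθ]
            exact hsp r hr s (Finset.mem_of_mem_erase hs) (Finset.ne_of_mem_erase hs).symm _
          have h8 : ∑ s ∈ R.erase r, 1 / (θ s) ^ 2 ≤ 4 / δ ^ 2 := by
            apply sum_sq_sep (R.erase r) θ δ hδ h7
            intro s hs t ht hst
            have h9 := hsp t (Finset.mem_of_mem_erase ht) s (Finset.mem_of_mem_erase hs) hst.symm
              (round (α r - α s) - round (α r - α t))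
            have h10 : θ s - θ t = α t - α s - ((round (α r - α s) - round (α r - α t) : ℤ) : ℝ) := by
              rw [hθ, hθ]
              push_cast
              ring
            rw [h10]
            exact h9
          have h11 : ∀ s ∈ R.erase r, ‖∑ u ∈ Finset.range (2 * L), e (u * (α r - α s))‖ ^ 2 ≤
              1 / 4 * (1 / (θ s) ^ 2) := by
            intro s hs
            have h12 := h7 s hs
            have h13 : 0 < |θ s| := lt_of_lt_of_le hδ h12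
            have h14 : ‖∑ u ∈ Finset.range (2 * L), e (u * (α r - α s))‖ ≤ 1 / (2 * |θ s|) := by
              have h15 := dirichlet_kernel (2 * L) (α r - α s) (round (α r - α s)) (by
                intro h16
                rw [hθ, ← h16, sub_self, abs_zero] at h13
                exact lt_irrefl _ h13) (abs_sub_round _)
              rw [hθ]
              exact h15
            calc _ ≤ (1 / (2 * |θ s|)) ^ 2 := pow_le_pow_left₀ (norm_nonneg _) h14 2
              _ = _ := by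
                rw [div_pow, mul_pow, sq_abs]
                have : θ s ≠ 0 := abs_pos.mp h13
                field_simp
                norm_num
          calc _ ≤ ∑ s ∈ R.erase r, 1 / 4 * (1 / (θ s) ^ 2) := Finset.sum_le_sum h11
            _ = 1 / 4 * ∑ s ∈ R.erase r, 1 / (θ s) ^ 2 := by rw [Finset.mul_sum]
            _ ≤ 1 / 4 * (4 / δ ^ 2) := by linarith
            _ = (1 / δ) ^ 2 := by field_simp
            _ ≤ _ := pow_le_pow_left₀ hd0.le hL1 2
        linarith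
    have h4 : (L : ℝ) * ∑ n ∈ Finset.range N, ‖∑ r ∈ R, β r * e (n * α r)‖ ^ 2 ≤
        (L : ℝ) * (5 * L * ∑ r ∈ R, ‖β r‖ ^ 2) := by
      calc _ ≤ _ := h1.trans (h2.trans h3)
        _ = _ := by ring
    exact le_of_mul_le_mul_left h4 hL0

end Pool.Agent.MP_ffd2b5_nt
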