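import Mathlib
import Pool.Agent.MP_ffd2b5_nt.Defs
import Pool.Agent.MP_ffd2b5_nt.LF

set_option autoImplicit false

namespace Pool.Agent.MP_ffd2b5_nt

/-- the numerator of the difference of two fractions is not `0` -/
theorem ls2_ne (p p' b b' : ℕ) (hp : p.Prime) (hp' : p'.Prime) (hb : 1 ≤ b) (hbp : b ≤ p - 1)
    (hb' : 1 ≤ b') (hbp' : b' ≤ p' - 1) (hne : ¬ (p = p' ∧ b = b')) (m : ℤ) :
    (b : ℤ) * p' - b' * p - m * (p * p') ≠ 0 := by
  intro h
  have hp1 := hp.one_lt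
  by_cases hpp : p = p'
  · subst hpp
    have h1 : ((b : ℤ) - b' - m * p) * p = 0 := by linear_combination h
    have h2 : (b : ℤ) - b' - m * p = 0 := by
      rcases mul_eq_zero.1 h1 with h3 | h3
      · exact h3
      · exfalso; omega
    have h3 : (p : ℤ) ∣ (b : ℤ) - b' := ⟨m, by linear_combination h2⟩
    have h4 : (b : ℤ) - b' = 0 := Int.eq_zero_of_abs_lt_dvd h3 (by
      rw [abs_lt]; constructor <;> omega)
    exact hne ⟨rfl, by omega⟩
  · have h1 : (p : ℤ) ∣ (b : ℤ) * p' := ⟨b' + m * p', by linear_combination h⟩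
    have h2 : p ∣ b * p' := by exact_mod_cast h1
    rcases (Nat.Prime.dvd_mul hp).1 h2 with h3 | h3
    · have := Nat.le_of_dvd (by omega) h3
      omega
    · exact hpp ((Nat.prime_dvd_prime_iff_eq hp hp').1 h3)

/-!
[TPE-LS2] the large sieve at the fractions `b / p`.
PROOF. `large_sieve` with `ι = ℕ × ℕ` or `Sigma`, the points `b / p`, `δ = 1 / x ^ 2`. Spacing, for `(p, b) ≠ (p', b')`:
`p = p'`: `b/p - b'/p - m = (b - b' - m p)/p`, numerator a nonzero integer as `0 < |b - b'| < p`: at least `1/p ≥ 1/x²`.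
`p ≠ p'`: numerator `b p' - b' p - m p p'` over `p p'`, nonzero because `p` divides the last two terms and not `b p'`:
at least `1/(p p') ≥ 1/x²`. Finally `16 (N + x² + 1) ≤ 32 (N + x²)`.
-/
theorem farey_sieve (x N : ℕ) (hx : 1 ≤ x) (a : ℕ → ℂ) :
    ∑ p ∈ Nat.primesLE x, ∑ b ∈ Finset.Icc 1 (p - 1),
      ‖∑ n ∈ Finset.range N, a n * e (n * ((b : ℝ) / p))‖ ^ 2 ≤
      32 * (N + (x : ℝ) ^ 2) * ∑ n ∈ Finset.range N, ‖a n‖ ^ 2 := by
  have hx1 : (1 : ℝ) ≤ x := by exact_mod_cast hx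
  have hx2 : (1 : ℝ) ≤ (x : ℝ) ^ 2 := by nlinarith
  have hx3 : (0 : ℝ) < (x : ℝ) ^ 2 := by linarith
  rw [Finset.sum_sigma']
  have key := large_sieve ((Nat.primesLE x).sigma fun p => Finset.Icc 1 (p - 1))
    (fun r : (_ : ℕ) × ℕ => (r.2 : ℝ) / r.1) (1 / (x : ℝ) ^ 2) (by positivity)
    (by rw [div_le_one hx3]; exact hx2) ?_ N a
  · refine key.trans ?_
    apply mul_le_mul_of_nonneg_right _ (Finset.sum_nonneg fun n _ => by positivity)
    rw [one_div_one_div]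
    have : (0 : ℝ) ≤ N := Nat.cast_nonneg N
    linarith
  · rintro ⟨p, b⟩ hr ⟨p', b'⟩ hs hne m
    rw [Finset.mem_sigma, Nat.mem_primesLE, Finset.mem_Icc] at hr hs
    obtain ⟨⟨hpx, hp⟩, hb, hbp⟩ := hr
    obtain ⟨⟨hpx', hp'⟩, hb', hbp'⟩ := hs
    simp only at hpx hp hb hbp hpx' hp' hb' hbp'
    have hz := ls2_ne p p' b b' hp hp' hb hbp hb' hbp' (by
      rintro ⟨rfl, rfl⟩
      exact hne rfl) m
    have hz1 : (1 : ℝ) ≤ |((b : ℝ) * p' - b' * p - m * (p * p'))| := by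
      have h1 : (1 : ℤ) ≤ |(b : ℤ) * p' - b' * p - m * (p * p')| := Int.one_le_abs hz
      exact_mod_cast h1
    have hp0 : (0 : ℝ) < p := by exact_mod_cast hp.pos
    have hp0' : (0 : ℝ) < p' := by exact_mod_cast hp'.pos
    have hq : (p : ℝ) * p' ≤ (x : ℝ) ^ 2 := by
      rw [sq]
      exact mul_le_mul (by exact_mod_cast hpx) (by exact_mod_cast hpx') hp0'.le (by linarith)
    have e1 : (b : ℝ) / p - (b' : ℝ) / p' - m =
        ((b : ℝ) * p' - b' * p - m * (p * p')) / (p * p') := by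
      field_simp
    simp only
    rw [e1, abs_div, abs_of_pos (mul_pos hp0 hp0')]
    calc 1 / (x : ℝ) ^ 2 ≤ 1 / (p * p') := one_div_le_one_div_of_le (mul_pos hp0 hp0') hq
      _ ≤ _ := div_le_div_of_nonneg_right hz1 (mul_pos hp0 hp0').le

end Pool.Agent.MP_ffd2b5_nt
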