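import Mathlib
import Pool.Agent.MP_ffd2b5_nt.Defs
import Pool.Agent.Lib.helper94.ANT.Mertens

set_option autoImplicit false

namespace Pool.Agent.MP_ffd2b5_nt

/-!
[TPE-B1] some dyadic block is large.
PROOF. `y = Nat.sqrt p`, `y < 2 ^ L` . All symbols are in `[-1, 1]`. Suppose `b p j < 1/((j+1)(1 + log(L+1)))` for all
`j ∈ [J, L)`. If `y ≤ 2 ^ J`: `S p y ≤ ∑_{q ≤ 2^J} 1/q ≤ log log (2^J) + C ≤ log J + C` (Mertens, `log 2 < 1`).
Otherwise let `2 ^ B < y ≤ 2 ^ (B+1)`, `J ≤ B < L`. The odd primes `q ≤ y` are: those `≤ 2 ^ J` (contribution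
`≤ log J + C`), the blocks `blk j`, `J ≤ j < B` (all primes in them are odd because `j ≥ 1`), and the part of `blk B`
up to `y`, which contributes at most `2 ^ B * (1 / 2 ^ B) = 1`. The full blocks give at most
`∑_{j < L} 1/((j+1)(1 + log (L+1))) ≤ 1` (`harmonic_le_one_add_log`-type bound). So `S p y < log J + C + 2`:
take `C1 = C + 2`.
-/
theorem b1_jac_le_one (a : ℤ) (n : ℕ) : ((jacobiSym a n : ℤ) : ℝ) ≤ 1 := by
  rcases jacobiSym.trichotomy a n with h | h | h <;> simp [h]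

/-- the sum of a function over primes up to `y` -/
theorem b1_S_eq (p y : ℕ) :
    S p y = ∑ q ∈ (Finset.Ioc 2 y).filter Nat.Prime, ((jacobiSym (p : ℤ) q : ℤ) : ℝ) / q := by
  unfold S
  apply Finset.sum_congr _ (fun _ _ => rfl)
  ext q
  simp only [Finset.mem_erase, Nat.mem_primesLE, Finset.mem_filter, Finset.mem_Ioc]
  constructor
  · rintro ⟨h1, h2, h3⟩
    exact ⟨⟨lt_of_le_of_ne h3.two_le (Ne.symm h1), h2⟩, h3⟩
  · rintro ⟨⟨h1, h2⟩, h3⟩
    exact ⟨by omega, h2, h3⟩

theorem b1_split (p a c : ℕ) {m : ℕ} (h1 : a ≤ m) (h2 : m ≤ c) :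
    ∑ q ∈ (Finset.Ioc a c).filter Nat.Prime, ((jacobiSym (p : ℤ) q : ℤ) : ℝ) / q =
    ∑ q ∈ (Finset.Ioc a m).filter Nat.Prime, ((jacobiSym (p : ℤ) q : ℤ) : ℝ) / q +
    ∑ q ∈ (Finset.Ioc m c).filter Nat.Prime, ((jacobiSym (p : ℤ) q : ℤ) : ℝ) / q := by
  rw [← Finset.sum_union]
  · apply Finset.sum_congr _ (fun _ _ => rfl)
    rw [← Finset.filter_union, Finset.Ioc_union_Ioc_eq_Ioc h1 h2]
  · apply Finset.disjoint_filter_filter
    rw [Finset.disjoint_left]
    intro x hx hx'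
    rw [Finset.mem_Ioc] at hx hx'
    omega

theorem b1_low (p : ℕ) {C : ℝ} (hC : 0 < C) (hM : ∀ x : ℕ, 2 ≤ x →
    |∑ p ∈ Nat.primesLE x, (1 : ℝ) / p - Real.log (Real.log x)| ≤ C) {J y : ℕ} (hJ : 1 ≤ J)
    (hy : y ≤ 2 ^ J) :
    ∑ q ∈ (Finset.Ioc 2 y).filter Nat.Prime, ((jacobiSym (p : ℤ) q : ℤ) : ℝ) / q ≤ Real.log J + C := by
  have h2 : 2 ≤ 2 ^ J := by
    calc 2 = 2 ^ 1 := by norm_num
      _ ≤ 2 ^ J := Nat.pow_le_pow_right (by norm_num) hJ
  have hm := (abs_le.mp (hM (2 ^ J) h2)).2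
  have hJpos : (0 : ℝ) < J := by exact_mod_cast hJ
  have hl2 : (0 : ℝ) < Real.log 2 := Real.log_pos (by norm_num)
  have hl21 : Real.log 2 ≤ 1 := by
    have := Real.log_two_lt_d9
    linarith
  have hlog : Real.log (Real.log ((2 ^ J : ℕ) : ℝ)) ≤ Real.log J := by
    push_cast
    rw [Real.log_pow]
    apply Real.log_le_log (by positivity)
    nlinarith
  have hsub : ∑ q ∈ (Finset.Ioc 2 y).filter Nat.Prime, ((jacobiSym (p : ℤ) q : ℤ) : ℝ) / q
      ≤ ∑ q ∈ Nat.primesLE (2 ^ J), (1 : ℝ) / q := by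
    calc ∑ q ∈ (Finset.Ioc 2 y).filter Nat.Prime, ((jacobiSym (p : ℤ) q : ℤ) : ℝ) / q
        ≤ ∑ q ∈ (Finset.Ioc 2 y).filter Nat.Prime, (1 : ℝ) / q := by
          apply Finset.sum_le_sum
          intro q _
          exact div_le_div_of_nonneg_right (b1_jac_le_one _ _) (Nat.cast_nonneg _)
      _ ≤ ∑ q ∈ Nat.primesLE (2 ^ J), (1 : ℝ) / q := by
          apply Finset.sum_le_sum_of_subset_of_nonneg
          · intro q hq
            rw [Finset.mem_filter, Finset.mem_Ioc] at hq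
            exact Nat.mem_primesLE.mpr ⟨hq.1.2.trans hy, hq.2⟩
          · intro q _ _
            positivity
  linarith

/-- the top part -/
theorem b1_top (p B y : ℕ) (hy : y ≤ 2 ^ (B + 1)) :
    ∑ q ∈ (Finset.Ioc (2 ^ B) y).filter Nat.Prime, ((jacobiSym (p : ℤ) q : ℤ) : ℝ) / q ≤ 1 := by
  have hpos : (0 : ℝ) < 2 ^ B := by positivity
  calc ∑ q ∈ (Finset.Ioc (2 ^ B) y).filter Nat.Prime, ((jacobiSym (p : ℤ) q : ℤ) : ℝ) / q
      ≤ ∑ q ∈ (Finset.Ioc (2 ^ B) y).filter Nat.Prime, (1 : ℝ) / 2 ^ B := by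
        apply Finset.sum_le_sum
        intro q hq
        rw [Finset.mem_filter, Finset.mem_Ioc] at hq
        have hq1 : (2 : ℝ) ^ B ≤ q := by exact_mod_cast hq.1.1.le
        have hqpos : (0 : ℝ) < q := lt_of_lt_of_le hpos hq1
        calc ((jacobiSym (p : ℤ) q : ℤ) : ℝ) / q ≤ 1 / q :=
              div_le_div_of_nonneg_right (b1_jac_le_one _ _) hqpos.le
          _ ≤ 1 / 2 ^ B := one_div_le_one_div_of_le hpos hq1
    _ = ((Finset.Ioc (2 ^ B) y).filter Nat.Prime).card * ((1 : ℝ) / 2 ^ B) := by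
        rw [Finset.sum_const, nsmul_eq_mul]
    _ ≤ (2 ^ B : ℝ) * ((1 : ℝ) / 2 ^ B) := by
        apply mul_le_mul_of_nonneg_right _ (by positivity)
        have h1 : ((Finset.Ioc (2 ^ B) y).filter Nat.Prime).card ≤ 2 ^ B := by
          calc ((Finset.Ioc (2 ^ B) y).filter Nat.Prime).card ≤ (Finset.Ioc (2 ^ B) y).card :=
                Finset.card_filter_le _ _
            _ = y - 2 ^ B := Nat.card_Ioc _ _
            _ ≤ 2 ^ B := by
                rw [pow_succ] at hy
                omega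
        exact_mod_cast h1
    _ = 1 := by field_simp

/-- the union of blocks -/
theorem b1_blocks (p J : ℕ) : ∀ B : ℕ, J ≤ B →
    ∑ q ∈ (Finset.Ioc (2 ^ J) (2 ^ B)).filter Nat.Prime, ((jacobiSym (p : ℤ) q : ℤ) : ℝ) / q =
      ∑ j ∈ Finset.Ico J B, b p j := by
  intro B hB
  induction B, hB using Nat.le_induction with
  | base => simp
  | succ B hB ih =>
    rw [b1_split p (2 ^ J) (2 ^ (B + 1)) (m := 2 ^ B) (Nat.pow_le_pow_right (by norm_num) hB)
      (Nat.pow_le_pow_right (by norm_num) (Nat.le_succ B)), ih, Finset.sum_Ico_succ_top hB]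
    rfl

theorem b1_harm (L : ℕ) : ∑ j ∈ Finset.range L, 1 / ((j : ℝ) + 1) ≤ 1 + Real.log (L + 1) := by
  have h1 := harmonic_le_one_add_log L
  have h2 : ((harmonic L : ℚ) : ℝ) = ∑ j ∈ Finset.range L, 1 / ((j : ℝ) + 1) := by
    unfold harmonic
    push_cast
    apply Finset.sum_congr rfl
    intro j _
    rw [one_div]
  rw [← h2]
  refine h1.trans ?_
  have h3 : Real.log L ≤ Real.log (L + 1) := by
    rcases Nat.eq_zero_or_pos L with h | h
    · subst h
      simp
    · apply Real.log_le_log (by exact_mod_cast h)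
      linarith
  linarith

theorem exists_block : ∃ C1 : ℝ, ∀ L J p : ℕ, p.Prime → p ≤ 2 ^ L → 1 ≤ J →
    Real.log J + C1 ≤ S p (Nat.sqrt p) →
    ∃ j : ℕ, J ≤ j ∧ j < L ∧ 1 / ((j + 1 : ℝ) * (1 + Real.log (L + 1))) ≤ b p j := by
  obtain ⟨C, hC, hM⟩ := Pool.Agent.Lib.helper94.ANT.mertens
  refine ⟨C + 3, ?_⟩
  intro L J p hp hpL hJ hS
  by_contra hcon
  push Not at hcon
  set y := Nat.sqrt p with hy
  have hyL : y ≤ 2 ^ L := (Nat.sqrt_le_self p).trans hpL
  rw [b1_S_eq] at hS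
  rcases le_or_gt y (2 ^ J) with h | h
  · have := b1_low p hC hM hJ h
    linarith
  · -- find B
    have hex : ∃ B : ℕ, y ≤ 2 ^ (B + 1) := ⟨L, hyL.trans (Nat.pow_le_pow_right (by norm_num) (Nat.le_succ L))⟩
    classical
    set B := Nat.find hex with hB
    have hB1 : y ≤ 2 ^ (B + 1) := Nat.find_spec hex
    have hJB : J ≤ B := by
      by_contra hlt
      push Not at hlt
      have : y ≤ 2 ^ J := hB1.trans (Nat.pow_le_pow_right (by norm_num) hlt)
      omega
    have hB2 : 2 ^ B < y := by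
      by_contra hle
      push Not at hle
      have hBpos : 1 ≤ B := hJ.trans hJB
      have := Nat.find_min' hex (m := B - 1) (by rwa [Nat.sub_add_cancel hBpos])
      omega
    have hBL : B < L := by
      by_contra hle
      push Not at hle
      have : 2 ^ L ≤ 2 ^ B := Nat.pow_le_pow_right (by norm_num) hle
      omega
    have hpow2 : 2 ≤ 2 ^ J := by
      calc 2 = 2 ^ 1 := by norm_num
        _ ≤ 2 ^ J := Nat.pow_le_pow_right (by norm_num) hJ
    rw [b1_split p 2 y (m := 2 ^ J) hpow2 h.le,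
      b1_split p (2 ^ J) y (m := 2 ^ B) (Nat.pow_le_pow_right (by norm_num) hJB) hB2.le,
      b1_blocks p J B hJB] at hS
    have h1 := b1_low p hC hM hJ (le_refl (2 ^ J))
    have h2 := b1_top p B y hB1
    have hlogpos : 0 < 1 + Real.log ((L : ℝ) + 1) := by
      have : 0 ≤ Real.log ((L : ℝ) + 1) := Real.log_nonneg (by linarith [Nat.cast_nonneg (α := ℝ) L])
      linarith
    have h3 : ∑ j ∈ Finset.Ico J B, b p j ≤ 1 := by
      calc ∑ j ∈ Finset.Ico J B, b p j
          ≤ ∑ j ∈ Finset.Ico J B, 1 / ((j + 1 : ℝ) * (1 + Real.log (L + 1))) := by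
            apply Finset.sum_le_sum
            intro j hj
            rw [Finset.mem_Ico] at hj
            exact (hcon j hj.1 (by omega)).le
        _ ≤ ∑ j ∈ Finset.range L, 1 / ((j + 1 : ℝ) * (1 + Real.log (L + 1))) := by
            apply Finset.sum_le_sum_of_subset_of_nonneg
            · intro j hj
              rw [Finset.mem_Ico] at hj
              rw [Finset.mem_range]
              omega
            · intro j _ _
              positivity
        _ = (∑ j ∈ Finset.range L, 1 / ((j : ℝ) + 1)) / (1 + Real.log (L + 1)) := by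
            rw [Finset.sum_div]
            apply Finset.sum_congr rfl
            intro j _
            rw [div_div]
        _ ≤ 1 := by
            rw [div_le_one hlogpos]
            exact b1_harm L
    linarith

end Pool.Agent.MP_ffd2b5_nt
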