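import Mathlib
import Pool.Agent.MP_ffd2b5_nt.Defs

set_option autoImplicit false

namespace Pool.Agent.MP_ffd2b5_nt

/-!
[TPE-C1] Chebyshev bounds for the `m`-th prime.
PROOF. `p = thePrime m` is prime (`Nat.prime_nth_prime`), `π(p) = m` for `m ≥ 1` (`Nat.primeCounting` of the nth prime:
`Nat.primeCounting'_nth_eq`, `Nat.count_nth`...). `Chebyshev.pi_ge`: `(n log 2 - log (n+1)) / log n ≤ π n`; so
`π n ≥ c n / log n` for all `n ≥ 2` (for small `n` use `π n ≥ 1`). Hence (1). (2): `p / log p ≤ m / c` and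
`log p ≤ 2 √p` give `√p ≤ 2 m / c`, so `log p ≤ 2 log (2 / c) + 2 log m ≤ C log m` for `m ≥ 2`.
-/
theorem thePrime_prime (m : ℕ) : (thePrime m).Prime := by
  unfold thePrime
  exact Nat.prime_nth_prime _

theorem primeCounting_thePrime (m : ℕ) (hm : 1 ≤ m) : Nat.primeCounting (thePrime m) = m := by
  have h1 : Nat.primeCounting (thePrime m) = Nat.primeCounting' (thePrime m) + 1 := by
    unfold Nat.primeCounting Nat.primeCounting'
    rw [Nat.count_succ, if_pos (thePrime_prime m)]
  rw [h1]
  unfold thePrime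
  rw [Nat.primeCounting'_nth_eq]
  omega

lemma c1_three_le (m : ℕ) (hm : 2 ≤ m) : 3 ≤ thePrime m := by
  have h2 := (thePrime_prime m).two_le
  rcases Nat.lt_or_ge 2 (thePrime m) with h | h
  · exact h
  · exfalso
    have h3 : thePrime m = 2 := le_antisymm h h2
    have h4 := primeCounting_thePrime m (by omega)
    rw [h3] at h4
    have h5 : Nat.primeCounting 2 = 1 := by decide
    omega

theorem thePrime_bounds : ∃ c : ℝ, 0 < c ∧ ∀ m : ℕ, 2 ≤ m →
    c * (thePrime m / Real.log (thePrime m)) ≤ m ∧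
      c * Real.log (thePrime m) ≤ Real.log m := by
  refine ⟨1 / 9, by norm_num, fun m hm => ?_⟩
  have hp3 : (3 : ℝ) ≤ thePrime m := by exact_mod_cast c1_three_le m hm
  have hlog : 0 < Real.log (thePrime m) := Real.log_pos (by linarith)
  have h1 := Chebyshev.pi_ge (thePrime m)
  rw [primeCounting_thePrime m (by omega)] at h1
  set p : ℝ := (thePrime m : ℝ) with hp
  have hl2 := Real.log_two_gt_d9
  have hl2' := Real.log_two_lt_d9
  have hl4 : Real.log 4 = 2 * Real.log 2 := by
    rw [show (4 : ℝ) = 2 ^ 2 by norm_num, Real.log_pow]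
    norm_num
  have h2 : Real.log (p + 1) ≤ (p + 1) / 4 + Real.log 4 - 1 := by
    have h3 := Real.log_le_sub_one_of_pos (show (0 : ℝ) < (p + 1) / 4 by linarith)
    rw [Real.log_div (by linarith) (by norm_num)] at h3
    linarith
  have h4 : (1 / 5) * p ≤ p * Real.log 2 - Real.log (p + 1) := by
    rw [hl4] at h2
    nlinarith
  have h5 : (1 / 5) * (p / Real.log p) ≤ m := by
    refine le_trans ?_ h1
    rw [← mul_div_assoc]
    exact div_le_div_of_nonneg_right h4 hlog.le
  have hpos : 0 < p / Real.log p := div_pos (by linarith) hlog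
  refine ⟨by linarith, ?_⟩
  have hsq : 0 < Real.sqrt p := Real.sqrt_pos.2 (by linarith)
  have h6 : Real.log p ≤ 2 * Real.sqrt p := by
    have h7 := Real.log_le_sub_one_of_pos hsq
    rw [Real.log_sqrt (by linarith)] at h7
    linarith
  have h8 : Real.sqrt p ≤ 10 * m := by
    have h9 : p ≤ 5 * m * Real.log p := by
      have := (div_le_iff₀ hlog).1 (show p / Real.log p ≤ 5 * m by linarith)
      linarith
    have h10 : p = Real.sqrt p * Real.sqrt p := (Real.mul_self_sqrt (by linarith)).symm
    have h11 : Real.sqrt p * Real.sqrt p ≤ 10 * m * Real.sqrt p := by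
      rw [← h10]
      have hm0 : (0 : ℝ) ≤ m := Nat.cast_nonneg m
      calc p ≤ 5 * m * Real.log p := h9
        _ ≤ 5 * m * (2 * Real.sqrt p) := by
          exact mul_le_mul_of_nonneg_left h6 (by positivity)
        _ = 10 * m * Real.sqrt p := by ring
    exact le_of_mul_le_mul_right h11 hsq
  have hm2 : (2 : ℝ) ≤ m := by exact_mod_cast hm
  have h12 : Real.log p ≤ 2 * Real.log (10 * m) := by
    have h13 : Real.log (Real.sqrt p) ≤ Real.log (10 * m) := Real.log_le_log hsq h8
    rw [Real.log_sqrt (by linarith)] at h13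
    linarith
  have h14 : Real.log (10 * m) = Real.log 10 + Real.log m :=
    Real.log_mul (by norm_num) (by linarith)
  have h15 : Real.log 10 ≤ 3.5 * Real.log 2 := by
    have h16 : (2 : ℝ) * Real.log 10 ≤ 7 * Real.log 2 := by
      have h17 : Real.log ((10 : ℝ) ^ 2) ≤ Real.log ((2 : ℝ) ^ 7) :=
        Real.log_le_log (by norm_num) (by norm_num)
      rw [Real.log_pow, Real.log_pow] at h17
      exact_mod_cast h17
    linarith
  have h18 : Real.log 2 ≤ Real.log m := Real.log_le_log (by norm_num) hm2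
  linarith

end Pool.Agent.MP_ffd2b5_nt
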