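import Mathlib
import Pool.Agent.MP_ffd2b5_nt.Defs

set_option autoImplicit false

namespace Pool.Agent.MP_ffd2b5_nt

theorem cf1_irr (D : ℕ) (hD : ¬ IsSquare D) (m : ℤ) : Real.sqrt D ≠ m := by
  intro h
  apply hD
  have h1 : Real.sqrt D ^ 2 = D := Real.sq_sqrt (Nat.cast_nonneg D)
  rw [h] at h1
  have h2 : m ^ 2 = (D : ℤ) := by exact_mod_cast h1
  refine ⟨m.natAbs, ?_⟩
  zify
  rw [← h2, ← sq, sq_abs]

theorem cf1_step (D : ℕ) (hD : ¬ IsSquare D) (P Q a : ℤ) (hQ : Q ≠ 0)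
    (hdvd : Q ∣ (D : ℤ) - P ^ 2) :
    ((D : ℤ) - (a * Q - P) ^ 2) / Q * Q = (D : ℤ) - (a * Q - P) ^ 2 ∧
    ((D : ℤ) - (a * Q - P) ^ 2) / Q ≠ 0 ∧
    1 / (((P : ℝ) + Real.sqrt D) / (Q : ℝ) - (a : ℝ)) =
      (((a * Q - P : ℤ) : ℝ) + Real.sqrt D) /
        ((((D : ℤ) - (a * Q - P) ^ 2) / Q : ℤ) : ℝ) := by
  have h1 : Q ∣ (D : ℤ) - (a * Q - P) ^ 2 := by
    have : (D : ℤ) - (a * Q - P) ^ 2 = ((D : ℤ) - P ^ 2) + Q * (2 * a * P - a ^ 2 * Q) := by ring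
    rw [this]
    exact dvd_add hdvd (Dvd.intro _ rfl)
  have h2 := Int.ediv_mul_cancel h1
  have h3 : (D : ℤ) - (a * Q - P) ^ 2 ≠ 0 := by
    intro h
    apply hD
    refine ⟨(a * Q - P).natAbs, ?_⟩
    zify
    rw [← sq, sq_abs]
    linarith
  have h4 : ((D : ℤ) - (a * Q - P) ^ 2) / Q ≠ 0 := by
    intro h
    rw [h, zero_mul] at h2
    exact h3 h2.symm
  refine ⟨h2, h4, ?_⟩
  set Q' : ℤ := ((D : ℤ) - (a * Q - P) ^ 2) / Q with hQ'
  have hs : Real.sqrt D ^ 2 = D := Real.sq_sqrt (Nat.cast_nonneg D)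
  have h5 : (Q' : ℝ) * Q = Real.sqrt D ^ 2 - ((a * Q - P : ℤ) : ℝ) ^ 2 := by
    rw [hs]
    exact_mod_cast h2
  have hQr : (Q : ℝ) ≠ 0 := by exact_mod_cast hQ
  have hQr' : (Q' : ℝ) ≠ 0 := by exact_mod_cast h4
  have h6 : Real.sqrt D - ((a * Q - P : ℤ) : ℝ) ≠ 0 := sub_ne_zero.2 (cf1_irr D hD _)
  have h7 : ((P : ℝ) + Real.sqrt D) / (Q : ℝ) - (a : ℝ) =
      (Real.sqrt D - ((a * Q - P : ℤ) : ℝ)) / Q := by
    push_cast
    field_simp
    ring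
  rw [h7, one_div_div, div_eq_div_iff h6 hQr']
  linear_combination h5

theorem cf1_red (D : ℕ) (Q P' Q' : ℤ) (hQ : 0 < Q) (hP' : 0 < P')
    (h1 : 0 < Real.sqrt D - P') (h2 : Real.sqrt D - P' < Q) (h3 : (Q : ℝ) < Real.sqrt D + P')
    (h : Q' * Q = (D : ℤ) - P' ^ 2) : Red D P' Q' := by
  have hs : Real.sqrt D ^ 2 = D := Real.sq_sqrt (Nat.cast_nonneg D)
  have h5 : (Q' : ℝ) * Q = (Real.sqrt D - P') * (Real.sqrt D + P') := by
    have : (Q' : ℝ) * Q = D - (P' : ℝ) ^ 2 := by exact_mod_cast h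
    linear_combination this - hs
  have hQr : (0 : ℝ) < Q := by exact_mod_cast hQ
  have h6 : (0 : ℝ) < Real.sqrt D + P' := hQr.trans h3
  have h7 : (0 : ℝ) < (Q' : ℝ) * Q := by rw [h5]; positivity
  have h8 : (0 : ℝ) < Q' := pos_of_mul_pos_left h7 hQr.le
  refine ⟨hP', by exact_mod_cast h8, ?_, ⟨Q, h.symm⟩, ?_, ?_⟩
  · have h9 : (0 : ℤ) < Q' := by exact_mod_cast h8
    have : 0 < Q' * Q := mul_pos h9 hQ
    linarith
  · refine lt_of_mul_lt_mul_right ?_ hQr.le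
    rw [h5]
    exact mul_lt_mul_of_pos_left h3 h1
  · refine lt_of_mul_lt_mul_right ?_ hQr.le
    rw [h5, mul_comm (Real.sqrt D + (P' : ℝ))]
    exact mul_lt_mul_of_pos_right h2 h6

/-!
[TPE-CF1] complete quotients of `√D`.
PROOF. Put `s = √D` (irrational: `irrational_sqrt_natCast_iff` or similar, `s ^ 2 = D`, `D ≥ 2`).
Induction on `n`. `n = 0`: `P = 0, Q = 1`.
Step: let `(P, Q) = PQ D n`, `a = ⌊(P + s) / Q⌋`, `P' = a Q - P`, `Q' = (D - P' ^ 2) / Q`.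
* `Q ∣ D - P' ^ 2`: `D - (aQ - P)^2 = (D - P^2) + 2aPQ - a^2 Q^2`. So `Q' * Q = D - P' ^ 2` in `ℤ`,
  it is nonzero because `D` is no square, hence `Q' ≠ 0` and `Q' ∣ D - P' ^ 2`.
* `ξ - a = (P + s)/Q - a = (s - P') / Q`, `1 / (ξ - a) = Q / (s - P') = Q (s + P') / (D - P'^2) = (P' + s) / Q'`
  (`s - P' ≠ 0` by irrationality).
* `Red D P' Q'`. If `n = 0`: `a = ⌊s⌋ = P'`, `0 < P' < s`, `s - P' < 1 ≤ Q' = (s - P')(s + P') < s + P'`.
  If `n ≥ 1` and `Red D P Q`: `(P + s) / Q > 1`, so `a ≥ 1`; `0 < (P + s)/Q - a < 1` gives `0 < s - P' < Q`.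
  `P' > 0`: if `Q < s` because `P' > s - Q`; if `Q > s` then `P' ≥ Q - P > 0` as `P < s`.
  `Q' = (s - P')(s + P') / Q < s + P'`. `Q' > s - P'` iff `s + P' > Q`: `P' ≥ Q - P > Q - s`.
  `P' ^ 2 < D` from `0 < P' < s`; `Q' > 0` because `Q' > s - P' > 0`.
-/
theorem cq_eq (D : ℕ) (hD : ¬ IsSquare D) (n : ℕ) :
    cq (Real.sqrt D) n = (((PQ D n).1 : ℝ) + Real.sqrt D) / ((PQ D n).2 : ℝ) ∧
      (PQ D n).2 ≠ 0 ∧ (PQ D n).2 ∣ (D : ℤ) - (PQ D n).1 ^ 2 ∧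
      (1 ≤ n → Red D (PQ D n).1 (PQ D n).2) := by
  have hD2 : 2 ≤ D := by
    rcases D with _ | _ | D
    · exact absurd ⟨0, rfl⟩ hD
    · exact absurd ⟨1, rfl⟩ hD
    · omega
  have hs1 : (1 : ℝ) < Real.sqrt D := by
    rw [Real.lt_sqrt (by norm_num)]
    have : (2 : ℝ) ≤ D := by exact_mod_cast hD2
    linarith
  induction n with
  | zero =>
    refine ⟨?_, ?_, ?_, ?_⟩
    · simp [cq, PQ]
    · simp [PQ]
    · simp [PQ]
    · intro h; omega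
  | succ n ih =>
    obtain ⟨ih1, ih2, ih3, ih4⟩ := ih
    set P := (PQ D n).1 with hP
    set Q := (PQ D n).2 with hQ
    set a : ℤ := ⌊((P : ℝ) + Real.sqrt D) / (Q : ℝ)⌋ with ha
    have hP1 : (PQ D (n + 1)).1 = a * Q - P := rfl
    have hQ1 : (PQ D (n + 1)).2 = ((D : ℤ) - (a * Q - P) ^ 2) / Q := rfl
    have hcq : cq (Real.sqrt D) (n + 1) = 1 / (cq (Real.sqrt D) n - ⌊cq (Real.sqrt D) n⌋) := rfl
    obtain ⟨s1, s2, s3⟩ := cf1_step D hD P Q a ih2 ih3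
    rw [hcq, ih1, ← ha, hP1, hQ1]
    refine ⟨s3, s2, ⟨Q, s1.symm⟩, fun _ => ?_⟩
    have hfl := Int.floor_le (((P : ℝ) + Real.sqrt D) / (Q : ℝ))
    have hfl' := Int.lt_floor_add_one (((P : ℝ) + Real.sqrt D) / (Q : ℝ))
    rw [← ha] at hfl hfl'
    have key : 0 < Q ∧ 0 < a * Q - P ∧ (Q : ℝ) < Real.sqrt D + ((a * Q - P : ℤ) : ℝ) := by
      rcases Nat.eq_zero_or_pos n with h0 | h0
      · have hP0 : P = 0 := by rw [hP, h0]; rfl
        have hQ0 : Q = 1 := by rw [hQ, h0]; rfl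
        rw [hP0, hQ0] at hfl'
        simp only [Int.cast_zero, zero_add, Int.cast_one, div_one] at hfl'
        have ha1 : 1 ≤ a := by
          have : (1 : ℝ) < (a : ℝ) + 1 := by linarith
          have : (1 : ℤ) < a + 1 := by exact_mod_cast this
          omega
        rw [hP0, hQ0]
        refine ⟨by norm_num, by omega, ?_⟩
        have : (1 : ℝ) ≤ a := by exact_mod_cast ha1
        push_cast
        linarith
      · obtain ⟨r1, r2, r3, r4, r5, r6⟩ := ih4 h0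
        have hQr : (0 : ℝ) < Q := by exact_mod_cast r2
        have hPr : (0 : ℝ) < P := by exact_mod_cast r1
        rw [div_lt_iff₀ hQr] at hfl'
        have ha1 : 1 ≤ a := by
          by_contra hcon
          have h1 : a ≤ 0 := by omega
          have h2 : (a : ℝ) + 1 ≤ 1 := by
            have : (a : ℝ) ≤ 0 := by exact_mod_cast h1
            linarith
          have h3 : ((a : ℝ) + 1) * Q ≤ 1 * Q := mul_le_mul_of_nonneg_right h2 hQr.le
          linarith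
        have ha1r : (1 : ℝ) ≤ a := by exact_mod_cast ha1
        have hPs : (P : ℝ) < Real.sqrt D := by
          apply Real.lt_sqrt_of_sq_lt
          exact_mod_cast r3
        have haQ : (Q : ℝ) ≤ a * Q := by nlinarith
        have hpos : (0 : ℝ) < ((a * Q - P : ℤ) : ℝ) := by
          push_cast
          nlinarith
        refine ⟨r2, by exact_mod_cast hpos, ?_⟩
        push_cast
        linarith
    obtain ⟨k1, k2, k3⟩ := key
    have hQr : (0 : ℝ) < Q := by exact_mod_cast k1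
    rw [le_div_iff₀ hQr] at hfl
    rw [div_lt_iff₀ hQr] at hfl'
    refine cf1_red D Q _ _ k1 k2 ?_ ?_ k3 s1
    · have h1 : (0 : ℝ) ≤ Real.sqrt D - ((a * Q - P : ℤ) : ℝ) := by
        push_cast
        linarith
      exact lt_of_le_of_ne h1 (Ne.symm (sub_ne_zero.2 (cf1_irr D hD _)))
    · push_cast
      linarith

end Pool.Agent.MP_ffd2b5_nt
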