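import Mathlib
import Pool.Agent.MP_ffd2b5_nt.Defs
import Pool.Agent.MP_ffd2b5_nt.CF1

set_option autoImplicit false

namespace Pool.Agent.MP_ffd2b5_nt

/-!
[TPE-CF2] the step is injective on reduced pairs; pure periodicity from index 1.
PROOF of `back`: `(P,Q) = PQ D n`, `(P1,Q1) = PQ D m`, common successor `(P',Q')`.
By definition of `PQ` and `cq_eq` (divisibility), `Q' * Q = D - P' ^ 2 = Q' * Q1`, `Q' ≠ 0`, so `Q = Q1`.
`P = a Q - P'`, `P1 = a1 Q - P'`, so `Q ∣ P - P1`; both `P` and `P1` lie in `(√D - Q, √D)` (from `Red`),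
hence `|P - P1| < Q` and `P = P1` (`Int.eq_zero_of_abs_lt_dvd` or similar).
PROOF of `exists_period`: `PQ D (k+1) ∈ F` for `k < F.card + 1` (by `cq_eq`), pigeonhole
(`Finset.exists_ne_map_eq_of_card_lt_of_maps_to` on `Finset.range (F.card + 1)`) gives `i < j ≤ F.card` with
`PQ D (i+1) = PQ D (j+1)`. Put `T = j - i`. Descending with `back`: `PQ D 1 = PQ D (1 + T)`.
Ascending (the successor is a function of the pair): `PQ D n = PQ D (n + T)` for all `n ≥ 1`,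
hence `cq` and `pq` agree by `cq_eq`.
-/
theorem cf2_step (D n : ℕ) : PQ D (n + 1) =
    (⌊(((PQ D n).1 : ℝ) + Real.sqrt D) / ((PQ D n).2 : ℝ)⌋ * (PQ D n).2 - (PQ D n).1,
      ((D : ℤ) - (⌊(((PQ D n).1 : ℝ) + Real.sqrt D) / ((PQ D n).2 : ℝ)⌋ * (PQ D n).2
        - (PQ D n).1) ^ 2) / (PQ D n).2) := rfl

theorem cf2_alg (D P Q P1 Q1 a a1 : ℤ) (hd : Q ∣ D - P ^ 2)
    (hd1 : Q1 ∣ D - P1 ^ 2) (e1 : a * Q - P = a1 * Q1 - P1)
    (e2 : (D - (a * Q - P) ^ 2) / Q = (D - (a1 * Q1 - P1) ^ 2) / Q1)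
    (h0 : (D - (a * Q - P) ^ 2) / Q ≠ 0) : Q = Q1 ∧ Q ∣ P - P1 := by
  have hd' : Q ∣ D - (a * Q - P) ^ 2 := by
    obtain ⟨c, hc⟩ := hd
    exact ⟨c + 2 * a * P - a ^ 2 * Q, by linear_combination hc⟩
  have hd1' : Q1 ∣ D - (a1 * Q1 - P1) ^ 2 := by
    obtain ⟨c, hc⟩ := hd1
    exact ⟨c + 2 * a1 * P1 - a1 ^ 2 * Q1, by linear_combination hc⟩
  have h1 := Int.ediv_mul_cancel hd'
  have h2 := Int.ediv_mul_cancel hd1'
  rw [← e2, ← e1] at h2
  have h3 : Q = Q1 := mul_left_cancel₀ h0 (h1.trans h2.symm)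
  refine ⟨h3, ?_⟩
  subst h3
  exact ⟨a - a1, by linear_combination -e1⟩

theorem back (D : ℕ) (hD : ¬ IsSquare D) (n m : ℕ) (hn : 1 ≤ n) (hm : 1 ≤ m)
    (h : PQ D (n + 1) = PQ D (m + 1)) : PQ D n = PQ D m := by
  obtain ⟨-, -, hdn, hredn⟩ := cq_eq D hD n
  obtain ⟨-, -, hdm, hredm⟩ := cq_eq D hD m
  obtain ⟨-, hQn1, -, -⟩ := cq_eq D hD (n + 1)
  have e1 : (PQ D (n + 1)).1 = (PQ D (m + 1)).1 := by rw [h]
  have e2 : (PQ D (n + 1)).2 = (PQ D (m + 1)).2 := by rw [h]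
  rw [cf2_step D n, cf2_step D m] at e1 e2
  rw [cf2_step D n] at hQn1
  obtain ⟨h1, h2⟩ := cf2_alg _ _ _ _ _ _ _ hdn hdm e1 e2 hQn1
  obtain ⟨hP, hQ, hPD, -, hlt, -⟩ := hredn hn
  obtain ⟨hP', hQ', hPD', -, hlt', -⟩ := hredm hm
  have hs : ((PQ D n).1 : ℝ) < Real.sqrt D := by
    apply Real.lt_sqrt_of_sq_lt
    exact_mod_cast hPD
  have hs' : ((PQ D m).1 : ℝ) < Real.sqrt D := by
    apply Real.lt_sqrt_of_sq_lt
    exact_mod_cast hPD'
  have h3 : (PQ D n).1 - (PQ D m).1 = 0 := by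
    refine Int.eq_zero_of_abs_lt_dvd h2 ?_
    rw [abs_lt]
    rw [← h1] at hlt'
    constructor
    · have : (-((PQ D n).2 : ℝ)) < ((PQ D n).1 : ℝ) - ((PQ D m).1 : ℝ) := by linarith
      exact_mod_cast this
    · have : ((PQ D n).1 : ℝ) - ((PQ D m).1 : ℝ) < ((PQ D n).2 : ℝ) := by linarith
      exact_mod_cast this
  exact Prod.ext (by omega) h1

theorem exists_period (D : ℕ) (hD : ¬ IsSquare D) (F : Finset (ℤ × ℤ))
    (hF : ∀ P Q : ℤ, Red D P Q → (P, Q) ∈ F) :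
    ∃ T : ℕ, 1 ≤ T ∧ T ≤ F.card ∧
      ∀ n : ℕ, 1 ≤ n → pq (Real.sqrt D) (n + T) = pq (Real.sqrt D) n := by
  have hmem : ∀ k, PQ D (k + 1) ∈ F := fun k => by
    have := hF _ _ ((cq_eq D hD (k + 1)).2.2.2 (by omega))
    exact this
  obtain ⟨i, hi, j, hj, hij, heq⟩ := Finset.exists_ne_map_eq_of_card_lt_of_maps_to
    (s := Finset.range (F.card + 1)) (t := F) (by simp) (f := fun k => PQ D (k + 1))
    (fun k _ => hmem k)
  rw [Finset.mem_range] at hi hj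
  -- the key step for i < j
  have key : ∀ i T : ℕ, 1 ≤ T → PQ D (i + 1) = PQ D (i + 1 + T) → PQ D 1 = PQ D (1 + T) := by
    intro i T hT
    induction i with
    | zero => intro h; simpa using h
    | succ i ih =>
      intro h
      apply ih
      refine back D hD (i + 1) (i + 1 + T) (by omega) (by omega) ?_
      rw [h]
      congr 1
      omega
  have fin : ∀ i j : ℕ, i < j → j < F.card + 1 → PQ D (i + 1) = PQ D (j + 1) →
      ∃ T : ℕ, 1 ≤ T ∧ T ≤ F.card ∧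
      ∀ n : ℕ, 1 ≤ n → pq (Real.sqrt D) (n + T) = pq (Real.sqrt D) n := by
    intro i j hij hj h
    refine ⟨j - i, by omega, by omega, ?_⟩
    have h1 : PQ D 1 = PQ D (1 + (j - i)) := by
      refine key i (j - i) (by omega) ?_
      rw [h]
      congr 1
      omega
    have h2 : ∀ n : ℕ, 1 ≤ n → PQ D n = PQ D (n + (j - i)) := by
      intro n hn
      induction n, hn using Nat.le_induction with
      | base => exact h1
      | succ n hn ih =>
        have h3 : n + 1 + (j - i) = (n + (j - i)) + 1 := by omega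
        rw [h3, cf2_step D n, cf2_step D (n + (j - i)), ← ih]
    intro n hn
    have h4 : cq (Real.sqrt D) (n + (j - i)) = cq (Real.sqrt D) n := by
      rw [(cq_eq D hD n).1, (cq_eq D hD (n + (j - i))).1, ← h2 n hn]
    unfold pq
    rw [h4]
  rcases lt_or_gt_of_ne hij with h | h
  · exact fin i j h hj heq
  · exact fin j i h hi heq.symm

end Pool.Agent.MP_ffd2b5_nt
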