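import Mathlib
import Pool.Agent.MP_ffd2b5_nt.Defs

set_option autoImplicit false

namespace Pool.Agent.MP_ffd2b5_nt

/-!
[TPE-CF3] counting reduced pairs.
PROOF. Let `s = √D`, `y = Nat.sqrt D` (so for an integer `Q ≥ 1`: `Q ≤ y ↔ Q ^ 2 ≤ D ↔ Q < s` as `D` is no square).
For `1 ≤ Q ≤ y` and a residue `r < Q` with `Q ∣ r ^ 2 - D` there is exactly one integer `P ≡ r` mod `Q` with
`s - Q < P < s`. So the set `A` of pairs `(P, Q)` with `1 ≤ Q ≤ y`, `s - Q < P < s`, `Q ∣ D - P ^ 2` is finite and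
the map `(P, Q) ↦ (Q, P mod Q)` is injective on `A` with values in the sigma-type of the solutions:
`|A| ≤ ∑_{Q=1}^y rho D Q`.
If `Red D P Q` then `Q' = (D - P ^ 2) / Q` satisfies `Q Q' = D - P ^ 2 < D`, and either `Q ≤ y`, then `(P, Q) ∈ A`,
or `Q > s`, then `Q' < s`, and `(P, Q') ∈ A`: `Q < s + P` gives `Q' = (s-P)(s+P)/Q > s - P`, i.e. `P > s - Q'`.
In the second case `(P, Q) = (P, (D - P ^ 2) / Q')`. So `F = A ∪ image of A under (P, Q) ↦ (P, (D - P^2) / Q)` works.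
(You may take `A` as a filter of `Finset.Icc (-D) D ×ˢ Finset.Icc 1 y` over `ℤ`, or build it as an image of the
sigma finset of `(Q, r)`.)
-/
theorem exists_redset (D : ℕ) (hD : ¬ IsSquare D) : ∃ F : Finset (ℤ × ℤ),
    (∀ P Q : ℤ, Red D P Q → (P, Q) ∈ F) ∧
      F.card ≤ 2 * ∑ Q ∈ Finset.Icc 1 (Nat.sqrt D), rho D Q := by
  classical
  set y : ℕ := Nat.sqrt D with hy
  have hyD : (y : ℤ) ^ 2 ≤ D := by
    have := Nat.sqrt_le' D
    exact_mod_cast this
  have hDy : (D : ℤ) < ((y : ℤ) + 1) ^ 2 := by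
    have := Nat.lt_succ_sqrt' D
    exact_mod_cast this
  set s : ℝ := Real.sqrt D with hs
  have hs0 : 0 ≤ s := Real.sqrt_nonneg _
  have hs2 : s ^ 2 = D := Real.sq_sqrt (Nat.cast_nonneg D)
  set A : Finset (ℤ × ℤ) := ((Finset.Icc (-(D : ℤ)) D) ×ˢ (Finset.Icc 1 (y : ℤ))).filter
    (fun p : ℤ × ℤ => s - p.2 < p.1 ∧ (p.1 : ℝ) < s ∧ p.2 ∣ (D : ℤ) - p.1 ^ 2) with hA
  have hmemA : ∀ P Q : ℤ, (P, Q) ∈ A ↔ ((-(D : ℤ) ≤ P ∧ P ≤ D) ∧ (1 ≤ Q ∧ Q ≤ y)) ∧
      (s - Q < P ∧ (P : ℝ) < s ∧ Q ∣ (D : ℤ) - P ^ 2) := by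
    intro P Q
    rw [hA, Finset.mem_filter, Finset.mem_product, Finset.mem_Icc, Finset.mem_Icc]
  have hAcard : A.card ≤ ∑ Q ∈ Finset.Icc 1 y, rho D Q := by
    have h1 : ∑ Q ∈ Finset.Icc 1 y, rho D Q = ((Finset.Icc 1 y).sigma fun Q : ℕ =>
        (Finset.range Q).filter (fun r : ℕ => (Q : ℤ) ∣ (r : ℤ) ^ 2 - (D : ℤ))).card := by
      rw [Finset.card_sigma]
      rfl
    rw [h1]
    refine Finset.card_le_card_of_injOn
      (fun p : ℤ × ℤ => (⟨p.2.toNat, (p.1 % p.2).toNat⟩ : Σ _ : ℕ, ℕ)) ?_ ?_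
    · rintro ⟨P, Q⟩ hp
      rw [Finset.mem_coe, hmemA] at hp
      obtain ⟨⟨-, hQ1, hQy⟩, -, -, hdvd⟩ := hp
      have hQ0 : (Q.toNat : ℤ) = Q := Int.toNat_of_nonneg (by omega)
      have hr0 : 0 ≤ P % Q := Int.emod_nonneg _ (by omega)
      have hr1 : P % Q < Q := Int.emod_lt_of_pos _ (by omega)
      have hr : ((P % Q).toNat : ℤ) = P % Q := Int.toNat_of_nonneg hr0
      rw [Finset.mem_coe, Finset.mem_sigma, Finset.mem_Icc, Finset.mem_filter, Finset.mem_range]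
      refine ⟨⟨?_, ?_⟩, ?_, ?_⟩
      · show 1 ≤ Q.toNat
        omega
      · show Q.toNat ≤ y
        omega
      · show (P % Q).toNat < Q.toNat
        omega
      · show (Q.toNat : ℤ) ∣ ((P % Q).toNat : ℤ) ^ 2 - (D : ℤ)
        rw [hQ0, hr]
        obtain ⟨c, hc⟩ := hdvd
        have h2 := Int.emod_add_mul_ediv P Q
        refine ⟨-c - 2 * P * (P / Q) + Q * (P / Q) ^ 2, ?_⟩
        have h3 : P % Q = P - Q * (P / Q) := by linarith
        rw [h3]
        linear_combination -hc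
    · rintro ⟨P, Q⟩ hp ⟨P', Q'⟩ hp' h
      rw [Finset.mem_coe, hmemA] at hp hp'
      obtain ⟨⟨-, hQ1, hQy⟩, hl, hu, -⟩ := hp
      obtain ⟨⟨-, hQ1', hQy'⟩, hl', hu', -⟩ := hp'
      have h1 : Q.toNat = Q'.toNat ∧ (P % Q).toNat = (P' % Q').toNat := by
        have h2 := Sigma.mk.inj_iff.1 h
        exact ⟨h2.1, eq_of_heq h2.2⟩
      have hQQ : Q = Q' := by omega
      subst hQQ
      have hr0 : 0 ≤ P % Q := Int.emod_nonneg _ (by omega)
      have hr0' : 0 ≤ P' % Q := Int.emod_nonneg _ (by omega)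
      have h3 : P % Q = P' % Q := by omega
      have h4 : Q ∣ P - P' := Int.ModEq.dvd (show P' ≡ P [ZMOD Q] from h3.symm)
      have h5 : P - P' = 0 := by
        refine Int.eq_zero_of_abs_lt_dvd h4 ?_
        rw [abs_lt]
        constructor
        · have : (-(Q : ℝ)) < (P : ℝ) - P' := by linarith
          exact_mod_cast this
        · have : (P : ℝ) - P' < Q := by linarith
          exact_mod_cast this
      have h6 : P = P' := by omega
      rw [h6]
  refine ⟨A ∪ A.image (fun p => (p.1, ((D : ℤ) - p.1 ^ 2) / p.2)), ?_, ?_⟩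
  · rintro P Q ⟨hP, hQ, hPD, hdvd, h1, h2⟩
    have hPs : (P : ℝ) < s := by
      apply Real.lt_sqrt_of_sq_lt
      exact_mod_cast hPD
    have hPle : P ≤ D := by nlinarith
    rw [Finset.mem_union]
    by_cases hQy : Q ≤ y
    · left
      rw [hmemA]
      exact ⟨⟨⟨by omega, hPle⟩, by omega, hQy⟩, by linarith, hPs, hdvd⟩
    · right
      push Not at hQy
      obtain ⟨Q', hQ'⟩ := hdvd
      have hpos : 0 < (D : ℤ) - P ^ 2 := by omega
      have hQ'0 : 0 < Q' := by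
        rw [hQ'] at hpos
        by_contra hcon
        push Not at hcon
        have := mul_nonpos_of_nonneg_of_nonpos hQ.le hcon
        omega
      have hQ'y : Q' ≤ y := by
        by_contra hcon
        push Not at hcon
        have h3 : ((y : ℤ) + 1) ^ 2 ≤ Q * Q' := by nlinarith
        have h4 : 0 ≤ P ^ 2 := sq_nonneg P
        omega
      have hreal : (Q : ℝ) * Q' = (s - P) * (s + P) := by
        have h3 : ((D : ℝ)) - (P : ℝ) ^ 2 = Q * Q' := by exact_mod_cast hQ'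
        rw [← h3, ← hs2]
        ring
      have h5 : s - P < Q' := by
        have hQr : (0 : ℝ) < Q := by exact_mod_cast hQ
        have h6 : (s - P) * Q < Q' * Q := by
          have : (s - P) * Q < (s - P) * (s + P) := mul_lt_mul_of_pos_left h2 (by linarith)
          linarith
        exact lt_of_mul_lt_mul_right h6 hQr.le
      rw [Finset.mem_image]
      refine ⟨(P, Q'), ?_, ?_⟩
      · rw [hmemA]
        exact ⟨⟨⟨by omega, hPle⟩, by omega, hQ'y⟩, by linarith, hPs, ⟨Q, by rw [hQ']; ring⟩⟩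
      · show (P, ((D : ℤ) - P ^ 2) / Q') = (P, Q)
        rw [hQ', Int.mul_ediv_cancel _ hQ'0.ne']
  · refine (Finset.card_union_le _ _).trans ?_
    have := Finset.card_image_le (s := A) (f := fun p : ℤ × ℤ => (p.1, ((D : ℤ) - p.1 ^ 2) / p.2))
    omega

end Pool.Agent.MP_ffd2b5_nt
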