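import Mathlib
import Pool.Agent.MP_ffd2b5_nt.Defs

set_option autoImplicit false

namespace Pool.Agent.MP_ffd2b5_nt

/-- the quadratic character and its Gauss sum -/
theorem ls3_gauss (p : ℕ) [Fact p.Prime] (hp2 : p ≠ 2) :
    ∃ (χ : MulChar (ZMod p) ℂ) (g : ℂ), ‖g‖ ^ 2 = (p : ℝ) ∧
      (∀ n : ℕ, χ (n : ZMod p) = ((jacobiSym (n : ℤ) p : ℤ) : ℂ)) ∧ (∀ b, ‖χ b‖ ≤ 1) ∧
      χ 0 = 0 ∧ ∀ n : ZMod p, χ n * g = ∑ b : ZMod p, χ b * ZMod.stdAddChar (b * n) := by
  have hchar : ringChar (ZMod p) ≠ 2 := by rw [ZMod.ringChar_zmod_n]; exact hp2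
  have hinj : Function.Injective (Int.castRingHom ℂ) := Int.cast_injective
  have hχ1 : (quadraticChar (ZMod p)).ringHomComp (Int.castRingHom ℂ) ≠ 1 :=
    (MulChar.ringHomComp_ne_one_iff hinj).2 (quadraticChar_ne_one hchar)
  have hq : ((quadraticChar (ZMod p)).ringHomComp (Int.castRingHom ℂ)).IsQuadratic :=
    (quadraticChar_isQuadratic (ZMod p)).comp _
  have hprim : (ZMod.stdAddChar (N := p)).IsPrimitive := ZMod.isPrimitive_stdAddChar p
  refine ⟨(quadraticChar (ZMod p)).ringHomComp (Int.castRingHom ℂ),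
    gaussSum ((quadraticChar (ZMod p)).ringHomComp (Int.castRingHom ℂ)) ZMod.stdAddChar,
    ?_, ?_, ?_, ?_, ?_⟩
  · have h1 := gaussSum_mul_gaussSum_eq_card hχ1 hprim
    rw [← star_gaussSum_eq] at h1
    have h2 := Complex.mul_conj
      (gaussSum ((quadraticChar (ZMod p)).ringHomComp (Int.castRingHom ℂ)) ZMod.stdAddChar)
    rw [starRingEnd_apply, h1, ZMod.card, Complex.normSq_eq_norm_sq] at h2
    exact_mod_cast h2.symm
  · intro n
    rw [← jacobiSym.legendreSym.to_jacobiSym, MulChar.ringHomComp_apply]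
    unfold legendreSym
    rw [Int.cast_natCast]
    rfl
  · intro b
    rcases hq b with h | h | h
    · rw [h, norm_zero]; exact zero_le_one
    · rw [h, norm_one]
    · rw [h, norm_neg, norm_one]
  · exact MulChar.map_zero _
  · intro n
    by_cases hn : n = 0
    · subst hn
      rw [MulChar.map_zero, zero_mul]
      simp only [mul_zero, AddChar.map_zero_eq_one, mul_one]
      exact (MulChar.sum_eq_zero_of_ne_one hχ1).symm
    · have h1 := gaussSum_mulShift_eq ((quadraticChar (ZMod p)).ringHomComp (Int.castRingHom ℂ))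
        ZMod.stdAddChar (Units.mk0 n hn)
      rw [hq.inv, Units.val_mk0] at h1
      rw [← h1]
      unfold gaussSum
      refine Finset.sum_congr rfl fun b _ => ?_
      rw [AddChar.mulShift_apply, mul_comm n b]

/-!
[TPE-LS3] from the quadratic character to additive characters, one prime.
PROOF. For `h : ZMod p` let `f h = ∑_{n < N, (n : ZMod p) = h} a n` (real) and `A = (∑ f)/p`. Both sides only depend on `f`:
`∑_n a n J(n|p) = ∑_h f h (h/p)` and `∑_n a n e(n b/p) = ∑_h f h ψ(b h)`, `ψ` the standard additive character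
(or just `e(b h.val / p)`). Parseval: `∑_{b=0}^{p-1} ‖∑_h f h e(b h/p)‖² = p ∑ f²` (expand, orthogonality
`∑_b e(b (h - h')/p) = p [h = h']`: geometric sum, or `AddChar` orthogonality, or the DFT on `ZMod p`), the term `b = 0` is
`(∑ f)²`, so `∑_{b=1}^{p-1} ‖..‖² = p ∑ f² - (∑ f)² = p ∑ (f - A)²`.
As `∑_h (h/p) = 0` (`p` odd, `quadraticChar_sum_zero`): `(∑ f h (h/p))² = (∑ (f h - A) (h/p))² ≤ (∑ (f - A)²)(∑ (h/p)²)
≤ p ∑ (f - A)²`.
-/
theorem char_le (p : ℕ) (hp : p.Prime) (hp2 : p ≠ 2) (N : ℕ) (a : ℕ → ℝ) :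
    (∑ n ∈ Finset.range N, a n * ((jacobiSym (n : ℤ) p : ℤ) : ℝ)) ^ 2 ≤
      ∑ b ∈ Finset.Icc 1 (p - 1),
        ‖∑ n ∈ Finset.range N, (a n : ℂ) * e (n * ((b : ℝ) / p))‖ ^ 2 := by
  have : Fact p.Prime := ⟨hp⟩
  have : NeZero p := ⟨hp.ne_zero⟩
  obtain ⟨χ, g, hg, hχ, hle, h0, hsh⟩ := ls3_gauss p hp2
  have hp0 : (0 : ℝ) < p := by exact_mod_cast hp.pos
  have hS : (∑ n ∈ Finset.range N, (a n : ℂ) * χ (n : ZMod p)) * g =
      ∑ b ∈ Finset.univ.erase (0 : ZMod p),
        χ b * ∑ n ∈ Finset.range N, (a n : ℂ) * ZMod.stdAddChar (b * (n : ZMod p)) := by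
    have h1 : (∑ n ∈ Finset.range N, (a n : ℂ) * χ (n : ZMod p)) * g =
        ∑ b : ZMod p,
          χ b * ∑ n ∈ Finset.range N, (a n : ℂ) * ZMod.stdAddChar (b * (n : ZMod p)) := by
      rw [Finset.sum_mul]
      simp only [mul_assoc, hsh, Finset.mul_sum]
      rw [Finset.sum_comm]
      refine Finset.sum_congr rfl fun b _ => Finset.sum_congr rfl fun n _ => ?_
      ring
    rw [h1, ← Finset.add_sum_erase _ _ (Finset.mem_univ (0 : ZMod p)), h0, zero_mul, zero_add]
  have hT : ((∑ n ∈ Finset.range N, a n * ((jacobiSym (n : ℤ) p : ℤ) : ℝ) : ℝ) : ℂ) =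
      ∑ n ∈ Finset.range N, (a n : ℂ) * χ (n : ZMod p) := by
    push_cast
    exact Finset.sum_congr rfl fun n _ => by rw [hχ]
  have hnorm : (∑ n ∈ Finset.range N, a n * ((jacobiSym (n : ℤ) p : ℤ) : ℝ)) ^ 2 * p ≤
      p * ∑ b ∈ Finset.univ.erase (0 : ZMod p),
        ‖∑ n ∈ Finset.range N, (a n : ℂ) * ZMod.stdAddChar (b * (n : ZMod p))‖ ^ 2 := by
    have h1 : (∑ n ∈ Finset.range N, a n * ((jacobiSym (n : ℤ) p : ℤ) : ℝ)) ^ 2 * p =
        ‖(∑ n ∈ Finset.range N, (a n : ℂ) * χ (n : ZMod p)) * g‖ ^ 2 := by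
      rw [norm_mul, mul_pow, hg, ← hT, Complex.norm_real, Real.norm_eq_abs, sq_abs]
    rw [h1, hS]
    have h2 : ‖∑ b ∈ Finset.univ.erase (0 : ZMod p),
        χ b * ∑ n ∈ Finset.range N, (a n : ℂ) * ZMod.stdAddChar (b * (n : ZMod p))‖ ≤
        ∑ b ∈ Finset.univ.erase (0 : ZMod p),
          ‖∑ n ∈ Finset.range N, (a n : ℂ) * ZMod.stdAddChar (b * (n : ZMod p))‖ := by
      refine (norm_sum_le _ _).trans (Finset.sum_le_sum fun b _ => ?_)
      rw [norm_mul]
      exact mul_le_of_le_one_left (norm_nonneg _) (hle b)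
    refine (pow_le_pow_left₀ (norm_nonneg _) h2 2).trans ?_
    refine (sq_sum_le_card_mul_sum_sq).trans ?_
    apply mul_le_mul_of_nonneg_right _ (Finset.sum_nonneg fun b _ => by positivity)
    have h3 : (Finset.univ.erase (0 : ZMod p)).card ≤ p := by
      refine (Finset.card_le_univ _).trans ?_
      rw [ZMod.card]
    exact_mod_cast h3
  have hfin : ∑ b ∈ Finset.univ.erase (0 : ZMod p),
        ‖∑ n ∈ Finset.range N, (a n : ℂ) * ZMod.stdAddChar (b * (n : ZMod p))‖ ^ 2 =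
      ∑ b ∈ Finset.Icc 1 (p - 1),
        ‖∑ n ∈ Finset.range N, (a n : ℂ) * e (n * ((b : ℝ) / p))‖ ^ 2 := by
    refine Finset.sum_nbij' (i := fun b : ZMod p => b.val) (j := fun b : ℕ => (b : ZMod p))
      ?_ ?_ ?_ ?_ ?_
    · intro b hb
      rw [Finset.mem_erase] at hb
      rw [Finset.mem_Icc]
      have h1 := ZMod.val_lt b
      have h2 : b.val ≠ 0 := fun h => hb.1 ((ZMod.val_eq_zero b).1 h)
      omega
    · intro b hb
      rw [Finset.mem_Icc] at hb
      rw [Finset.mem_erase]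
      refine ⟨?_, Finset.mem_univ _⟩
      intro h
      rw [ZMod.natCast_eq_zero_iff] at h
      have := Nat.le_of_dvd (by omega) h
      have := hp.pos
      omega
    · intro b _
      exact ZMod.natCast_zmod_val b
    · intro b hb
      rw [Finset.mem_Icc] at hb
      have := hp.pos
      exact ZMod.val_natCast_of_lt (by omega)
    · intro b _
      congr 2
      refine Finset.sum_congr rfl fun n _ => ?_
      congr 1
      have h1 : b * (n : ZMod p) = (((b.val * n : ℕ) : ℤ) : ZMod p) := by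
        push_cast
        rw [ZMod.natCast_zmod_val]
      rw [h1, ZMod.stdAddChar_coe]
      unfold e
      congr 1
      push_cast
      ring
  rw [← hfin]
  nlinarith [hnorm]

end Pool.Agent.MP_ffd2b5_nt
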