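import Mathlib
import Pool.Agent.MP_ffd2b5_nt.Defs
import Pool.Agent.MP_ffd2b5_nt.LS2
import Pool.Agent.MP_ffd2b5_nt.LS3

set_option autoImplicit false

namespace Pool.Agent.MP_ffd2b5_nt

/-!
[TPE-LS4] the large sieve for `p ↦ (p/n)`.
PROOF. Quadratic reciprocity for odd `n` and an odd prime `p` (`jacobiSym.quadratic_reciprocity_one_mod_four` etc.):
if `p % 4 = 1` then `J(p|n) = J(n|p)`; if `p % 4 = 3` then `J(p|n) = J(n|p)` for `n % 4 = 1` and `= - J(n|p)` for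
`n % 4 = 3`. So the inner sum is `∑ a' n J(n|p)` with `a' = a` or `a' n = ε n a n`, `ε n = 1, -1` for `n % 4 = 1, 3`
(`a n = 0` for even `n`). In both cases `char_le` applies; the sum over all `p` of the bound for `a` plus the bound for
`ε a` is at most `2 * 32 (N + x²) ∑ a²` by `farey_sieve`.
-/
private noncomputable def ls4_F (N : ℕ) (a : ℕ → ℝ) (p : ℕ) : ℝ :=
  ∑ b ∈ Finset.Icc 1 (p - 1), ‖∑ n ∈ Finset.range N, (a n : ℂ) * e (n * ((b : ℝ) / p))‖ ^ 2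

private def ls4_tw (a : ℕ → ℝ) (n : ℕ) : ℝ := if n % 4 = 3 then - a n else a n

private theorem ls4_F_nonneg (N : ℕ) (a : ℕ → ℝ) (p : ℕ) : 0 ≤ ls4_F N a p :=
  Finset.sum_nonneg fun _ _ => sq_nonneg _

private theorem ls4_sum (x N : ℕ) (hx : 1 ≤ x) (a : ℕ → ℝ) :
    ∑ p ∈ Nat.primesLE x, ls4_F N a p ≤
      32 * (N + (x : ℝ) ^ 2) * ∑ n ∈ Finset.range N, a n ^ 2 := by
  have h := farey_sieve x N hx fun n => (a n : ℂ)
  have h1 : ∑ n ∈ Finset.range N, ‖(a n : ℂ)‖ ^ 2 = ∑ n ∈ Finset.range N, a n ^ 2 := by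
    refine Finset.sum_congr rfl fun n _ => ?_
    rw [Complex.norm_real, Real.norm_eq_abs, sq_abs]
  rw [h1] at h
  exact h

private theorem ls4_one (p : ℕ) (hp : p.Prime) (hp2 : p ≠ 2) (N : ℕ) (a : ℕ → ℝ)
    (ha : ∀ n, ¬ Odd n → a n = 0) :
    (∑ n ∈ Finset.range N, a n * ((jacobiSym (p : ℤ) n : ℤ) : ℝ)) ^ 2 ≤
      ls4_F N a p + ls4_F N (ls4_tw a) p := by
  have hodd : Odd p := hp.odd_of_ne_two hp2
  rcases Nat.odd_mod_four_iff.mp (Nat.odd_iff.mp hodd) with h1 | h3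
  · have h : ∑ n ∈ Finset.range N, a n * ((jacobiSym (p : ℤ) n : ℤ) : ℝ) =
        ∑ n ∈ Finset.range N, a n * ((jacobiSym (n : ℤ) p : ℤ) : ℝ) := by
      refine Finset.sum_congr rfl fun n _ => ?_
      by_cases hn : Odd n
      · rw [jacobiSym.quadratic_reciprocity_one_mod_four h1 hn]
      · rw [ha n hn, zero_mul, zero_mul]
    rw [h]
    have := char_le p hp hp2 N a
    have h0 := ls4_F_nonneg N (ls4_tw a) p
    unfold ls4_F at h0 ⊢
    linarith
  · have h : ∑ n ∈ Finset.range N, a n * ((jacobiSym (p : ℤ) n : ℤ) : ℝ) =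
        ∑ n ∈ Finset.range N, ls4_tw a n * ((jacobiSym (n : ℤ) p : ℤ) : ℝ) := by
      refine Finset.sum_congr rfl fun n _ => ?_
      unfold ls4_tw
      by_cases hn : Odd n
      · rcases Nat.odd_mod_four_iff.mp (Nat.odd_iff.mp hn) with hn1 | hn3
        · rw [if_neg (by omega), jacobiSym.quadratic_reciprocity_one_mod_four' hodd hn1]
        · rw [if_pos hn3, jacobiSym.quadratic_reciprocity_three_mod_four h3 hn3]
          push_cast
          ring
      · rw [ha n hn, neg_zero, ite_self, zero_mul, zero_mul]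
    rw [h]
    have := char_le p hp hp2 N (ls4_tw a)
    have h0 := ls4_F_nonneg N a p
    unfold ls4_F at h0 ⊢
    linarith

theorem char_sieve (x N : ℕ) (hx : 1 ≤ x) (a : ℕ → ℝ) (ha : ∀ n, ¬ Odd n → a n = 0) :
    ∑ p ∈ (Nat.primesLE x).erase 2,
      (∑ n ∈ Finset.range N, a n * ((jacobiSym (p : ℤ) n : ℤ) : ℝ)) ^ 2 ≤
      64 * (N + (x : ℝ) ^ 2) * ∑ n ∈ Finset.range N, a n ^ 2 := by
  have h1 : ∑ p ∈ (Nat.primesLE x).erase 2,
      (∑ n ∈ Finset.range N, a n * ((jacobiSym (p : ℤ) n : ℤ) : ℝ)) ^ 2 ≤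
      ∑ p ∈ (Nat.primesLE x).erase 2, (ls4_F N a p + ls4_F N (ls4_tw a) p) := by
    refine Finset.sum_le_sum fun p hp => ?_
    rw [Finset.mem_erase] at hp
    exact ls4_one p (Nat.prime_of_mem_primesLE hp.2) hp.1 N a ha
  have h2 : ∑ p ∈ (Nat.primesLE x).erase 2, (ls4_F N a p + ls4_F N (ls4_tw a) p) ≤
      ∑ p ∈ Nat.primesLE x, (ls4_F N a p + ls4_F N (ls4_tw a) p) :=
    Finset.sum_le_sum_of_subset_of_nonneg (Finset.erase_subset _ _) fun p _ _ =>
      add_nonneg (ls4_F_nonneg N a p) (ls4_F_nonneg N _ p)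
  have h3 := ls4_sum x N hx a
  have h4 := ls4_sum x N hx (ls4_tw a)
  have h5 : ∑ n ∈ Finset.range N, ls4_tw a n ^ 2 = ∑ n ∈ Finset.range N, a n ^ 2 := by
    refine Finset.sum_congr rfl fun n _ => ?_
    unfold ls4_tw
    split_ifs <;> ring
  rw [h5] at h4
  have h6 := h1.trans h2
  rw [Finset.sum_add_distrib] at h6
  linarith

end Pool.Agent.MP_ffd2b5_nt
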