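import Mathlib
import Pool.Agent.MP_ffd2b5_nt.Defs

set_option autoImplicit false

namespace Pool.Agent.MP_ffd2b5_nt

/-!
[TPE-MO1] the coefficients of a power of a prime sum.
PROOF. `X = Fintype.piFinset (fun _ : Fin k => A)`, `a n = ∑_{f ∈ X, ∏ f = n} ∏_i 1 / f i`.
The expansion of the `k`-th power is `Finset.sum_pow_eq_sum_piFinset`-type (`Finset.prod_univ_sum`,
`Finset.sum_pow'`), `jacobiSym p` is multiplicative in the lower argument (`jacobiSym.mul_right`, `jacobiSym.list_prod_right`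
or induction), `∏ f ≤ M ^ k`, so grouping by the value `n` of the product is `Finset.sum_fiberwise_of_maps_to`.
The product of odd primes is odd, so `a n = 0` for even `n`.
`∑_n a n ^ 2 = ∑_{f, g ∈ X, ∏ f = ∏ g} ∏ 1/f i ∏ 1/g i`; if `∏ f = ∏ g` then `f` and `g` have the same multiset of values
(unique factorisation: `Nat.primeFactorsList` / `UniqueFactorizationMonoid`), so `g = f ∘ σ` for a permutation `σ`
(`Multiset.map_univ_eq_iff` if present, or `List`-perm), and then `∏ 1/g i = ∏ 1/f i`. For every `f` there are at most `k!`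
such `g`: total `≤ k! ∑_f ∏ 1/(f i)^2 = k! (∑_{q ∈ A} 1/q^2)^k`.
-/
theorem mo1_pos {k : ℕ} {A : Finset ℕ} (hA : ∀ q ∈ A, q.Prime ∧ q ≠ 2) {f : Fin k → ℕ}
    (hf : f ∈ Fintype.piFinset (fun _ : Fin k => A)) (i : Fin k) : f i ≠ 0 := by
  rw [Fintype.mem_piFinset] at hf
  exact (hA _ (hf i)).1.ne_zero

theorem mo1_jac (p : ℕ) {k : ℕ} (f : Fin k → ℕ) (hf : ∀ i, f i ≠ 0) (s : Finset (Fin k)) :
    jacobiSym (p : ℤ) (∏ i ∈ s, f i) = ∏ i ∈ s, jacobiSym (p : ℤ) (f i) := by
  classical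
  induction s using Finset.induction_on with
  | empty => simp
  | insert a s ha ih =>
    rw [Finset.prod_insert ha, Finset.prod_insert ha,
      jacobiSym.mul_right' _ (hf a) (Finset.prod_ne_zero_iff.mpr fun i _ => hf i), ih]

theorem mo1_card {k : ℕ} {A : Finset ℕ} (hA : ∀ q ∈ A, q.Prime ∧ q ≠ 2) (n : ℕ) :
    ((Fintype.piFinset (fun _ : Fin k => A)).filter (fun f => ∏ i, f i = n)).card ≤
      k.factorial := by
  classical
  rcases Finset.eq_empty_or_nonempty
    ((Fintype.piFinset (fun _ : Fin k => A)).filter (fun f => ∏ i, f i = n)) with h | ⟨f, hf⟩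
  · rw [h]; simp
  · have h1 : ∀ g ∈ (Fintype.piFinset (fun _ : Fin k => A)).filter (fun f => ∏ i, f i = n),
        (List.ofFn g).Perm n.primeFactorsList := by
      intro g hg
      rw [Finset.mem_filter, Fintype.mem_piFinset] at hg
      refine Nat.primeFactorsList_unique ?_ ?_
      · rw [List.prod_ofFn]; exact hg.2
      · intro q hq
        rw [List.mem_ofFn] at hq
        obtain ⟨i, rfl⟩ := hq
        exact (hA _ (hg.1 i)).1
    have h2 : ((Fintype.piFinset (fun _ : Fin k => A)).filter (fun f => ∏ i, f i = n)).card ≤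
        ((List.ofFn f).permutations.toFinset).card := by
      refine Finset.card_le_card_of_injOn List.ofFn ?_ ?_
      · intro g hg
        rw [Finset.mem_coe] at hg
        rw [Finset.mem_coe, List.mem_toFinset, List.mem_permutations]
        exact (h1 g hg).trans (h1 f hf).symm
      · intro g _ g' _ hgg
        exact List.ofFn_injective hgg
    refine h2.trans ((List.toFinset_card_le _).trans ?_)
    rw [List.length_permutations, List.length_ofFn]

theorem moment_coeffs (A : Finset ℕ) (hA : ∀ q ∈ A, q.Prime ∧ q ≠ 2) (M : ℕ)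
    (hM : ∀ q ∈ A, q ≤ M) (k : ℕ) : ∃ a : ℕ → ℝ, (∀ n, ¬ Odd n → a n = 0) ∧
      ∑ n ∈ Finset.range (M ^ k + 1), a n ^ 2 ≤
        (k.factorial : ℝ) * (∑ q ∈ A, 1 / (q : ℝ) ^ 2) ^ k ∧
      ∀ p : ℕ, (∑ q ∈ A, ((jacobiSym (p : ℤ) q : ℤ) : ℝ) / q) ^ k =
        ∑ n ∈ Finset.range (M ^ k + 1), a n * ((jacobiSym (p : ℤ) n : ℤ) : ℝ) := by
  classical
  set X := Fintype.piFinset (fun _ : Fin k => A) with hX
  have hmem : ∀ f ∈ X, ∀ i, f i ∈ A := fun f hf => Fintype.mem_piFinset.mp hf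
  have hmaps : ∀ f ∈ X, ∏ i, f i ∈ Finset.range (M ^ k + 1) := by
    intro f hf
    rw [Finset.mem_range, Nat.lt_succ_iff]
    calc ∏ i, f i ≤ ∏ _i : Fin k, M := Finset.prod_le_prod' fun i _ => hM _ (hmem f hf i)
      _ = M ^ k := by simp
  refine ⟨fun n => ∑ f ∈ X with ∏ i, f i = n, ∏ i, 1 / (f i : ℝ), ?_, ?_, ?_⟩
  · intro n hn
    refine Finset.sum_eq_zero fun f hf => ?_
    rw [Finset.mem_filter] at hf
    exfalso
    apply hn
    rw [← hf.2]
    refine Finset.prod_induction (fun i => f i) (fun m => Odd m) (fun a b => Odd.mul) odd_one ?_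
    intro i _
    obtain ⟨h1, h2⟩ := hA _ (hmem f hf.1 i)
    exact h1.odd_of_ne_two h2
  · calc ∑ n ∈ Finset.range (M ^ k + 1), (∑ f ∈ X with ∏ i, f i = n, ∏ i, 1 / (f i : ℝ)) ^ 2
        ≤ ∑ n ∈ Finset.range (M ^ k + 1), (k.factorial : ℝ) *
          ∑ f ∈ X with ∏ i, f i = n, (∏ i, 1 / (f i : ℝ)) ^ 2 := by
          refine Finset.sum_le_sum fun n _ => ?_
          refine sq_sum_le_card_mul_sum_sq.trans ?_
          refine mul_le_mul_of_nonneg_right ?_ (Finset.sum_nonneg fun f _ => sq_nonneg _)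
          exact_mod_cast mo1_card hA n
      _ = (k.factorial : ℝ) * ∑ f ∈ X, (∏ i, 1 / (f i : ℝ)) ^ 2 := by
          rw [← Finset.mul_sum, Finset.sum_fiberwise_of_maps_to hmaps]
      _ = (k.factorial : ℝ) * (∑ q ∈ A, 1 / (q : ℝ) ^ 2) ^ k := by
          rw [Finset.sum_pow']
          congr 1
          refine Finset.sum_congr rfl fun f _ => ?_
          rw [← Finset.prod_pow]
          refine Finset.prod_congr rfl fun i _ => ?_
          rw [one_div, one_div, inv_pow]
  · intro p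
    rw [Finset.sum_pow']
    have h1 : ∀ f ∈ X, ∏ i, ((jacobiSym (p : ℤ) (f i) : ℤ) : ℝ) / (f i : ℝ) =
        (∏ i, 1 / (f i : ℝ)) * ((jacobiSym (p : ℤ) (∏ i, f i) : ℤ) : ℝ) := by
      intro f hf
      rw [mo1_jac p f (mo1_pos hA hf), Int.cast_prod, ← Finset.prod_mul_distrib]
      refine Finset.prod_congr rfl fun i _ => ?_
      ring
    rw [Finset.sum_congr rfl h1, ← Finset.sum_fiberwise_of_maps_to hmaps]
    refine Finset.sum_congr rfl fun n _ => ?_
    rw [Finset.sum_mul]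
    refine Finset.sum_congr rfl fun f hf => ?_
    rw [(Finset.mem_filter.mp hf).2]

end Pool.Agent.MP_ffd2b5_nt
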