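import Mathlib
import Pool.Agent.MP_ffd2b5_nt.Defs
import Pool.Agent.MP_ffd2b5_nt.LS4
import Pool.Agent.MP_ffd2b5_nt.MO1

set_option autoImplicit false

namespace Pool.Agent.MP_ffd2b5_nt

/-- the sum of the reciprocals of the squares in a block -/
theorem mo2_blk (j : ℕ) : ∑ q ∈ blk j, 1 / (q : ℝ) ^ 2 ≤ (1 / 2 : ℝ) ^ j := by
  have h1 : ∀ q ∈ blk j, 1 / (q : ℝ) ^ 2 ≤ (1 / 4 : ℝ) ^ j := by
    intro q hq
    unfold blk at hq
    rw [Finset.mem_filter, Finset.mem_Ioc] at hq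
    have h2 : (2 : ℝ) ^ j ≤ q := by exact_mod_cast hq.1.1.le
    have h4 : (4 : ℝ) ^ j = (2 ^ j) ^ 2 := by
      rw [← pow_mul, mul_comm, pow_mul]; norm_num
    rw [one_div_pow, h4]
    exact one_div_le_one_div_of_le (by positivity) (pow_le_pow_left₀ (by positivity) h2 2)
  have h2 : (blk j).card ≤ 2 ^ j := by
    unfold blk
    refine (Finset.card_filter_le _ _).trans ?_
    rw [Nat.card_Ioc, pow_succ]
    omega
  have h3 : ((blk j).card : ℝ) ≤ 2 ^ j := by exact_mod_cast h2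
  calc ∑ q ∈ blk j, 1 / (q : ℝ) ^ 2 ≤ (blk j).card • (1 / 4 : ℝ) ^ j :=
        Finset.sum_le_card_nsmul _ _ _ h1
    _ = (blk j).card * (1 / 4 : ℝ) ^ j := nsmul_eq_mul _ _
    _ ≤ 2 ^ j * (1 / 4 : ℝ) ^ j := mul_le_mul_of_nonneg_right h3 (by positivity)
    _ = (1 / 2 : ℝ) ^ j := by rw [← mul_pow]; norm_num

/-- the count by the moment of order `2 k` -/
theorem mo2_card (L j k : ℕ) (hj : 1 ≤ j) (hk : 2 * L ≤ (j + 1) * k) (lam : ℝ)
    (hlam : 0 < lam) :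
    (((((Nat.primesLE (2 ^ L)).erase 2).filter (fun p : ℕ => lam ≤ b p j)).card : ℕ) : ℝ) *
      lam ^ (2 * k) ≤ 192 * (2 * (k : ℝ)) ^ k := by
  have hA : ∀ q ∈ blk j, q.Prime ∧ q ≠ 2 := by
    intro q hq
    unfold blk at hq
    rw [Finset.mem_filter, Finset.mem_Ioc] at hq
    have h2 : 2 ^ 1 ≤ 2 ^ j := Nat.pow_le_pow_right (by norm_num) hj
    exact ⟨hq.2, by omega⟩
  have hM : ∀ q ∈ blk j, q ≤ 2 ^ (j + 1) := by
    intro q hq
    unfold blk at hq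
    rw [Finset.mem_filter, Finset.mem_Ioc] at hq
    exact hq.1.2
  obtain ⟨a, ha, hsum, hpow⟩ := moment_coeffs (blk j) hA (2 ^ (j + 1)) hM k
  have hs := char_sieve (2 ^ L) ((2 ^ (j + 1)) ^ k + 1) Nat.one_le_two_pow a ha
  have h1 : (((((Nat.primesLE (2 ^ L)).erase 2).filter
      (fun p : ℕ => lam ≤ b p j)).card : ℕ) : ℝ) * lam ^ (2 * k) ≤
      ∑ p ∈ (Nat.primesLE (2 ^ L)).erase 2,
        (∑ n ∈ Finset.range ((2 ^ (j + 1)) ^ k + 1), a n * ((jacobiSym (p : ℤ) n : ℤ) : ℝ)) ^ 2 := by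
    rw [← nsmul_eq_mul, ← Finset.sum_const]
    refine (Finset.sum_le_sum fun p hp => ?_).trans
      (Finset.sum_le_sum_of_subset_of_nonneg (Finset.filter_subset _ _) fun p _ _ => sq_nonneg _)
    rw [Finset.mem_filter] at hp
    rw [← hpow p, ← pow_mul, mul_comm k 2]
    exact pow_le_pow_left₀ hlam.le hp.2 _
  refine h1.trans (hs.trans ?_)
  have hN : ((((2 ^ (j + 1)) ^ k + 1 : ℕ) : ℝ) + ((2 ^ L : ℕ) : ℝ) ^ 2) ≤
      3 * (2 ^ (j + 1)) ^ k := by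
    push_cast
    have e1 : ((2 : ℝ) ^ L) ^ 2 ≤ (2 ^ (j + 1)) ^ k := by
      rw [← pow_mul, ← pow_mul]
      exact pow_le_pow_right₀ (by norm_num) (by linarith)
    have e2 : (1 : ℝ) ≤ (2 ^ (j + 1)) ^ k := by
      rw [← pow_mul]
      exact one_le_pow₀ (by norm_num)
    linarith
  have hS : ∑ n ∈ Finset.range ((2 ^ (j + 1)) ^ k + 1), a n ^ 2 ≤
      (k : ℝ) ^ k * ((1 / 2 : ℝ) ^ j) ^ k := by
    refine hsum.trans ?_
    have e1 : (k.factorial : ℝ) ≤ (k : ℝ) ^ k := by exact_mod_cast Nat.factorial_le_pow k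
    exact mul_le_mul e1 (pow_le_pow_left₀ (Finset.sum_nonneg fun q _ => by positivity)
      (mo2_blk j) k) (pow_nonneg (Finset.sum_nonneg fun q _ => by positivity) k) (by positivity)
  have hS0 : 0 ≤ ∑ n ∈ Finset.range ((2 ^ (j + 1)) ^ k + 1), a n ^ 2 :=
    Finset.sum_nonneg fun n _ => sq_nonneg _
  calc 64 * ((((2 ^ (j + 1)) ^ k + 1 : ℕ) : ℝ) + ((2 ^ L : ℕ) : ℝ) ^ 2) *
        ∑ n ∈ Finset.range ((2 ^ (j + 1)) ^ k + 1), a n ^ 2
      ≤ 64 * (3 * (2 ^ (j + 1)) ^ k) * ((k : ℝ) ^ k * ((1 / 2 : ℝ) ^ j) ^ k) :=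
        mul_le_mul (mul_le_mul_of_nonneg_left hN (by norm_num)) hS hS0 (by positivity)
    _ = 192 * ((k : ℝ) ^ k * (((2 : ℝ) ^ (j + 1)) * (1 / 2 : ℝ) ^ j) ^ k) := by
        rw [mul_pow]; ring
    _ = 192 * (2 * (k : ℝ)) ^ k := by
        have e1 : ((2 : ℝ) ^ (j + 1)) * (1 / 2 : ℝ) ^ j = 2 := by
          rw [pow_succ, mul_right_comm, ← mul_pow]
          norm_num
        rw [e1, mul_pow]; ring

/-!
[TPE-MO2] few primes with a large block sum.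
PROOF. `A = blk j` (odd primes as `j ≥ 1`), `M = 2 ^ (j+1)`, `k = (2 L + j) / (j + 1)` (natural division), so
`2 L ≤ (j+1) k ≤ 2 L + j`. `moment_coeffs` and `char_sieve` with `x = 2 ^ L`, `N = M ^ k + 1`:
`∑_p (b p j)^(2k) ≤ 64 (2^((j+1)k) + 1 + 4^L) k! (∑_{q ∈ blk j} 1/q^2)^k ≤ 192 * 2^((j+1)k) k! 2^(-jk) = 192 * 2^k k!`
(`|blk j| ≤ 2^j`, `1/q² ≤ 4^(-j)`). With `λ = 1/((j+1)(1 + log(L+1)))`, every counted `p` contributes at least `λ^(2k)`: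
`card ≤ 192 (2 k λ^(-2))^k` (`k! ≤ k^k`). Here `λ^(-1) ≤ L (L+1)`, `2 k ≤ 2 (2L + j)/(j+1) ≤ 3 L ≤ (L+2)^2`, so
`2 k λ^(-2) ≤ (L+2)^6` and `k ≤ 3 L/(j+1)`: `card ≤ 192 exp (18 (L/(j+1)) log (L+2)) ≤ exp (24 (L/(j+1)) log (L+2))`, because
`L/(j+1) ≥ 1`, `log (L+2) ≥ 1` and `192 ≤ exp 6`.
-/
theorem block_count : ∃ C : ℝ, 0 < C ∧ ∀ L j : ℕ, 1 ≤ j → j < L →
    (((((Nat.primesLE (2 ^ L)).erase 2).filter
      (fun p : ℕ => 1 / ((j + 1 : ℝ) * (1 + Real.log (L + 1))) ≤ b p j)).card : ℕ) : ℝ) ≤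
      Real.exp (C * (L / (j + 1)) * Real.log (L + 2)) := by
  refine ⟨24, by norm_num, fun L j hj hjL => ?_⟩
  have hdm := Nat.div_add_mod (2 * L + j) (j + 1)
  have hml : (2 * L + j) % (j + 1) < j + 1 := Nat.mod_lt (2 * L + j) (by omega)
  set k := (2 * L + j) / (j + 1) with hkdef
  have hk1 : 2 * L ≤ (j + 1) * k := by omega
  have hk2 : (j + 1) * k ≤ 2 * L + j := by omega
  have hL2 : (2 : ℝ) ≤ L := by exact_mod_cast (by omega : 2 ≤ L)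
  have hj1 : (1 : ℝ) ≤ j := by exact_mod_cast hj
  have hjL1 : (j : ℝ) + 1 ≤ L := by exact_mod_cast hjL
  have hk2' : ((j : ℝ) + 1) * k ≤ 2 * L + j := by exact_mod_cast hk2
  have hk0 : (0 : ℝ) ≤ k := Nat.cast_nonneg k
  have hlog0 : 0 ≤ Real.log ((L : ℝ) + 1) := Real.log_nonneg (by linarith)
  have hlog1 : Real.log ((L : ℝ) + 1) ≤ L := by
    have := Real.log_le_sub_one_of_pos (show (0 : ℝ) < (L : ℝ) + 1 by linarith)
    linarith
  have hden : 0 < ((j : ℝ) + 1) * (1 + Real.log ((L : ℝ) + 1)) := by positivity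
  set lam : ℝ := 1 / (((j : ℝ) + 1) * (1 + Real.log ((L : ℝ) + 1))) with hlamdef
  have hlam : 0 < lam := by positivity
  have hcard := mo2_card L j k hj hk1 lam hlam
  -- `2 k lam ^ (-2) ≤ (L + 2) ^ 6`
  have hD : ((j : ℝ) + 1) * (1 + Real.log ((L : ℝ) + 1)) ≤ ((L : ℝ) + 2) ^ 2 := by
    calc ((j : ℝ) + 1) * (1 + Real.log ((L : ℝ) + 1)) ≤ L * (1 + L) :=
          mul_le_mul hjL1 (by linarith) (by linarith) (by linarith)
      _ ≤ ((L : ℝ) + 2) ^ 2 := by nlinarith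
  have h2k : 2 * (k : ℝ) ≤ ((L : ℝ) + 2) ^ 2 := by
    have h3 : 2 * (k : ℝ) ≤ 3 * L := by nlinarith
    nlinarith
  have hlamD : lam * (((L : ℝ) + 2) ^ 2) ≥ 1 := by
    rw [hlamdef, one_div, ge_iff_le, ← div_eq_inv_mul, one_le_div hden]
    exact hD
  have hX : 2 * (k : ℝ) ≤ ((L : ℝ) + 2) ^ 6 * lam ^ 2 := by
    calc 2 * (k : ℝ) ≤ ((L : ℝ) + 2) ^ 2 * 1 := by rw [mul_one]; exact h2k
      _ ≤ ((L : ℝ) + 2) ^ 2 * (lam * (((L : ℝ) + 2) ^ 2)) ^ 2 := by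
          apply mul_le_mul_of_nonneg_left _ (by positivity)
          exact one_le_pow₀ hlamD
      _ = ((L : ℝ) + 2) ^ 6 * lam ^ 2 := by ring
  have hY : (2 * (k : ℝ)) ^ k ≤ (((L : ℝ) + 2) ^ 6) ^ k * lam ^ (2 * k) := by
    rw [pow_mul lam 2 k, ← mul_pow]
    exact pow_le_pow_left₀ (by positivity) hX k
  have hfin1 : (((((Nat.primesLE (2 ^ L)).erase 2).filter
      (fun p : ℕ => lam ≤ b p j)).card : ℕ) : ℝ) ≤ 192 * (((L : ℝ) + 2) ^ 6) ^ k := by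
    have hlk : 0 < lam ^ (2 * k) := by positivity
    refine le_of_mul_le_mul_right ?_ hlk
    refine hcard.trans ?_
    rw [mul_assoc]
    exact mul_le_mul_of_nonneg_left hY (by norm_num)
  refine hfin1.trans ?_
  have hlogL : 1 ≤ Real.log ((L : ℝ) + 2) := by
    rw [Real.le_log_iff_exp_le (by linarith)]
    have := Real.exp_one_lt_d9
    linarith
  have hq : 1 ≤ (L : ℝ) / ((j : ℝ) + 1) := by
    rw [one_le_div (by linarith)]
    exact hjL1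
  have hkq : (k : ℝ) ≤ 3 * ((L : ℝ) / ((j : ℝ) + 1)) := by
    rw [← mul_div_assoc, le_div_iff₀ (by linarith)]
    nlinarith
  have h192 : (192 : ℝ) ≤ Real.exp (6 * ((L : ℝ) / ((j : ℝ) + 1)) * Real.log ((L : ℝ) + 2)) := by
    have h6 : (192 : ℝ) ≤ Real.exp 6 := by
      have h1 := Real.exp_one_gt_d9
      have h2 : Real.exp 6 = Real.exp 1 ^ 6 := by
        rw [← Real.exp_nat_mul]; norm_num
      rw [h2]
      calc (192 : ℝ) ≤ 2.7 ^ 6 := by norm_num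
        _ ≤ _ := pow_le_pow_left₀ (by norm_num) (by linarith) 6
    refine h6.trans (Real.exp_le_exp.2 ?_)
    have := mul_le_mul hq hlogL (by norm_num) (by linarith)
    linarith
  have hpw : (((L : ℝ) + 2) ^ 6) ^ k ≤
      Real.exp (18 * ((L : ℝ) / ((j : ℝ) + 1)) * Real.log ((L : ℝ) + 2)) := by
    have e1 : (((L : ℝ) + 2) ^ 6) ^ k = Real.exp (6 * k * Real.log ((L : ℝ) + 2)) := by
      rw [← pow_mul, ← Real.exp_log (show (0 : ℝ) < (L : ℝ) + 2 by linarith), ← Real.exp_nat_mul,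
        Real.log_exp]
      congr 1
      push_cast
      ring
    rw [e1]
    apply Real.exp_le_exp.2
    have := mul_le_mul_of_nonneg_right hkq (by linarith : 0 ≤ Real.log ((L : ℝ) + 2))
    linarith
  calc 192 * (((L : ℝ) + 2) ^ 6) ^ k ≤
        Real.exp (6 * ((L : ℝ) / ((j : ℝ) + 1)) * Real.log ((L : ℝ) + 2)) *
          Real.exp (18 * ((L : ℝ) / ((j : ℝ) + 1)) * Real.log ((L : ℝ) + 2)) :=
        mul_le_mul h192 hpw (by positivity) (Real.exp_pos _).le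
    _ = Real.exp (24 * ((L : ℝ) / ((j : ℝ) + 1)) * Real.log ((L : ℝ) + 2)) := by
        rw [← Real.exp_add]
        congr 1
        ring

end Pool.Agent.MP_ffd2b5_nt
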