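import Mathlib
import Pool.Agent.MP_ffd2b5_nt.Defs
import Pool.Agent.MP_ffd2b5_nt.B1
import Pool.Agent.MP_ffd2b5_nt.MO2

set_option autoImplicit false

namespace Pool.Agent.MP_ffd2b5_nt

theorem f1_log (x : ℝ) (hx : 1 ≤ x) : (1 : ℝ) ≤ Real.log (x + 2) := by
  rw [Real.le_log_iff_exp_le (by linarith)]
  have := Real.exp_one_lt_d9
  linarith

/-!
[TPE-F1] few primes `p ≤ 2^L` with `S p √p ≥ a log L - C2`.
PROOF. `C1` from `exists_block`, `κ = exp (-(C1 + C2))`, `J = ⌊κ L^a⌋₊`.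
If `κ L^a < 1` then `L ≤ κ^(-1/a)`, the count is at most `2^L ≤ exp L ≤ exp (κ^(-1/a))`, fine for `C ≥ κ^(-1/a)`
(`L^(1-a) ≥ 1`, `log (L+2) ≥ 1`).
Otherwise `J ≥ 1`, `log J ≤ a log L - C1 - C2`, so `log J + C1 ≤ S p √p` for the counted `p`, and `exists_block` gives
`j ∈ [J, L)` with a large block: by `block_count` the count is at most
`∑_{J ≤ j < L} exp (C' (L/(j+1)) log (L+2)) ≤ L exp (C' (L/(J+1)) log (L+2))`, `J + 1 ≥ κ L^a`, so
`L/(J+1) ≤ L^(1-a)/κ`, and `L ≤ exp (log (L+2)) ≤ exp (L^(1-a) log (L+2))`.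
-/
theorem dyadic_count (a C2 : ℝ) (ha : 0 < a) (ha1 : a < 1) : ∃ C : ℝ, 0 < C ∧
    ∀ L : ℕ, 1 ≤ L →
    (((((Nat.primesLE (2 ^ L)).erase 2).filter
      (fun p : ℕ => a * Real.log L - C2 ≤ S p (Nat.sqrt p))).card : ℕ) : ℝ) ≤
      Real.exp (C * (L : ℝ) ^ (1 - a) * Real.log (L + 2)) := by
  obtain ⟨C1, hC1⟩ := exists_block
  obtain ⟨C', hC'pos, hC'⟩ := block_count
  set κ : ℝ := Real.exp (-(C1 + C2)) with hκ
  have hκpos : 0 < κ := Real.exp_pos _
  have hlogκ : Real.log κ = -(C1 + C2) := Real.log_exp _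
  refine ⟨1 + C' / κ + (1 / κ) ^ (1 / a), by positivity, ?_⟩
  intro L hL
  have hLr : (1 : ℝ) ≤ (L : ℝ) := by exact_mod_cast hL
  have hLpos : (0 : ℝ) < (L : ℝ) := by linarith
  have hpow1 : (1 : ℝ) ≤ (L : ℝ) ^ (1 - a) := Real.one_le_rpow hLr (by linarith)
  have hlog1 : (1 : ℝ) ≤ Real.log (L + 2) := f1_log (L : ℝ) hLr
  have hprod : (1 : ℝ) ≤ (L : ℝ) ^ (1 - a) * Real.log (L + 2) := by nlinarith
  by_cases hc : κ * (L : ℝ) ^ a < 1
  · -- trivial count
    have h1 : (((((Nat.primesLE (2 ^ L)).erase 2).filter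
      (fun p : ℕ => a * Real.log L - C2 ≤ S p (Nat.sqrt p))).card : ℕ) : ℝ) ≤ (2 : ℝ) ^ L := by
      have : (((Nat.primesLE (2 ^ L)).erase 2).filter
        (fun p : ℕ => a * Real.log L - C2 ≤ S p (Nat.sqrt p))).card ≤ 2 ^ L := by
        have hsub : (((Nat.primesLE (2 ^ L)).erase 2).filter
          (fun p : ℕ => a * Real.log L - C2 ≤ S p (Nat.sqrt p))) ⊆ Finset.Icc 1 (2 ^ L) := by
          intro p hp
          rw [Finset.mem_filter, Finset.mem_erase, Nat.mem_primesLE] at hp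
          rw [Finset.mem_Icc]
          exact ⟨hp.1.2.2.one_lt.le, hp.1.2.1⟩
        calc _ ≤ (Finset.Icc 1 (2 ^ L)).card := Finset.card_le_card hsub
          _ = 2 ^ L := by simp
      exact_mod_cast this
    have h2 : (2 : ℝ) ^ L ≤ Real.exp L := by
      have h2e : (2 : ℝ) ≤ Real.exp 1 := by
        have := Real.exp_one_gt_d9
        linarith
      calc (2 : ℝ) ^ L ≤ (Real.exp 1) ^ L := pow_le_pow_left₀ (by norm_num) h2e L
        _ = Real.exp L := by rw [← Real.exp_nat_mul, mul_one]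
    have h3 : (L : ℝ) ≤ (1 / κ) ^ (1 / a) := by
      have h4 : (L : ℝ) ^ a ≤ 1 / κ := by
        rw [le_div_iff₀ hκpos]
        linarith
      calc (L : ℝ) = ((L : ℝ) ^ a) ^ (1 / a) := by
            rw [← Real.rpow_mul hLpos.le, mul_one_div, div_self ha.ne', Real.rpow_one]
        _ ≤ (1 / κ) ^ (1 / a) :=
          Real.rpow_le_rpow (Real.rpow_nonneg hLpos.le _) h4 (by positivity)
    have h5 : (L : ℝ) ≤ (1 + C' / κ + (1 / κ) ^ (1 / a)) * (L : ℝ) ^ (1 - a) * Real.log (L + 2) := by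
      have h6 : 0 < C' / κ := by positivity
      have h7 : (L : ℝ) ≤ 1 + C' / κ + (1 / κ) ^ (1 / a) := by linarith
      have h8 : 0 ≤ 1 + C' / κ + (1 / κ) ^ (1 / a) := by linarith
      calc (L : ℝ) ≤ (1 + C' / κ + (1 / κ) ^ (1 / a)) * 1 := by linarith
        _ ≤ (1 + C' / κ + (1 / κ) ^ (1 / a)) * ((L : ℝ) ^ (1 - a) * Real.log (L + 2)) :=
          mul_le_mul_of_nonneg_left hprod h8
        _ = _ := by ring
    exact h1.trans (h2.trans (Real.exp_le_exp.mpr h5))
  · push Not at hc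
    set J : ℕ := ⌊κ * (L : ℝ) ^ a⌋₊ with hJ
    have hJ1 : 1 ≤ J := (Nat.one_le_floor_iff _).mpr hc
    have hJle : (J : ℝ) ≤ κ * (L : ℝ) ^ a := Nat.floor_le (by positivity)
    have hJlt : κ * (L : ℝ) ^ a < J + 1 := Nat.lt_floor_add_one _
    have hJpos : (0 : ℝ) < J := by exact_mod_cast hJ1
    have hlogJ : Real.log J ≤ a * Real.log L - C1 - C2 := by
      calc Real.log J ≤ Real.log (κ * (L : ℝ) ^ a) := Real.log_le_log hJpos hJle
        _ = Real.log κ + a * Real.log L := by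
          rw [Real.log_mul hκpos.ne' (by positivity), Real.log_rpow hLpos]
        _ = a * Real.log L - C1 - C2 := by rw [hlogκ]; ring
    have hsub : (((Nat.primesLE (2 ^ L)).erase 2).filter
          (fun p : ℕ => a * Real.log L - C2 ≤ S p (Nat.sqrt p))) ⊆
        (Finset.Ico J L).biUnion (fun j => ((Nat.primesLE (2 ^ L)).erase 2).filter
          (fun p : ℕ => 1 / ((j + 1 : ℝ) * (1 + Real.log (L + 1))) ≤ b p j)) := by
      intro p hp
      rw [Finset.mem_filter] at hp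
      have hp1 := hp.1
      rw [Finset.mem_erase, Nat.mem_primesLE] at hp1
      obtain ⟨j, hj1, hj2, hj3⟩ := hC1 L J p hp1.2.2 hp1.2.1 hJ1 (by linarith [hp.2])
      rw [Finset.mem_biUnion]
      exact ⟨j, Finset.mem_Ico.mpr ⟨hj1, hj2⟩, Finset.mem_filter.mpr ⟨hp.1, hj3⟩⟩
    have hcard := (Finset.card_le_card hsub).trans Finset.card_biUnion_le
    have hJp : (0 : ℝ) < (J : ℝ) + 1 := by positivity
    have hlogn : 0 ≤ Real.log ((L : ℝ) + 2) := by linarith
    have hsum : ((∑ j ∈ Finset.Ico J L, (((Nat.primesLE (2 ^ L)).erase 2).filter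
          (fun p : ℕ => 1 / ((j + 1 : ℝ) * (1 + Real.log (L + 1))) ≤ b p j)).card : ℕ) : ℝ) ≤
        L * Real.exp (C' * (L / (J + 1)) * Real.log (L + 2)) := by
      push_cast
      calc _ ≤ ∑ j ∈ Finset.Ico J L, Real.exp (C' * (L / (J + 1)) * Real.log (L + 2)) := by
            refine Finset.sum_le_sum fun j hj => ?_
            rw [Finset.mem_Ico] at hj
            refine (hC' L j (hJ1.trans hj.1) hj.2).trans (Real.exp_le_exp.mpr ?_)
            have hJj : (J : ℝ) ≤ j := by exact_mod_cast hj.1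
            have : (L : ℝ) / (j + 1) ≤ L / (J + 1) :=
              div_le_div_of_nonneg_left hLpos.le hJp (by linarith)
            exact mul_le_mul_of_nonneg_right (mul_le_mul_of_nonneg_left this hC'pos.le) hlogn
        _ = (((Finset.Ico J L).card : ℕ) : ℝ) * Real.exp (C' * (L / (J + 1)) * Real.log (L + 2)) := by
            rw [Finset.sum_const, nsmul_eq_mul]
        _ ≤ L * Real.exp (C' * (L / (J + 1)) * Real.log (L + 2)) := by
            refine mul_le_mul_of_nonneg_right ?_ (Real.exp_pos _).le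
            rw [Nat.card_Ico]
            exact_mod_cast Nat.sub_le L J
    have hdiv : (L : ℝ) / (J + 1) ≤ (L : ℝ) ^ (1 - a) / κ := by
      rw [div_le_div_iff₀ hJp hκpos]
      have h9 : (L : ℝ) = (L : ℝ) ^ (1 - a) * (L : ℝ) ^ a := by
        rw [← Real.rpow_add hLpos, sub_add_cancel, Real.rpow_one]
      calc (L : ℝ) * κ = (L : ℝ) ^ (1 - a) * (κ * (L : ℝ) ^ a) := by
            nth_rewrite 1 [h9]; ring
        _ ≤ (L : ℝ) ^ (1 - a) * (J + 1) :=
          mul_le_mul_of_nonneg_left hJlt.le (by positivity)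
    have hLexp : (L : ℝ) ≤ Real.exp ((L : ℝ) ^ (1 - a) * Real.log (L + 2)) := by
      calc (L : ℝ) ≤ L + 2 := by linarith
        _ = Real.exp (Real.log (L + 2)) := (Real.exp_log (by linarith)).symm
        _ ≤ _ := Real.exp_le_exp.mpr (by nlinarith)
    calc _ ≤ ((∑ j ∈ Finset.Ico J L, (((Nat.primesLE (2 ^ L)).erase 2).filter
          (fun p : ℕ => 1 / ((j + 1 : ℝ) * (1 + Real.log (L + 1))) ≤ b p j)).card : ℕ) : ℝ) := by
            exact_mod_cast hcard
      _ ≤ L * Real.exp (C' * (L / (J + 1)) * Real.log (L + 2)) := hsum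
      _ ≤ Real.exp ((L : ℝ) ^ (1 - a) * Real.log (L + 2)) *
            Real.exp (C' * ((L : ℝ) ^ (1 - a) / κ) * Real.log (L + 2)) := by
            refine mul_le_mul hLexp (Real.exp_le_exp.mpr ?_) (Real.exp_pos _).le (Real.exp_pos _).le
            exact mul_le_mul_of_nonneg_right (mul_le_mul_of_nonneg_left hdiv hC'pos.le) hlogn
      _ = Real.exp ((1 + C' / κ) * ((L : ℝ) ^ (1 - a) * Real.log (L + 2))) := by
            rw [← Real.exp_add]; congr 1; field_simp
      _ ≤ _ := by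
            refine Real.exp_le_exp.mpr ?_
            rw [mul_assoc]
            refine mul_le_mul_of_nonneg_right ?_ (by linarith)
            have : 0 ≤ (1 / κ) ^ (1 / a) := by positivity
            linarith

end Pool.Agent.MP_ffd2b5_nt
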