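import Mathlib
import Pool.Agent.MP_ffd2b5_nt.Defs

set_option autoImplicit false

namespace Pool.Agent.MP_ffd2b5_nt

/-!
[TPE-M1] mean values of non-negative multiplicative functions bounded on prime powers.
PROOF (all sums over `n ∈ Icc 1 y`). `log n = ∑_{q ∣ n} v_q(n) log q` (`Nat.factorization_prod_pow_eq_self`,
`Real.log` of a product), so
`∑ f(n) log n = ∑_n ∑_{q ∣ n} f(q^v) f(n / q^v) v log q`, `v = v_q(n)`; put `m = n / q^v` (prime to `q`), `d = q^v`:
the map `n, q ↦ (m, q^v)` is injective (given `(m, d)` with `m` prime to `d`, `n = m d` and `q = minFac d`), hence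
`∑ f(n) log n ≤ ∑_{m ≤ y} f(m) ∑_{d ≤ y/m, d = q^v prime power} 4 log d`.
`∑_{d ≤ t, d prime power} log d ≤ C1 t` : the number of `d = q^v ≤ t` with given `q` is at most `log t / log q`, and
`∑_{q^v ≤ t} v log q ≤ ∑_{q ≤ t} log q + ∑_{v ≥ 2, q^v ≤ t} log t ≤ θ(t) + 2 √t (log t)^2 / log 2 ≤ C1 t`
(`Chebyshev.theta_le_log4_mul_x`; a cruder route: `log d ≤ log t` and the number of prime powers `d ≤ t` is at most
`C t / log t`, from `Chebyshev.psi_le_const_mul_self` and `π(t) ≤ C t / log t`).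
So `∑ f(n) log n ≤ 4 C1 y ∑ f(m)/m`. Also `∑ f(n) log (y/n) ≤ ∑ f(n) (y/n)` (`Real.log_le_self`-type bound). Adding:
`log y ∑ f(n) ≤ (4 C1 + 1) y ∑ f(n)/n`.
-/
open Classical in
theorem m1_S : ∃ C : ℝ, 0 < C ∧ ∀ t : ℕ,
    ∑ d ∈ (Finset.Icc 1 t).filter IsPrimePow, Real.log d ≤ C * t := by
  obtain ⟨C0, hC0⟩ := Chebyshev.psi_sub_theta_le_mul_sqrt
  have hlog2 : 0 < Real.log 2 := Real.log_pos (by norm_num)
  refine ⟨Real.log 4 + 2 * |C0| / Real.log 2 + 1, by positivity, fun t => ?_⟩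
  rcases Nat.eq_zero_or_pos t with h0 | hpos
  · subst h0
    simp
  have ht1 : (1 : ℝ) ≤ t := by exact_mod_cast hpos
  have hlt : 0 ≤ Real.log t := Real.log_nonneg ht1
  have key : ∀ d ∈ (Finset.Icc 1 t).filter IsPrimePow, Real.log (d : ℝ) ≤
      (if Nat.Prime d then Real.log (d : ℝ) else 0) +
        Real.log t / Real.log 2 * (if ¬ Nat.Prime d then ArithmeticFunction.vonMangoldt d else 0) := by
    intro d hd
    rw [Finset.mem_filter, Finset.mem_Icc] at hd
    obtain ⟨⟨hd1, hdt⟩, hpp⟩ := hd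
    by_cases hp : Nat.Prime d
    · rw [if_pos hp, if_neg (not_not.2 hp), mul_zero, add_zero]
    · rw [if_neg hp, if_pos hp, zero_add]
      obtain ⟨q, v, hq, hv, rfl⟩ := (isPrimePow_nat_iff d).1 hpp
      rw [ArithmeticFunction.vonMangoldt_apply_pow hv.ne',
        ArithmeticFunction.vonMangoldt_apply_prime hq, Nat.cast_pow, Real.log_pow]
      have hq0 : 0 ≤ Real.log (q : ℝ) := Real.log_nonneg (by exact_mod_cast hq.one_lt.le)
      refine mul_le_mul_of_nonneg_right ?_ hq0
      rw [le_div_iff₀ hlog2, ← Real.log_pow]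
      refine Real.log_le_log (by positivity) ?_
      have h2 : 2 ^ v ≤ q ^ v := Nat.pow_le_pow_left hq.two_le v
      exact_mod_cast h2.trans hdt
  have h1 := Finset.sum_le_sum key
  rw [Finset.sum_add_distrib, ← Finset.mul_sum] at h1
  have hIoc : Finset.Ioc 0 ⌊(t : ℝ)⌋₊ = Finset.Icc 1 t := by
    rw [Nat.floor_natCast]
    ext x
    simp [Nat.succ_le_iff]
  have h2 : ∑ d ∈ (Finset.Icc 1 t).filter IsPrimePow, (if Nat.Prime d then Real.log (d : ℝ) else 0) ≤
      Chebyshev.theta t := by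
    unfold Chebyshev.theta
    rw [hIoc]
    have e : ∑ d ∈ (Finset.Icc 1 t).filter Nat.Prime, Real.log (d : ℝ) =
        ∑ d ∈ Finset.Icc 1 t, (if Nat.Prime d then Real.log (d : ℝ) else 0) :=
      Finset.sum_filter _ _
    rw [e]
    refine Finset.sum_le_sum_of_subset_of_nonneg (Finset.filter_subset _ _) fun d hd _ => ?_
    split_ifs
    · exact Real.log_nonneg (by exact_mod_cast (Finset.mem_Icc.1 hd).1)
    · exact le_rfl
  have h3 : ∑ d ∈ (Finset.Icc 1 t).filter IsPrimePow,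
      (if ¬ Nat.Prime d then ArithmeticFunction.vonMangoldt d else 0) ≤
      Chebyshev.psi t - Chebyshev.theta t := by
    rw [Chebyshev.psi_sub_theta_eq_sum_not_prime, hIoc]
    have e : ∑ d ∈ (Finset.Icc 1 t).filter (fun n => ¬ Nat.Prime n),
        ArithmeticFunction.vonMangoldt d = ∑ d ∈ Finset.Icc 1 t,
          (if ¬ Nat.Prime d then ArithmeticFunction.vonMangoldt d else 0) :=
      Finset.sum_filter _ _
    rw [e]
    refine Finset.sum_le_sum_of_subset_of_nonneg (Finset.filter_subset _ _) fun d hd _ => ?_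
    split_ifs
    · exact le_rfl
    · exact ArithmeticFunction.vonMangoldt_nonneg
  have h4 : Chebyshev.theta (t : ℝ) ≤ Real.log 4 * t := Chebyshev.theta_le_log4_mul_x (by linarith)
  have h5 : Chebyshev.psi (t : ℝ) - Chebyshev.theta t ≤ |C0| * √(t : ℝ) :=
    (hC0 t).trans (mul_le_mul_of_nonneg_right (le_abs_self _) (Real.sqrt_nonneg _))
  have h6 : Real.log (t : ℝ) ≤ 2 * √(t : ℝ) := by
    have h := Real.log_le_rpow_div (x := (t : ℝ)) (ε := 1 / 2) (by linarith) (by norm_num)
    rw [← Real.sqrt_eq_rpow] at h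
    linarith
  have h7 : Real.log t / Real.log 2 * (Chebyshev.psi t - Chebyshev.theta t) ≤
      2 * |C0| / Real.log 2 * t := by
    calc Real.log t / Real.log 2 * (Chebyshev.psi t - Chebyshev.theta t)
        ≤ Real.log t / Real.log 2 * (|C0| * √(t : ℝ)) :=
          mul_le_mul_of_nonneg_left h5 (by positivity)
      _ ≤ (2 * √(t : ℝ)) / Real.log 2 * (|C0| * √(t : ℝ)) := by
          refine mul_le_mul_of_nonneg_right ?_ (by positivity)
          exact div_le_div_of_nonneg_right h6 hlog2.le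
      _ = 2 * |C0| / Real.log 2 * (√(t : ℝ) * √(t : ℝ)) := by ring
      _ = 2 * |C0| / Real.log 2 * t := by rw [Real.mul_self_sqrt (by linarith)]
  have h8 : Real.log t / Real.log 2 * ∑ d ∈ (Finset.Icc 1 t).filter IsPrimePow,
      (if ¬ Nat.Prime d then ArithmeticFunction.vonMangoldt d else 0) ≤
      Real.log t / Real.log 2 * (Chebyshev.psi t - Chebyshev.theta t) :=
    mul_le_mul_of_nonneg_left h3 (by positivity)
  have h9 : (Real.log 4 + 2 * |C0| / Real.log 2 + 1) * (t : ℝ) =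
      Real.log 4 * t + 2 * |C0| / Real.log 2 * t + t := by ring
  rw [h9]
  linarith

theorem mean_bound : ∃ C : ℝ, 0 < C ∧ ∀ f : ℕ → ℝ, (∀ n, 0 ≤ f n) → f 1 = 1 →
    (∀ m n, Nat.Coprime m n → f (m * n) = f m * f n) →
    (∀ q k : ℕ, q.Prime → 1 ≤ k → f (q ^ k) ≤ 4) → ∀ y : ℕ, 2 ≤ y →
    ∑ n ∈ Finset.Icc 1 y, f n ≤
      C * (y / Real.log y) * ∑ n ∈ Finset.Icc 1 y, f n / n := by
  classical
  obtain ⟨C1, hC1, hS⟩ := m1_S
  refine ⟨4 * C1 + 1, by positivity, fun f hf0 hf1 hmul hpp y hy => ?_⟩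
  have hy2 : (2 : ℝ) ≤ y := by exact_mod_cast hy
  have hly : 0 < Real.log y := Real.log_pos (by linarith)
  -- step 1
  have hA : ∀ n ∈ Finset.Icc 1 y, f n * Real.log n ≤
      ∑ q ∈ n.primeFactors, 4 * f (n / q ^ n.factorization q) *
        Real.log ((q ^ n.factorization q : ℕ) : ℝ) := by
    intro n hn
    have hn1 : n ≠ 0 := by have := (Finset.mem_Icc.1 hn).1; omega
    rw [Real.log_nat_eq_sum_factorization, Finsupp.sum, Finset.mul_sum, Nat.support_factorization]
    refine Finset.sum_le_sum fun q hq => ?_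
    have hqp := Nat.prime_of_mem_primeFactors hq
    have hqd := Nat.dvd_of_mem_primeFactors hq
    have hv : 1 ≤ n.factorization q := hqp.factorization_pos_of_dvd hn1 hqd
    have hco : Nat.Coprime (q ^ n.factorization q) (n / q ^ n.factorization q) :=
      (Nat.coprime_ordCompl hqp hn1).pow_left _
    have h1 : f n = f (q ^ n.factorization q) * f (n / q ^ n.factorization q) := by
      rw [← hmul _ _ hco, Nat.ordProj_mul_ordCompl_eq_self]
    rw [Nat.cast_pow, Real.log_pow]
    have h2 : 0 ≤ (n.factorization q : ℝ) * Real.log q :=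
      mul_nonneg (Nat.cast_nonneg _) (Real.log_nonneg (by exact_mod_cast hqp.one_lt.le))
    refine mul_le_mul_of_nonneg_right ?_ h2
    rw [h1]
    exact mul_le_mul_of_nonneg_right (hpp q _ hqp hv) (hf0 _)
  have hB : ∑ n ∈ Finset.Icc 1 y, f n * Real.log n ≤
      ∑ m ∈ Finset.Icc 1 y, ∑ d ∈ (Finset.Icc 1 (y / m)).filter IsPrimePow,
        4 * f m * Real.log d := by
    refine (Finset.sum_le_sum hA).trans ?_
    rw [Finset.sum_sigma', Finset.sum_sigma']
    have hinj : Set.InjOn (fun a : (_ : ℕ) × ℕ =>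
        (⟨a.1 / a.2 ^ a.1.factorization a.2, a.2 ^ a.1.factorization a.2⟩ : (_ : ℕ) × ℕ))
        (((Finset.Icc 1 y).sigma fun n => n.primeFactors) : Set ((_ : ℕ) × ℕ)) := by
      rintro ⟨n, q⟩ ha ⟨n', q'⟩ hb hab
      rw [Finset.mem_coe, Finset.mem_sigma] at ha hb
      have hn1 : n ≠ 0 := by have := (Finset.mem_Icc.1 ha.1).1; simp only at this; omega
      have hn1' : n' ≠ 0 := by have := (Finset.mem_Icc.1 hb.1).1; simp only at this; omega
      have hqp := Nat.prime_of_mem_primeFactors ha.2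
      have hqp' := Nat.prime_of_mem_primeFactors hb.2
      have hv : 1 ≤ n.factorization q :=
        hqp.factorization_pos_of_dvd hn1 (Nat.dvd_of_mem_primeFactors ha.2)
      have hv' : 1 ≤ n'.factorization q' :=
        hqp'.factorization_pos_of_dvd hn1' (Nat.dvd_of_mem_primeFactors hb.2)
      simp only [Sigma.mk.injEq, heq_eq_eq] at hab
      have e1 : n = n' := by
        rw [← Nat.ordProj_mul_ordCompl_eq_self n q, hab.1, hab.2,
          Nat.ordProj_mul_ordCompl_eq_self]
      have e2 : q = q' := by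
        have h1 : q ∣ q' ^ n'.factorization q' := by
          rw [← hab.2]
          exact dvd_pow_self q (by omega)
        exact (Nat.prime_dvd_prime_iff_eq hqp hqp').1 (hqp.dvd_of_dvd_pow h1)
      subst e1
      subst e2
      rfl
    have himg := Finset.sum_image (s := (Finset.Icc 1 y).sigma fun n => n.primeFactors)
      (f := fun a : (_ : ℕ) × ℕ => 4 * f a.1 * Real.log (a.2 : ℝ)) hinj
    rw [← himg]
    refine Finset.sum_le_sum_of_subset_of_nonneg ?_ ?_
    · intro b hb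
      obtain ⟨⟨n, q⟩, ha, rfl⟩ := Finset.mem_image.1 hb
      rw [Finset.mem_sigma] at ha
      have hnI := Finset.mem_Icc.1 ha.1
      simp only at hnI
      have hn1 : n ≠ 0 := by omega
      have hqp := Nat.prime_of_mem_primeFactors ha.2
      have hv : 1 ≤ n.factorization q :=
        hqp.factorization_pos_of_dvd hn1 (Nat.dvd_of_mem_primeFactors ha.2)
      have hdvd : q ^ n.factorization q ∣ n := Nat.ordProj_dvd n q
      have hpos : 0 < q ^ n.factorization q := pow_pos hqp.pos _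
      have hm1 : 1 ≤ n / q ^ n.factorization q :=
        Nat.div_pos (Nat.le_of_dvd (by omega) hdvd) hpos
      rw [Finset.mem_sigma, Finset.mem_filter]
      refine ⟨Finset.mem_Icc.2 ⟨hm1, (Nat.div_le_self _ _).trans hnI.2⟩,
        Finset.mem_Icc.2 ⟨hpos, ?_⟩, ?_⟩
      · rw [Nat.le_div_iff_mul_le hm1, Nat.ordProj_mul_ordCompl_eq_self]
        exact hnI.2
      · exact hqp.isPrimePow.pow (Nat.one_le_iff_ne_zero.1 hv)
    · rintro ⟨m, d⟩ hb _
      rw [Finset.mem_sigma, Finset.mem_filter] at hb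
      have hd1 := (Finset.mem_Icc.1 hb.2.1).1
      exact mul_nonneg (mul_nonneg (by norm_num) (hf0 _))
        (Real.log_nonneg (by exact_mod_cast hd1))
  have hC : ∑ n ∈ Finset.Icc 1 y, f n * Real.log n ≤
      4 * C1 * y * ∑ n ∈ Finset.Icc 1 y, f n / n := by
    refine hB.trans ?_
    rw [Finset.mul_sum]
    refine Finset.sum_le_sum fun m hm => ?_
    have hm1 : (1 : ℝ) ≤ m := by exact_mod_cast (Finset.mem_Icc.1 hm).1
    rw [← Finset.mul_sum]
    have h1 := hS (y / m)
    have h2 : ((y / m : ℕ) : ℝ) ≤ (y : ℝ) / m := Nat.cast_div_le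
    have h3 : ∑ d ∈ (Finset.Icc 1 (y / m)).filter IsPrimePow, Real.log (d : ℝ) ≤ C1 * (y / m) :=
      h1.trans (mul_le_mul_of_nonneg_left h2 hC1.le)
    calc 4 * f m * ∑ d ∈ (Finset.Icc 1 (y / m)).filter IsPrimePow, Real.log (d : ℝ)
        ≤ 4 * f m * (C1 * (y / m)) :=
          mul_le_mul_of_nonneg_left h3 (mul_nonneg (by norm_num) (hf0 _))
      _ = 4 * C1 * y * (f m / m) := by ring
  have hD : ∑ n ∈ Finset.Icc 1 y, f n * (Real.log y - Real.log n) ≤
      y * ∑ n ∈ Finset.Icc 1 y, f n / n := by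
    rw [Finset.mul_sum]
    refine Finset.sum_le_sum fun n hn => ?_
    have hn1 : (1 : ℝ) ≤ n := by exact_mod_cast (Finset.mem_Icc.1 hn).1
    have h1 : Real.log y - Real.log n = Real.log (y / n) := by
      rw [Real.log_div (by linarith) (by linarith)]
    rw [h1]
    have h2 : Real.log (y / n) ≤ (y : ℝ) / n := by
      have := Real.log_le_sub_one_of_pos (show (0 : ℝ) < y / n by positivity)
      linarith
    calc f n * Real.log (y / n) ≤ f n * (y / n) := mul_le_mul_of_nonneg_left h2 (hf0 _)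
      _ = y * (f n / n) := by ring
  have hE : Real.log y * ∑ n ∈ Finset.Icc 1 y, f n =
      ∑ n ∈ Finset.Icc 1 y, f n * Real.log n +
        ∑ n ∈ Finset.Icc 1 y, f n * (Real.log y - Real.log n) := by
    rw [← Finset.sum_add_distrib, Finset.mul_sum]
    exact Finset.sum_congr rfl fun n _ => by ring
  have hF : Real.log y * ∑ n ∈ Finset.Icc 1 y, f n ≤
      (4 * C1 + 1) * y * ∑ n ∈ Finset.Icc 1 y, f n / n := by
    rw [hE]
    have : (4 * C1 + 1) * (y : ℝ) * ∑ n ∈ Finset.Icc 1 y, f n / n =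
        4 * C1 * y * ∑ n ∈ Finset.Icc 1 y, f n / n + y * ∑ n ∈ Finset.Icc 1 y, f n / n := by ring
    rw [this]
    linarith
  have hG : (4 * C1 + 1) * (y / Real.log y) * ∑ n ∈ Finset.Icc 1 y, f n / n =
      ((4 * C1 + 1) * y * ∑ n ∈ Finset.Icc 1 y, f n / n) / Real.log y := by ring
  rw [hG, le_div_iff₀ hly, mul_comm]
  exact hF

end Pool.Agent.MP_ffd2b5_nt
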