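import Mathlib
import Pool.Agent.MP_ffd2b5_nt.Defs

set_option autoImplicit false

namespace Pool.Agent.MP_ffd2b5_nt

theorem m2_tele (y : ℕ) :
    ∑ n ∈ Finset.Icc 2 (y + 1), (1 : ℝ) / ((n : ℝ) * ((n : ℝ) - 1)) ≤ 1 - 1 / ((y : ℝ) + 1) := by
  induction y with
  | zero => simp
  | succ y ih =>
    rw [Finset.sum_Icc_succ_top (by omega)]
    have h1 : (1 : ℝ) / (((y + 1 + 1 : ℕ) : ℝ) * (((y + 1 + 1 : ℕ) : ℝ) - 1)) =
        1 / ((y : ℝ) + 1) - 1 / ((y : ℝ) + 2) := by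
      push_cast
      have h2 : (y : ℝ) + 1 ≠ 0 := by positivity
      have h3 : (y : ℝ) + 2 ≠ 0 := by positivity
      have h4 : (y : ℝ) + 1 + 1 = (y : ℝ) + 2 := by ring
      have h5 : (y : ℝ) + 1 + 1 - 1 = (y : ℝ) + 1 := by ring
      rw [h5, h4]
      field_simp
      ring
    rw [h1]
    have h6 : (((y + 1 : ℕ) : ℝ) + 1) = (y : ℝ) + 2 := by
      push_cast
      ring
    rw [h6]
    linarith

theorem m2_tele' (y : ℕ) :
    ∑ q ∈ Nat.primesLE y, (1 : ℝ) / ((q : ℝ) * ((q : ℝ) - 1)) ≤ 1 := by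
  have h1 : Nat.primesLE y ⊆ Finset.Icc 2 (y + 1) := by
    intro q hq
    have hq' : q ∈ Nat.primesBelow (y + 1) := hq
    have h2 := Nat.prime_of_mem_primesBelow hq'
    have h3 := Nat.lt_of_mem_primesBelow hq'
    rw [Finset.mem_Icc]
    exact ⟨h2.two_le, h3.le⟩
  have h2 : ∑ q ∈ Nat.primesLE y, (1 : ℝ) / ((q : ℝ) * ((q : ℝ) - 1)) ≤
      ∑ n ∈ Finset.Icc 2 (y + 1), (1 : ℝ) / ((n : ℝ) * ((n : ℝ) - 1)) := by
    refine Finset.sum_le_sum_of_subset_of_nonneg h1 ?_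
    intro n hn _
    rw [Finset.mem_Icc] at hn
    have h4 : (2 : ℝ) ≤ (n : ℝ) := by exact_mod_cast hn.1
    have h5 : (0 : ℝ) < (n : ℝ) * ((n : ℝ) - 1) := by nlinarith
    positivity
  have h3 := m2_tele y
  have h4 : (0 : ℝ) ≤ 1 / ((y : ℝ) + 1) := by positivity
  linarith

theorem m2_local (f : ℕ → ℝ) (c : ℝ) (hf : ∀ n, 0 ≤ f n) (h1 : f 1 = 1) (q : ℕ) (hq : q.Prime)
    (hfF : ∀ k : ℕ, 1 ≤ k → f (q ^ k) ≤ c) :
    Summable (fun n : ℕ => f (q ^ n) / ((q ^ n : ℕ) : ℝ)) ∧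
      ∑' n : ℕ, f (q ^ n) / ((q ^ n : ℕ) : ℝ) ≤ Real.exp (c / ((q : ℝ) - 1)) := by
  have hq2 : (2 : ℝ) ≤ (q : ℝ) := by exact_mod_cast hq.two_le
  have hq0 : (0 : ℝ) < (q : ℝ) := by linarith
  have hc : 0 ≤ c := (hf _).trans (hfF 1 le_rfl)
  have hr0 : (0 : ℝ) ≤ 1 / (q : ℝ) := by positivity
  have hr1 : 1 / (q : ℝ) < 1 := by
    rw [div_lt_one hq0]
    linarith
  have hgeo : Summable (fun n : ℕ => (1 / (q : ℝ)) ^ n) := summable_geometric_of_lt_one hr0 hr1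
  have hle : ∀ n : ℕ, f (q ^ (n + 1)) / ((q ^ (n + 1) : ℕ) : ℝ) ≤
      c * (1 / (q : ℝ)) * (1 / (q : ℝ)) ^ n := by
    intro n
    have e1 : c * (1 / (q : ℝ)) * (1 / (q : ℝ)) ^ n = c / ((q ^ (n + 1) : ℕ) : ℝ) := by
      push_cast
      rw [one_div, inv_pow, pow_succ]
      field_simp
    rw [e1]
    exact div_le_div_of_nonneg_right (hfF (n + 1) (by omega)) (by positivity)
  have hsum1 : Summable (fun n : ℕ => f (q ^ (n + 1)) / ((q ^ (n + 1) : ℕ) : ℝ)) := by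
    refine Summable.of_nonneg_of_le ?_ hle (hgeo.mul_left _)
    intro n
    exact div_nonneg (hf _) (by positivity)
  have hsum : Summable (fun n : ℕ => f (q ^ n) / ((q ^ n : ℕ) : ℝ)) :=
    (summable_nat_add_iff 1).mp hsum1
  refine ⟨hsum, ?_⟩
  have h2 := hsum.tsum_eq_zero_add
  rw [h2]
  have h3 : f (q ^ 0) / ((q ^ 0 : ℕ) : ℝ) = 1 := by
    rw [pow_zero, h1]
    norm_num
  rw [h3]
  have h4 : ∑' n : ℕ, f (q ^ (n + 1)) / ((q ^ (n + 1) : ℕ) : ℝ) ≤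
      ∑' n : ℕ, c * (1 / (q : ℝ)) * (1 / (q : ℝ)) ^ n :=
    hsum1.tsum_le_tsum hle (hgeo.mul_left _)
  rw [tsum_mul_left, tsum_geometric_of_lt_one hr0 hr1] at h4
  have h5 : c * (1 / (q : ℝ)) * (1 - 1 / (q : ℝ))⁻¹ = c / ((q : ℝ) - 1) := by
    have h6 : (q : ℝ) - 1 ≠ 0 := by linarith
    have h7 : (1 : ℝ) - 1 / (q : ℝ) = ((q : ℝ) - 1) / q := by
      field_simp
    rw [h7, inv_div]
    field_simp
  rw [h5] at h4
  have h6 := Real.add_one_le_exp (c / ((q : ℝ) - 1))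
  linarith

/-!
[TPE-M2] finite Euler product bound.
PROOF. Put `g n = f n / n` (`g 0 = 0`, `g 1 = 1`, multiplicative on coprime arguments, `0 ≤ g (q ^ k) ≤ 4 / q ^ k`).
`EulerProduct.summable_and_hasSum_smoothNumbers_prod_primesBelow_tsum` with `N = y + 1`
(`Nat.primesLE y = Nat.primesBelow (y + 1)` by definition):
`∑_{n smooth} g n = ∏_{q ≤ y} ∑_k g (q ^ k)`, and every `1 ≤ n ≤ y` is `(y+1)`-smooth, so
`∑_{n ≤ y} g n ≤ ∏_{q ≤ y} (1 + ∑_{k ≥ 1} F q / q ^ k) = ∏ (1 + F q / (q - 1)) ≤ exp (∑ F q / (q - 1))`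
and `F q / (q - 1) = F q / q + F q / (q (q-1)) ≤ F q / q + 4 / (q (q - 1))`,
`∑_{q ≤ y} 1/(q(q-1)) ≤ ∑_{n=2}^y (1/(n-1) - 1/n) ≤ 1`.
-/
theorem euler_bound (f F : ℕ → ℝ) (hf : ∀ n, 0 ≤ f n) (h1 : f 1 = 1)
    (hmul : ∀ m n, Nat.Coprime m n → f (m * n) = f m * f n)
    (hF : ∀ q : ℕ, q.Prime → F q ≤ 4)
    (hfF : ∀ q k : ℕ, q.Prime → 1 ≤ k → f (q ^ k) ≤ F q) (y : ℕ) :
    ∑ n ∈ Finset.Icc 1 y, f n / n ≤
      Real.exp 4 * Real.exp (∑ q ∈ Nat.primesLE y, F q / q) := by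
  have hg1 : f 1 / ((1 : ℕ) : ℝ) = 1 := by
    rw [h1]
    norm_num
  have hgmul : ∀ {m n : ℕ}, Nat.Coprime m n →
      (fun n : ℕ => f n / (n : ℝ)) (m * n) =
        (fun n : ℕ => f n / (n : ℝ)) m * (fun n : ℕ => f n / (n : ℝ)) n := by
    intro m n hmn
    show f (m * n) / ((m * n : ℕ) : ℝ) = f m / (m : ℝ) * (f n / (n : ℝ))
    rw [hmul m n hmn, Nat.cast_mul, mul_div_mul_comm]
  have hsum : ∀ {p : ℕ}, p.Prime →
      Summable (fun n : ℕ => ‖(fun n : ℕ => f n / (n : ℝ)) (p ^ n)‖) := by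
    intro p hp
    have h := (m2_local f (F p) hf h1 p hp (fun k hk => hfF p k hp hk)).1
    refine h.congr ?_
    intro n
    show f (p ^ n) / ((p ^ n : ℕ) : ℝ) = ‖f (p ^ n) / ((p ^ n : ℕ) : ℝ)‖
    rw [Real.norm_of_nonneg]
    exact div_nonneg (hf _) (Nat.cast_nonneg _)
  obtain ⟨_, hS⟩ := EulerProduct.summable_and_hasSum_smoothNumbers_prod_primesBelow_tsum
    (f := fun n : ℕ => f n / (n : ℝ)) hg1 hgmul hsum (y + 1)
  have hA : ∑ n ∈ Finset.Icc 1 y, f n / (n : ℝ) ≤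
      ∏ p ∈ (y + 1).primesBelow, ∑' n : ℕ, f (p ^ n) / ((p ^ n : ℕ) : ℝ) := by
    classical
    have h2 : ∀ x ∈ Finset.Icc 1 y, x ∈ (y + 1).smoothNumbers := by
      intro x hx
      rw [Finset.mem_Icc] at hx
      exact Nat.mem_smoothNumbers_of_lt (by omega) (by omega)
    have h3 := Finset.sum_subtype_of_mem (s := Finset.Icc 1 y) (fun n : ℕ => f n / (n : ℝ)) h2
    rw [← h3]
    refine sum_le_hasSum _ ?_ hS
    intro i _
    exact div_nonneg (hf _) (Nat.cast_nonneg _)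
  have hB : ∏ p ∈ (y + 1).primesBelow, ∑' n : ℕ, f (p ^ n) / ((p ^ n : ℕ) : ℝ) ≤
      ∏ p ∈ (y + 1).primesBelow, Real.exp (F p / ((p : ℝ) - 1)) := by
    refine Finset.prod_le_prod ?_ ?_
    · intro p _
      exact tsum_nonneg (fun n => div_nonneg (hf _) (Nat.cast_nonneg _))
    · intro p hp
      have hp' := Nat.prime_of_mem_primesBelow hp
      exact (m2_local f (F p) hf h1 p hp' (fun k hk => hfF p k hp' hk)).2
  rw [← Real.exp_sum] at hB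
  refine hA.trans (hB.trans ?_)
  rw [← Real.exp_add, Real.exp_le_exp]
  have hC : ∀ p ∈ (y + 1).primesBelow, F p / ((p : ℝ) - 1) ≤
      F p / (p : ℝ) + 4 * (1 / ((p : ℝ) * ((p : ℝ) - 1))) := by
    intro p hp
    have hp' := Nat.prime_of_mem_primesBelow hp
    have hp2 : (2 : ℝ) ≤ (p : ℝ) := by exact_mod_cast hp'.two_le
    have e1 : F p / ((p : ℝ) - 1) = F p / (p : ℝ) + F p * (1 / ((p : ℝ) * ((p : ℝ) - 1))) := by
      have h2 : (p : ℝ) - 1 ≠ 0 := by linarith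
      have h3 : (p : ℝ) ≠ 0 := by linarith
      field_simp
      ring
    rw [e1]
    have h5 : (0 : ℝ) < (p : ℝ) * ((p : ℝ) - 1) := by nlinarith
    have h4 : (0 : ℝ) ≤ 1 / ((p : ℝ) * ((p : ℝ) - 1)) := by positivity
    have h6 := mul_le_mul_of_nonneg_right (hF p hp') h4
    linarith
  have hD := Finset.sum_le_sum hC
  rw [Finset.sum_add_distrib, ← Finset.mul_sum] at hD
  have hE : ∑ q ∈ (y + 1).primesBelow, (1 : ℝ) / ((q : ℝ) * ((q : ℝ) - 1)) ≤ 1 := m2_tele' y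
  have hF' : ∑ q ∈ Nat.primesLE y, F q / (q : ℝ) = ∑ q ∈ (y + 1).primesBelow, F q / (q : ℝ) := rfl
  rw [hF']
  linarith

end Pool.Agent.MP_ffd2b5_nt
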