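import Mathlib
import Pool.Agent.MP_ffd2b5_nt.Defs

set_option autoImplicit false

namespace Pool.Agent.MP_ffd2b5_nt

/-!
[TPE-R1] `rho D` is multiplicative.
PROOF. `rho D 1 = 1` by `decide`/`simp`. If `m = 0` or `n = 0`: coprime to `0` means the other one is `1`, and
`rho D 0 = 0`. Otherwise Chinese remainder: `r ↦ (r % m, r % n)` is a bijection from the solutions below `mn` to the
pairs of solutions (`Nat.chineseRemainder`, or `ZMod.chineseRemainder` after rewriting `rho D Q` as the number of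
`x : ZMod Q` with `x ^ 2 = D`); `mn ∣ r ^ 2 - D ↔ m ∣ r ^ 2 - D ∧ n ∣ r ^ 2 - D` by coprimality, and
`m ∣ r ^ 2 - D ↔ m ∣ (r % m) ^ 2 - D`.
-/
theorem rho_one (D : ℕ) : rho D 1 = 1 := by
  simp [rho]

theorem r1_zero (D : ℕ) : rho D 0 = 0 := by
  simp [rho]

theorem r1_congr (D m r s : ℕ) (h : r ≡ s [MOD m]) (hr : (m : ℤ) ∣ (r : ℤ) ^ 2 - (D : ℤ)) :
    (m : ℤ) ∣ (s : ℤ) ^ 2 - (D : ℤ) := by
  have h1 : (m : ℤ) ∣ (s : ℤ) - (r : ℤ) := (Nat.modEq_iff_dvd).1 h
  have h2 : (s : ℤ) ^ 2 - (D : ℤ) = ((s : ℤ) - r) * ((s : ℤ) + r) + ((r : ℤ) ^ 2 - (D : ℤ)) := by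
    ring
  rw [h2]
  exact dvd_add (Dvd.dvd.mul_right h1 _) hr

theorem rho_mul (D m n : ℕ) (h : Nat.Coprime m n) : rho D (m * n) = rho D m * rho D n := by
  rcases Nat.eq_zero_or_pos m with rfl | hm
  · simp [r1_zero]
  rcases Nat.eq_zero_or_pos n with rfl | hn
  · simp [r1_zero]
  unfold rho
  rw [← Finset.card_product]
  refine Finset.card_nbij' (fun r => (r % m, r % n))
    (fun x => (Nat.chineseRemainder h x.1 x.2 : ℕ)) ?_ ?_ ?_ ?_
  · intro r hr
    simp only [Finset.coe_filter, Finset.mem_range, Set.mem_setOf_eq] at hr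
    simp only [Finset.coe_product, Finset.coe_filter, Finset.mem_range, Set.mem_prod,
      Set.mem_setOf_eq]
    have hd : ((m * n : ℕ) : ℤ) ∣ (r : ℤ) ^ 2 - (D : ℤ) := hr.2
    have hd1 : (m : ℤ) ∣ (r : ℤ) ^ 2 - (D : ℤ) :=
      dvd_trans (by push_cast; exact Dvd.intro _ rfl) hd
    have hd2 : (n : ℤ) ∣ (r : ℤ) ^ 2 - (D : ℤ) :=
      dvd_trans (by push_cast; exact Dvd.intro_left _ rfl) hd
    exact ⟨⟨Nat.mod_lt _ hm, r1_congr D m r (r % m) (Nat.mod_modEq r m).symm hd1⟩,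
      ⟨Nat.mod_lt _ hn, r1_congr D n r (r % n) (Nat.mod_modEq r n).symm hd2⟩⟩
  · intro x hx
    simp only [Finset.coe_product, Finset.coe_filter, Finset.mem_range, Set.mem_prod,
      Set.mem_setOf_eq] at hx
    simp only [Finset.coe_filter, Finset.mem_range, Set.mem_setOf_eq]
    have hc := (Nat.chineseRemainder h x.1 x.2).2
    refine ⟨Nat.chineseRemainder_lt_mul h x.1 x.2 hm.ne' hn.ne', ?_⟩
    have h1 := r1_congr D m x.1 _ hc.1.symm hx.1.2
    have h2 := r1_congr D n x.2 _ hc.2.symm hx.2.2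
    push_cast
    exact IsCoprime.mul_dvd (Nat.isCoprime_iff_coprime.2 h) h1 h2
  · intro r hr
    simp only [Finset.coe_filter, Finset.mem_range, Set.mem_setOf_eq] at hr
    have hc := (Nat.chineseRemainder h (r % m) (r % n)).2
    have hlt := Nat.chineseRemainder_lt_mul h (r % m) (r % n) hm.ne' hn.ne'
    have hmod : (Nat.chineseRemainder h (r % m) (r % n) : ℕ) ≡ r [MOD m * n] := by
      rw [← Nat.modEq_and_modEq_iff_modEq_mul h]
      exact ⟨hc.1.trans (Nat.mod_modEq r m), hc.2.trans (Nat.mod_modEq r n)⟩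
    exact Nat.ModEq.eq_of_lt_of_lt hmod hlt hr.1
  · intro x hx
    simp only [Finset.coe_product, Finset.coe_filter, Finset.mem_range, Set.mem_prod,
      Set.mem_setOf_eq] at hx
    have hc := (Nat.chineseRemainder h x.1 x.2).2
    have h1 : (Nat.chineseRemainder h x.1 x.2 : ℕ) % m = x.1 := by
      have := hc.1
      rw [Nat.ModEq, Nat.mod_eq_of_lt hx.1.1] at this
      exact this
    have h2 : (Nat.chineseRemainder h x.1 x.2 : ℕ) % n = x.2 := by
      have := hc.2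
      rw [Nat.ModEq, Nat.mod_eq_of_lt hx.2.1] at this
      exact this
    exact Prod.ext h1 h2

end Pool.Agent.MP_ffd2b5_nt
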