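import Mathlib
import Pool.Agent.MP_ffd2b5_nt.Defs

set_option autoImplicit false

namespace Pool.Agent.MP_ffd2b5_nt

/-!
[TPE-R2] prime powers, `p` an odd prime.
PROOF of `rho_pow_odd`: `q` odd prime, `k ≥ 1`. `jacobiSym p q = legendreSym q p ∈ {-1, 0, 1}`.
* `q = p`: a solution has `p ∣ r`; for `k = 1` only `r = 0` (`rho = 1`), for `k ≥ 2`: `p ^ 2 ∣ r ^ 2`, so
  `p ^ 2 ∣ p`, impossible, `rho = 0`. `jacobiSym p p = 0`.
* `q ≠ p`, symbol `-1`: no solution modulo `q`, a fortiori none modulo `q ^ k`: `rho = 0`.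
* symbol `1`: any two solutions `r, r'` satisfy `q ^ k ∣ (r - r')(r + r')`; `q` does not divide both factors (else
  `q ∣ 2 r`, `q ∣ r`, `q ∣ p`), so `q ^ k ∣ r - r'` or `q ^ k ∣ r + r'`: for a fixed solution `r` every solution is
  `r` or `q ^ k - r` (as numbers below `q ^ k`): at most `2 = 1 + 1` solutions.
PROOF of `rho_pow_two`: solutions are odd. For a fixed solution `r` and any solution `r'`:
`2 ^ k ∣ (r - r')(r + r')`, both factors are even and one of them is `2` modulo `4`, so `2 ^ (k-1)` divides the other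
one: `r' = ± r` modulo `2 ^ (k-1)`, at most `4` values below `2 ^ k`.
-/
theorem r2_mem {p Q r : ℕ} : r ∈ (Finset.range Q).filter (fun r : ℕ => (Q : ℤ) ∣ (r : ℤ) ^ 2 - (p : ℤ)) ↔
    r < Q ∧ (Q : ℤ) ∣ (r : ℤ) ^ 2 - (p : ℤ) := by
  rw [Finset.mem_filter, Finset.mem_range]

theorem r2_le {p Q : ℕ} (T : Finset ℕ)
    (h : ∀ r : ℕ, r < Q → (Q : ℤ) ∣ (r : ℤ) ^ 2 - (p : ℤ) → r ∈ T) : rho p Q ≤ T.card := by
  unfold rho
  refine Finset.card_le_card fun r hr => ?_
  rw [r2_mem] at hr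
  exact h r hr.1 hr.2

theorem r2_eq_of_dvd_sub {M a b : ℕ} (ha : a < M) (hb : b < M) (h : (M : ℤ) ∣ (a : ℤ) - (b : ℤ)) :
    a = b := by
  have h1 : |(a : ℤ) - (b : ℤ)| < (M : ℤ) := by
    rw [abs_lt]
    constructor <;> omega
  have h2 := Int.eq_zero_of_abs_lt_dvd h h1
  omega

theorem r2_eq_of_dvd_add {M a b : ℕ} (ha : a < M) (hb : b < M) (h : (M : ℤ) ∣ (a : ℤ) + (b : ℤ)) :
    a = b ∨ a = M - b := by
  obtain ⟨c, hc⟩ := h
  have hM : (0 : ℤ) < M := by omega
  have h0 : 0 ≤ c := by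
    by_contra hn
    have : (M : ℤ) * c < 0 := mul_neg_of_pos_of_neg hM (by omega)
    omega
  have h2 : c < 2 := by
    by_contra hn
    have : (M : ℤ) * 2 ≤ (M : ℤ) * c := mul_le_mul_of_nonneg_left (by omega) hM.le
    omega
  interval_cases c
  · left
    omega
  · right
    omega

theorem rho_pow_odd (p q k : ℕ) (hp : p.Prime) (hp2 : p ≠ 2) (hq : q.Prime) (hq2 : q ≠ 2)
    (hk : 1 ≤ k) : (rho p (q ^ k) : ℝ) ≤ 1 + ((jacobiSym (p : ℤ) q : ℤ) : ℝ) := by
  have hF : Fact q.Prime := ⟨hq⟩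
  have hqZ : Prime (q : ℤ) := Nat.prime_iff_prime_int.1 hq
  have hqk : (q : ℤ) ∣ ((q ^ k : ℕ) : ℤ) := by
    rw [Nat.cast_pow]
    exact dvd_pow_self _ (by omega)
  rw [← jacobiSym.legendreSym.to_jacobiSym]
  by_cases hpq : q = p
  · subst hpq
    have h0 : legendreSym q (q : ℤ) = 0 := by
      rw [legendreSym.eq_zero_iff]
      simp
    rw [h0]
    have h1 : rho q (q ^ k) ≤ ({0} : Finset ℕ).card := by
      refine r2_le _ fun r hr hd => ?_
      rw [Finset.mem_singleton]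
      have h2 : (q : ℤ) ∣ (r : ℤ) ^ 2 - (q : ℤ) := hqk.trans hd
      have h3 : (q : ℤ) ∣ (r : ℤ) ^ 2 := by
        have := dvd_add h2 (dvd_refl (q : ℤ))
        rwa [sub_add_cancel] at this
      have h4 : (q : ℤ) ∣ (r : ℤ) := hqZ.dvd_of_dvd_pow h3
      have h5 : q ∣ r := by exact_mod_cast h4
      rcases Nat.lt_or_ge 1 k with hk2 | hk1
      · exfalso
        have h6 : (q : ℤ) ^ 2 ∣ ((q ^ k : ℕ) : ℤ) := by
          rw [Nat.cast_pow]
          exact pow_dvd_pow _ (by omega)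
        have h7 : (q : ℤ) ^ 2 ∣ (r : ℤ) ^ 2 := pow_dvd_pow_of_dvd h4 2
        have h8 : (q : ℤ) ^ 2 ∣ (q : ℤ) := by
          have := dvd_sub h7 (h6.trans hd)
          rwa [sub_sub_cancel] at this
        have h9 : q ^ 2 ∣ q := by exact_mod_cast h8
        have h10 := Nat.le_of_dvd hq.pos h9
        have h11 := hq.two_le
        nlinarith
      · have hk' : k = 1 := by omega
        subst hk'
        rw [pow_one] at hr
        exact Nat.eq_zero_of_dvd_of_lt h5 hr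
    rw [Finset.card_singleton] at h1
    have h2 : (rho q (q ^ k) : ℝ) ≤ 1 := by exact_mod_cast h1
    simpa using h2
  · have hndvd : ¬ (q : ℤ) ∣ (p : ℤ) := by
      intro h
      have h1 : q ∣ p := by exact_mod_cast h
      exact hpq ((Nat.prime_dvd_prime_iff_eq hq hp).1 h1)
    have hne : ((p : ℤ) : ZMod q) ≠ 0 := by
      intro h
      exact hndvd ((ZMod.intCast_zmod_eq_zero_iff_dvd _ _).1 h)
    rcases legendreSym.eq_one_or_neg_one q hne with h1 | h1
    · rw [h1]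
      have hle : rho p (q ^ k) ≤ 2 := by
        rcases Nat.eq_zero_or_pos (rho p (q ^ k)) with h0 | h0
        · omega
        · unfold rho at h0
          rw [gt_iff_lt, Finset.card_pos] at h0
          obtain ⟨s, hs⟩ := h0
          rw [r2_mem] at hs
          obtain ⟨hs1, hs2⟩ := hs
          refine (r2_le ({s, q ^ k - s} : Finset ℕ) fun r hr hd => ?_).trans Finset.card_le_two
          rw [Finset.mem_insert, Finset.mem_singleton]
          have h2 : ((q ^ k : ℕ) : ℤ) ∣ ((r : ℤ) - s) * ((r : ℤ) + s) := by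
            have := dvd_sub hd hs2
            have h3 : (r : ℤ) ^ 2 - (p : ℤ) - ((s : ℤ) ^ 2 - (p : ℤ)) = ((r : ℤ) - s) * ((r : ℤ) + s) := by
              ring
            rwa [h3] at this
          have hnot : ¬ ((q : ℤ) ∣ (r : ℤ) - s ∧ (q : ℤ) ∣ (r : ℤ) + s) := by
            rintro ⟨ha, hb⟩
            have h3 : (q : ℤ) ∣ 2 * (s : ℤ) := by
              have := dvd_sub hb ha
              have h4 : (r : ℤ) + s - ((r : ℤ) - s) = 2 * s := by ring
              rwa [h4] at this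
            rcases hqZ.dvd_or_dvd h3 with h5 | h5
            · have h6 : q ∣ 2 := by exact_mod_cast h5
              exact hq2 ((Nat.prime_dvd_prime_iff_eq hq Nat.prime_two).1 h6)
            · have h6 : (q : ℤ) ∣ (s : ℤ) ^ 2 := dvd_pow h5 (by norm_num)
              have h7 := dvd_sub h6 (hqk.trans hs2)
              rw [sub_sub_cancel] at h7
              exact hndvd h7
          by_cases ha : (q : ℤ) ∣ (r : ℤ) - s
          · have hb : ¬ (q : ℤ) ∣ (r : ℤ) + s := fun hb => hnot ⟨ha, hb⟩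
            have hc : IsCoprime ((q ^ k : ℕ) : ℤ) ((r : ℤ) + s) := by
              rw [Nat.cast_pow]
              exact IsCoprime.pow_left ((Prime.coprime_iff_not_dvd hqZ).2 hb)
            exact Or.inl (r2_eq_of_dvd_sub hr hs1 (hc.dvd_of_dvd_mul_right h2))
          · have hc : IsCoprime ((q ^ k : ℕ) : ℤ) ((r : ℤ) - s) := by
              rw [Nat.cast_pow]
              exact IsCoprime.pow_left ((Prime.coprime_iff_not_dvd hqZ).2 ha)
            exact r2_eq_of_dvd_add hr hs1 (hc.dvd_of_dvd_mul_left h2)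
      have h2 : (rho p (q ^ k) : ℝ) ≤ 2 := by exact_mod_cast hle
      push_cast
      linarith
    · rw [h1]
      have hle : rho p (q ^ k) ≤ (∅ : Finset ℕ).card := by
        refine r2_le _ fun r hr hd => ?_
        exfalso
        rw [legendreSym.eq_neg_one_iff] at h1
        apply h1
        have h2 : (q : ℤ) ∣ (r : ℤ) ^ 2 - (p : ℤ) := hqk.trans hd
        have h3 : (((r : ℤ) ^ 2 - (p : ℤ) : ℤ) : ZMod q) = 0 :=
          (ZMod.intCast_zmod_eq_zero_iff_dvd _ _).2 h2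
        refine ⟨((r : ℤ) : ZMod q), ?_⟩
        rw [Int.cast_sub, sub_eq_zero, Int.cast_pow] at h3
        rw [← h3, sq]
      rw [Finset.card_empty] at hle
      have h2 : (rho p (q ^ k) : ℝ) ≤ 0 := by exact_mod_cast hle
      push_cast
      linarith

theorem r2_mod {M r a : ℕ} (hM : 0 < M) (hr : r < 2 * M) (ha : r % M = a) :
    r = a ∨ r = a + M := by
  have h1 := Nat.mod_add_div r M
  have h2 : r / M < 2 := by
    rw [Nat.div_lt_iff_lt_mul hM]
    exact hr
  rcases Nat.lt_or_ge (r / M) 1 with h3 | h3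
  · left
    have h4 : r / M = 0 := Nat.lt_one_iff.1 h3
    rw [h4, mul_zero, ha] at h1
    omega
  · right
    have h4 : r / M = 1 := Nat.le_antisymm (Nat.lt_succ_iff.1 h2) h3
    rw [h4, mul_one, ha] at h1
    omega

theorem rho_pow_two (p k : ℕ) (hp : p.Prime) (hp2 : p ≠ 2) (hk : 1 ≤ k) : rho p (2 ^ k) ≤ 4 := by
  classical
  obtain ⟨l, rfl⟩ : ∃ l, k = l + 1 := ⟨k - 1, by omega⟩
  have hpodd : p % 2 = 1 := (hp.eq_two_or_odd).resolve_left hp2
  have hM : 0 < 2 ^ l := by positivity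
  have h2k : ((2 ^ (l + 1) : ℕ) : ℤ) = 2 * ((2 ^ l : ℕ) : ℤ) := by
    push_cast
    ring
  have hodd : ∀ r : ℕ, ((2 ^ (l + 1) : ℕ) : ℤ) ∣ (r : ℤ) ^ 2 - (p : ℤ) → r % 2 = 1 := by
    intro r hd
    have h1 : (2 : ℤ) ∣ (r : ℤ) ^ 2 - (p : ℤ) := by
      refine Dvd.dvd.trans ?_ hd
      rw [h2k]
      exact dvd_mul_right _ _
    by_contra h2
    have h3 : r % 2 = 0 := by omega
    have h4 : (2 : ℤ) ∣ (r : ℤ) := by omega
    have h5 : (2 : ℤ) ∣ (r : ℤ) ^ 2 := dvd_pow h4 (by norm_num)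
    have h6 := dvd_sub h5 h1
    rw [sub_sub_cancel] at h6
    omega
  rcases Nat.eq_zero_or_pos (rho p (2 ^ (l + 1))) with h0 | h0
  · omega
  · unfold rho at h0
    rw [gt_iff_lt, Finset.card_pos] at h0
    obtain ⟨s, hs⟩ := h0
    rw [r2_mem] at hs
    obtain ⟨hs1, hs2⟩ := hs
    have hso := hodd s hs2
    obtain ⟨t, ht⟩ : ∃ t : ℕ, (t : ℤ) = (-(s : ℤ)) % ((2 ^ l : ℕ) : ℤ) := by
      refine ⟨((-(s : ℤ)) % ((2 ^ l : ℕ) : ℤ)).toNat, ?_⟩
      rw [Int.toNat_of_nonneg]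
      exact Int.emod_nonneg _ (by exact_mod_cast hM.ne')
    refine (r2_le ({s % 2 ^ l, s % 2 ^ l + 2 ^ l, t, t + 2 ^ l} : Finset ℕ)
      fun r hr hd => ?_).trans Finset.card_le_four
    rw [Finset.mem_insert, Finset.mem_insert, Finset.mem_insert, Finset.mem_singleton]
    have hro := hodd r hd
    have hr' : r < 2 * 2 ^ l := by
      rw [pow_succ] at hr
      omega
    obtain ⟨a, ha⟩ : ∃ a : ℤ, (r : ℤ) - s = 2 * a := ⟨((r : ℤ) - s) / 2, by omega⟩
    obtain ⟨b, hb⟩ : ∃ b : ℤ, (r : ℤ) + s = 2 * b := ⟨((r : ℤ) + s) / 2, by omega⟩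
    have h2 : 2 * ((2 ^ l : ℕ) : ℤ) ∣ 2 * (2 * (a * b)) := by
      have := dvd_sub hd hs2
      have h3 : (r : ℤ) ^ 2 - (p : ℤ) - ((s : ℤ) ^ 2 - (p : ℤ)) = ((r : ℤ) - s) * ((r : ℤ) + s) := by
        ring
      rw [h3, ha, hb, h2k] at this
      have h4 : 2 * a * (2 * b) = 2 * (2 * (a * b)) := by ring
      rwa [h4] at this
    have h3 : ((2 ^ l : ℕ) : ℤ) ∣ 2 * (a * b) := (mul_dvd_mul_iff_left (by norm_num)).1 h2
    have hcop : ∀ c : ℤ, c % 2 = 1 → IsCoprime ((2 ^ l : ℕ) : ℤ) c := by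
      intro c hc
      rw [Nat.cast_pow]
      refine IsCoprime.pow_left ?_
      refine (Prime.coprime_iff_not_dvd Int.prime_two).2 ?_
      intro h
      have : (2 : ℤ) ∣ c := by exact_mod_cast h
      omega
    by_cases hao : a % 2 = 1
    · -- `a` odd
      have h4 : ((2 ^ l : ℕ) : ℤ) ∣ (r : ℤ) + s := by
        have h5 : 2 * (a * b) = a * (2 * b) := by ring
        rw [h5, ← hb] at h3
        exact (hcop a hao).dvd_of_dvd_mul_left h3
      have h6 : r % 2 ^ l = t := by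
        have h7 : (r : ℤ) % ((2 ^ l : ℕ) : ℤ) = (-(s : ℤ)) % ((2 ^ l : ℕ) : ℤ) := by
          have h8 : ((2 ^ l : ℕ) : ℤ) ∣ (r : ℤ) - (-(s : ℤ)) := by
            rw [sub_neg_eq_add]
            exact h4
          exact (Int.ModEq.eq ((Int.modEq_iff_dvd).2 h8)).symm
        rw [← ht] at h7
        exact_mod_cast h7
      rcases r2_mod hM hr' h6 with h8 | h8
      · exact Or.inr (Or.inr (Or.inl h8))
      · exact Or.inr (Or.inr (Or.inr h8))
    · have hbo : b % 2 = 1 := by omega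
      have h4 : ((2 ^ l : ℕ) : ℤ) ∣ (r : ℤ) - s := by
        have h5 : 2 * (a * b) = b * (2 * a) := by ring
        rw [h5, ← ha] at h3
        exact (hcop b hbo).dvd_of_dvd_mul_left h3
      have h6 : r % 2 ^ l = s % 2 ^ l := by
        have h7 : (s : ℤ) % ((2 ^ l : ℕ) : ℤ) = (r : ℤ) % ((2 ^ l : ℕ) : ℤ) :=
          Int.ModEq.eq ((Int.modEq_iff_dvd).2 h4)
        exact_mod_cast h7.symm
      rcases r2_mod hM hr' h6 with h8 | h8
      · exact Or.inl h8
      · exact Or.inr (Or.inl h8)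

end Pool.Agent.MP_ffd2b5_nt
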