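import Mathlib
import Pool.Agent.MP_ffd2b5_nt.Defs
import Pool.Agent.MP_ffd2b5_nt.R1
import Pool.Agent.MP_ffd2b5_nt.R2
import Pool.Agent.MP_ffd2b5_nt.M1
import Pool.Agent.MP_ffd2b5_nt.M2
import Pool.Agent.Lib.helper94.ANT.Mertens

set_option autoImplicit false

namespace Pool.Agent.MP_ffd2b5_nt

/-!
[TPE-M3] the sum over `Q ≤ y` of the number of square roots of `p` modulo `Q`.
PROOF. `f n = rho p n`, `F 2 = 4`, `F q = 1 + jacobiSym p q` for the odd primes (between `0` and `2`).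
`f` is multiplicative (`rho_one`, `rho_mul`), `f (q ^ k) ≤ F q` (`rho_pow_odd`, `rho_pow_two`). `mean_bound` and
`euler_bound`: `∑_{n ≤ y} rho p n ≤ C (y / log y) e^4 exp (∑_{q ≤ y} F q / q)` and
`∑_{q ≤ y} F q / q = 2 + ∑_{2 < q ≤ y} 1/q + S p y ≤ 2 + log log y + C' + S p y`
(the Mertens theorem is `mertens` in `Pool/Agent/Lib/helper94/ANT/Mertens.lean`; look up its namespace there).
So the sum is at most `C'' (y / log y) (log y) exp (S p y)`.
-/
theorem m3_jac_le_one (a : ℤ) (n : ℕ) : ((jacobiSym a n : ℤ) : ℝ) ≤ 1 := by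
  rcases jacobiSym.trichotomy a n with h | h | h <;> simp [h]

theorem m3_F_sum (p y : ℕ) (hy : 2 ≤ y) :
    ∑ q ∈ Nat.primesLE y, (if q = 2 then (4 : ℝ) else 1 + ((jacobiSym (p : ℤ) q : ℤ) : ℝ)) / q
      ≤ 2 + ∑ q ∈ Nat.primesLE y, (1 : ℝ) / q + S p y := by
  have h2 : 2 ∈ Nat.primesLE y := Nat.mem_primesLE.mpr ⟨hy, Nat.prime_two⟩
  rw [← Finset.add_sum_erase _ _ h2, ← Finset.add_sum_erase (Nat.primesLE y) (fun q => (1 : ℝ) / q) h2]
  have h3 : ∑ q ∈ (Nat.primesLE y).erase 2,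
      (if q = 2 then (4 : ℝ) else 1 + ((jacobiSym (p : ℤ) q : ℤ) : ℝ)) / q
      = ∑ q ∈ (Nat.primesLE y).erase 2, (1 : ℝ) / q + S p y := by
    unfold S
    rw [← Finset.sum_add_distrib]
    apply Finset.sum_congr rfl
    intro q hq
    rw [if_neg (Finset.ne_of_mem_erase hq), add_div]
  rw [h3]
  simp only [if_true]
  norm_num
  linarith

theorem m3_log_pos {y : ℕ} (hy : 2 ≤ y) : 0 < Real.log y :=
  Real.log_pos (by exact_mod_cast hy)

theorem sum_rho_le : ∃ C : ℝ, 0 < C ∧ ∀ p y : ℕ, p.Prime → p ≠ 2 → 2 ≤ y →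
    ((∑ Q ∈ Finset.Icc 1 y, rho p Q : ℕ) : ℝ) ≤ C * y * Real.exp (S p y) := by
  obtain ⟨C1, hC1, hM⟩ := mean_bound
  obtain ⟨C2, hC2, hMert⟩ := Pool.Agent.Lib.helper94.ANT.mertens
  refine ⟨C1 * (Real.exp 4 * Real.exp (2 + C2)), by positivity, ?_⟩
  intro p y hp hp2 hy
  set f : ℕ → ℝ := fun n => (rho p n : ℝ) with hf
  set F : ℕ → ℝ := fun q => if q = 2 then (4 : ℝ) else 1 + ((jacobiSym (p : ℤ) q : ℤ) : ℝ) with hF
  have f0 : ∀ n, 0 ≤ f n := fun n => Nat.cast_nonneg _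
  have f1 : f 1 = 1 := by
    show ((rho p 1 : ℕ) : ℝ) = 1
    rw [rho_one]
    norm_num
  have fmul : ∀ m n, Nat.Coprime m n → f (m * n) = f m * f n := by
    intro m n h
    show ((rho p (m * n) : ℕ) : ℝ) = (rho p m : ℝ) * (rho p n : ℝ)
    rw [rho_mul p m n h]
    push_cast
    rfl
  have hF4 : ∀ q : ℕ, q.Prime → F q ≤ 4 := by
    intro q _
    show (if q = 2 then (4 : ℝ) else 1 + ((jacobiSym (p : ℤ) q : ℤ) : ℝ)) ≤ 4
    split_ifs
    · exact le_refl _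
    · linarith [m3_jac_le_one (p : ℤ) q]
  have hfF : ∀ q k : ℕ, q.Prime → 1 ≤ k → f (q ^ k) ≤ F q := by
    intro q k hq hk
    show ((rho p (q ^ k) : ℕ) : ℝ) ≤ (if q = 2 then (4 : ℝ) else 1 + ((jacobiSym (p : ℤ) q : ℤ) : ℝ))
    split_ifs with h
    · subst h
      exact_mod_cast rho_pow_two p k hp hp2 hk
    · exact rho_pow_odd p q k hp hp2 hq h hk
  have hmb := hM f f0 f1 fmul (fun q k hq hk => (hfF q k hq hk).trans (hF4 q hq)) y hy
  have heb := euler_bound f F f0 f1 fmul hF4 hfF y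
  have hsum := m3_F_sum p y hy
  have hmer := (abs_le.mp (hMert y hy)).2
  have hlog := m3_log_pos hy
  have hexp : Real.exp (∑ q ∈ Nat.primesLE y, F q / q)
      ≤ Real.exp (2 + C2) * Real.log y * Real.exp (S p y) := by
    calc Real.exp (∑ q ∈ Nat.primesLE y, F q / q)
        ≤ Real.exp ((2 + C2) + Real.log (Real.log y) + S p y) := by
          apply Real.exp_le_exp.mpr
          have : ∑ q ∈ Nat.primesLE y, F q / q
              ≤ 2 + ∑ q ∈ Nat.primesLE y, (1 : ℝ) / q + S p y := hsum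
          linarith
      _ = Real.exp (2 + C2) * Real.log y * Real.exp (S p y) := by
          rw [Real.exp_add, Real.exp_add, Real.exp_log hlog]
  have hcast : ((∑ Q ∈ Finset.Icc 1 y, rho p Q : ℕ) : ℝ) = ∑ n ∈ Finset.Icc 1 y, f n := by
    push_cast
    rfl
  rw [hcast]
  have hpos : 0 ≤ C1 * ((y : ℝ) / Real.log y) := by positivity
  calc ∑ n ∈ Finset.Icc 1 y, f n
      ≤ C1 * (y / Real.log y) * ∑ n ∈ Finset.Icc 1 y, f n / n := hmb
    _ ≤ C1 * (y / Real.log y) * (Real.exp 4 * Real.exp (∑ q ∈ Nat.primesLE y, F q / q)) :=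
        mul_le_mul_of_nonneg_left heb hpos
    _ ≤ C1 * (y / Real.log y) * (Real.exp 4 * (Real.exp (2 + C2) * Real.log y * Real.exp (S p y))) := by
        apply mul_le_mul_of_nonneg_left _ hpos
        apply mul_le_mul_of_nonneg_left hexp (Real.exp_pos 4).le
    _ = C1 * (Real.exp 4 * Real.exp (2 + C2)) * y * Real.exp (S p y) := by
        field_simp

end Pool.Agent.MP_ffd2b5_nt
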