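import Mathlib
import Pool.Agent.MP_ffd2b5_nt.Defs
import Pool.Agent.MP_ffd2b5_nt.CF2
import Pool.Agent.MP_ffd2b5_nt.CF3
import Pool.Agent.MP_ffd2b5_nt.M3
import Pool.Agent.MP_ffd2b5_nt.C1

set_option autoImplicit false

namespace Pool.Agent.MP_ffd2b5_nt

/-!
[TPE-T1] a long period forces a large prime sum.
PROOF. `p = thePrime m`. For `m ≥ 3`: `p ≥ 5` is an odd prime, no square, `y = Nat.sqrt p ≥ 2`, `y ≤ √p`.
`exists_period` with the `F` of `exists_redset`: `period p ≤ T ≤ 2 ∑_{Q ≤ y} rho p Q` (`Nat.sInf_le`), and by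
`sum_rho_le`: `period p ≤ 2 C √p exp (S p y)`.
By `thePrime_bounds`: `√m (log m)^(1/2 + a) ≥ √(c1 p / log p) (c1 log p)^(1/2 + a) = c2 √p (log p)^a`, `c2 > 0`.
So `c c2 (log p)^a ≤ 2 C exp (S p y)`; take logarithms.
-/
theorem large_S (c a : ℝ) (hc : 0 < c) (ha : 0 < a) : ∃ C : ℝ, ∀ m : ℕ, 3 ≤ m →
    c * Real.sqrt m * (Real.log m) ^ (1 / 2 + a) ≤ (period (thePrime m) : ℝ) →
    a * Real.log (Real.log (thePrime m)) - C ≤ S (thePrime m) (Nat.sqrt (thePrime m)) := by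
  obtain ⟨c1, hc1, hb⟩ := thePrime_bounds
  obtain ⟨C0, hC0, hsum⟩ := sum_rho_le
  set K : ℝ := c * (Real.sqrt c1 * c1 ^ (1 / 2 + a)) with hK
  have hKpos : 0 < K := by positivity
  refine ⟨Real.log (2 * C0) - Real.log K, ?_⟩
  intro m hm hper
  have hp : (thePrime m).Prime := thePrime_prime m
  have hpi := primeCounting_thePrime m (by omega)
  obtain ⟨hb1, hb2⟩ := hb m (by omega)
  generalize thePrime m = p at hper hp hpi hb1 hb2 ⊢
  have hp5 : 5 ≤ p := by
    by_contra hlt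
    have h1 : p ≤ 4 := by omega
    have h2 := Nat.monotone_primeCounting h1
    have h3 : Nat.primeCounting 4 = 2 := by decide
    omega
  have hsq : ¬ IsSquare p := hp.prime.not_isSquare
  obtain ⟨F, hF, hcard⟩ := exists_redset p hsq
  obtain ⟨T, hT1, hTF, hTper⟩ := exists_period p hsq F hF
  have hy : 2 ≤ Nat.sqrt p := by
    rw [Nat.le_sqrt]
    omega
  have h0 : period p ≤ T := by
    unfold period
    exact Nat.sInf_le (show T ∈ {T : ℕ | 1 ≤ T ∧ ∀ n : ℕ, 1 ≤ n →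
      pq (Real.sqrt p) (n + T) = pq (Real.sqrt p) n} from ⟨hT1, hTper⟩)
  have h1 : period p ≤ 2 * ∑ Q ∈ Finset.Icc 1 (Nat.sqrt p), rho p Q :=
    h0.trans (hTF.trans hcard)
  have h2 := hsum p (Nat.sqrt p) hp (by omega) hy
  have h3 : (period p : ℝ) ≤ 2 * (C0 * (Nat.sqrt p : ℝ) * Real.exp (S p (Nat.sqrt p))) := by
    have h4 : (period p : ℝ) ≤ ((2 * ∑ Q ∈ Finset.Icc 1 (Nat.sqrt p), rho p Q : ℕ) : ℝ) := by
      exact_mod_cast h1
    rw [Nat.cast_mul] at h4
    have h5 : ((2 : ℕ) : ℝ) = 2 := by norm_num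
    rw [h5] at h4
    linarith
  have hpR : (5 : ℝ) ≤ (p : ℝ) := by exact_mod_cast hp5
  have hsp : (Nat.sqrt p : ℝ) ≤ Real.sqrt p := Real.nat_sqrt_le_real_sqrt
  have hX : 0 < Real.sqrt p := Real.sqrt_pos.2 (by linarith)
  have hL : 0 < Real.log p := Real.log_pos (by linarith)
  set E : ℝ := Real.exp (S p (Nat.sqrt p)) with hE
  have hEpos : 0 < E := Real.exp_pos _
  have h6 : (period p : ℝ) ≤ 2 * C0 * E * Real.sqrt p := by
    have h7 : C0 * (Nat.sqrt p : ℝ) * E ≤ C0 * Real.sqrt p * E := by gcongr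
    nlinarith [h3, h7]
  have h8 : Real.sqrt c1 * (Real.sqrt p / Real.sqrt (Real.log p)) ≤ Real.sqrt m := by
    rw [← Real.sqrt_div (by linarith), ← Real.sqrt_mul hc1.le]
    exact Real.sqrt_le_sqrt hb1
  have h9 : c1 ^ (1 / 2 + a) * (Real.sqrt (Real.log p) * Real.log p ^ a) ≤
      Real.log m ^ (1 / 2 + a) := by
    have h10 : (c1 * Real.log p) ^ (1 / 2 + a) ≤ Real.log m ^ (1 / 2 + a) :=
      Real.rpow_le_rpow (by positivity) hb2 (by positivity)
    rw [Real.mul_rpow hc1.le hL.le, Real.rpow_add hL, ← Real.sqrt_eq_rpow] at h10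
    exact h10
  have hsL : 0 < Real.sqrt (Real.log p) := Real.sqrt_pos.2 hL
  have h11 : K * Real.log p ^ a * Real.sqrt p ≤ c * Real.sqrt m * Real.log m ^ (1 / 2 + a) := by
    have h12 : (Real.sqrt c1 * (Real.sqrt p / Real.sqrt (Real.log p))) *
        (c1 ^ (1 / 2 + a) * (Real.sqrt (Real.log p) * Real.log p ^ a)) ≤
        Real.sqrt m * Real.log m ^ (1 / 2 + a) :=
      mul_le_mul h8 h9 (by positivity) (by positivity)
    have h13 : (Real.sqrt c1 * (Real.sqrt p / Real.sqrt (Real.log p))) *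
        (c1 ^ (1 / 2 + a) * (Real.sqrt (Real.log p) * Real.log p ^ a)) =
        (Real.sqrt c1 * c1 ^ (1 / 2 + a)) * Real.log p ^ a * Real.sqrt p := by
      field_simp
    rw [h13] at h12
    calc K * Real.log p ^ a * Real.sqrt p
        = c * ((Real.sqrt c1 * c1 ^ (1 / 2 + a)) * Real.log p ^ a * Real.sqrt p) := by
          rw [hK]; ring
      _ ≤ c * (Real.sqrt m * Real.log m ^ (1 / 2 + a)) := by gcongr
      _ = _ := by ring
  have h14 : K * Real.log p ^ a ≤ 2 * C0 * E := by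
    have h15 : K * Real.log p ^ a * Real.sqrt p ≤ 2 * C0 * E * Real.sqrt p :=
      h11.trans (hper.trans h6)
    exact le_of_mul_le_mul_right h15 hX
  have hLa : 0 < Real.log p ^ a := Real.rpow_pos_of_pos hL a
  have h16 := Real.log_le_log (by positivity) h14
  rw [Real.log_mul hKpos.ne' hLa.ne', Real.log_mul (by positivity) hEpos.ne',
    Real.log_rpow hL, hE, Real.log_exp] at h16
  linarith

end Pool.Agent.MP_ffd2b5_nt
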