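import Mathlib
import Pool.Agent.MP_ffd2b5_nt.Defs
import Pool.Agent.MP_ffd2b5_nt.T1
import Pool.Agent.MP_ffd2b5_nt.F1

set_option autoImplicit false

namespace Pool.Agent.MP_ffd2b5_nt

theorem f2_prime (m : ℕ) : (thePrime m).Prime := Nat.prime_nth_prime (m - 1)

theorem f2_inj : Set.InjOn thePrime {m : ℕ | 3 ≤ m} := by
  intro m hm n hn h
  have hm' : 3 ≤ m := hm
  have hn' : 3 ≤ n := hn
  have h1 := (Nat.nth_strictMono Nat.infinite_setOfPred_prime).injective h
  omega

theorem f2_gt (m : ℕ) (hm : 3 ≤ m) : 2 < thePrime m := by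
  have h1 : Nat.nth Nat.Prime 0 < Nat.nth Nat.Prime (m - 1) :=
    Nat.nth_strictMono Nat.infinite_setOfPred_prime (by omega)
  rw [Nat.nth_prime_zero_eq_two] at h1
  exact h1

/-- the final estimate -/
theorem f2_est (a C1 K x y : ℝ) (ha : 0 < a) (ha1 : a < 1) (hC1 : 0 < C1) (hK : 1 ≤ K)
    (hx : 1 ≤ x) (hy : y = Real.log x) (hy1 : 1 ≤ y) :
    2 + K * x * Real.exp (C1 * (K * x) ^ (1 - a) * Real.log (K * x + 2)) ≤
      Real.exp (((Real.log (K + 2) + 1) + C1 * K * (Real.log (K + 2) + 1)) * x ^ (1 - a) * y) := by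
  have hK0 : 0 < K := by linarith
  have hx0 : 0 < x := by linarith
  have hKx : 0 < K * x := by positivity
  have hlK : 0 ≤ Real.log (K + 2) := Real.log_nonneg (by linarith)
  have hlog : Real.log (K * x + 2) ≤ (Real.log (K + 2) + 1) * y := by
    have h1 : K * x + 2 ≤ (K + 2) * x := by nlinarith
    have h2 : Real.log (K * x + 2) ≤ Real.log ((K + 2) * x) :=
      Real.log_le_log (by linarith) h1
    rw [Real.log_mul (by linarith) hx0.ne', ← hy] at h2
    nlinarith
  have hlog0 : 0 ≤ Real.log (K * x + 2) := Real.log_nonneg (by linarith)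
  have hpow : (K * x) ^ (1 - a) ≤ K * x ^ (1 - a) := by
    rw [Real.mul_rpow hK0.le hx0.le]
    have h1 : K ^ (1 - a) ≤ K ^ (1 : ℝ) := Real.rpow_le_rpow_of_exponent_le hK (by linarith)
    rw [Real.rpow_one] at h1
    exact mul_le_mul_of_nonneg_right h1 (Real.rpow_nonneg hx0.le _)
  have hpow0 : 0 ≤ (K * x) ^ (1 - a) := Real.rpow_nonneg hKx.le _
  have hx1 : 1 ≤ x ^ (1 - a) := Real.one_le_rpow hx (by linarith)
  set K' : ℝ := Real.log (K + 2) + 1 with hK'
  have hK'0 : 0 < K' := by rw [hK']; linarith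
  have hE : C1 * (K * x) ^ (1 - a) * Real.log (K * x + 2) ≤ C1 * K * K' * x ^ (1 - a) * y := by
    calc C1 * (K * x) ^ (1 - a) * Real.log (K * x + 2)
        ≤ C1 * (K * x ^ (1 - a)) * (K' * y) := by
          apply mul_le_mul _ hlog hlog0 (by positivity)
          exact mul_le_mul_of_nonneg_left hpow hC1.le
      _ = _ := by ring
  have hE0 : 0 ≤ C1 * (K * x) ^ (1 - a) * Real.log (K * x + 2) := by positivity
  have hfac : 2 + K * x ≤ Real.exp (K' * x ^ (1 - a) * y) := by
    have h1 : K * x + 2 = Real.exp (Real.log (K * x + 2)) := (Real.exp_log (by linarith)).symm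
    have h2 : Real.log (K * x + 2) ≤ K' * x ^ (1 - a) * y := by
      refine hlog.trans ?_
      have h3 : K' * y * 1 ≤ K' * y * x ^ (1 - a) :=
        mul_le_mul_of_nonneg_left hx1 (by positivity)
      linarith
    rw [add_comm, h1]
    exact Real.exp_le_exp.2 h2
  calc 2 + K * x * Real.exp (C1 * (K * x) ^ (1 - a) * Real.log (K * x + 2))
      ≤ 2 + K * x * Real.exp (C1 * K * K' * x ^ (1 - a) * y) := by
        have := mul_le_mul_of_nonneg_left (Real.exp_le_exp.2 hE) hKx.le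
        linarith
    _ ≤ (2 + K * x) * Real.exp (C1 * K * K' * x ^ (1 - a) * y) := by
        have h1 : 1 ≤ Real.exp (C1 * K * K' * x ^ (1 - a) * y) :=
          Real.one_le_exp (hE0.trans hE)
        nlinarith
    _ ≤ Real.exp (K' * x ^ (1 - a) * y) * Real.exp (C1 * K * K' * x ^ (1 - a) * y) :=
        mul_le_mul_of_nonneg_right hfac (Real.exp_pos _).le
    _ = _ := by
        rw [← Real.exp_add]
        congr 1
        ring

/-- the exponent of the dyadic interval -/
theorem f2_clog (p : ℕ) (hp : 2 < p) : p ≤ 2 ^ Nat.clog 2 p ∧ 2 ≤ Nat.clog 2 p ∧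
    ((Nat.clog 2 p : ℝ) - 1) * Real.log 2 ≤ Real.log p ∧
    Real.log (Nat.clog 2 p) - Real.log 4 ≤ Real.log (Real.log p) := by
  have h1 : p ≤ 2 ^ Nat.clog 2 p := Nat.le_pow_clog one_lt_two p
  have h2 : 2 ≤ Nat.clog 2 p := by
    by_contra hlt
    have h3 : 2 ^ Nat.clog 2 p ≤ 2 ^ 1 := Nat.pow_le_pow_right (by norm_num) (by omega)
    omega
  have h3 : 2 ^ (Nat.clog 2 p - 1) < p := Nat.pow_pred_clog_lt_self one_lt_two (by omega)
  have h4 : ((Nat.clog 2 p : ℝ) - 1) * Real.log 2 ≤ Real.log p := by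
    have h5 : ((2 : ℝ) ^ (Nat.clog 2 p - 1)) ≤ (p : ℝ) := by exact_mod_cast h3.le
    have h6 := Real.log_le_log (by positivity) h5
    rw [Real.log_pow, Nat.cast_sub (by omega), Nat.cast_one] at h6
    exact h6
  have hL : (2 : ℝ) ≤ (Nat.clog 2 p : ℝ) := by exact_mod_cast h2
  refine ⟨h1, h2, h4, ?_⟩
  rw [← Real.log_div (by linarith) (by norm_num)]
  apply Real.log_le_log (by linarith)
  have h7 := Real.log_two_gt_d9
  nlinarith

/-!
[TPE-F2] the theorem.
PROOF. `m = 1, 2` contribute at most `2`. For a counted `m ≥ 3` let `p = thePrime m` (odd prime), `L = Nat.clog 2 p`, so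
`2^(L-1) < p ≤ 2^L`, `L ≥ 2` and `log p ≥ (L - 1) log 2 ≥ L / 4`, `log log p ≥ log L - log 4`. `large_S`:
`S p √p ≥ a log L - C2`, `C2 = C + a log 4`. So `p` lies in the set of `dyadic_count a C2` at `L`, and
`m ↦ thePrime m` is injective for `m ≥ 1`. By `thePrime_bounds`, `c1 log p ≤ log m ≤ log N`, so
`L ≤ 1 + log p / log 2 ≤ K log N`. The count is at most `2 + ∑_{1 ≤ L ≤ K log N} exp (C L^(1-a) log (L+2))
≤ 2 + K log N * exp (C (K log N)^(1-a) log (K log N + 2))`, and for `N ≥ 16`: `log log N ≥ 1`, `log N ≥ 1`,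
`log (K log N + 2) ≤ K' log log N`, `2 + K log N ≤ exp (K' log log N) ≤ exp (K' (log N)^(1-a) log log N)`.
-/
theorem main (c a : ℝ) (hc : 0 < c) (ha : 0 < a) (ha1 : a < 1) : ∃ C : ℝ, ∀ N : ℕ, 16 ≤ N →
    ((((Finset.Icc 1 N).filter (fun m : ℕ =>
      c * Real.sqrt m * (Real.log m) ^ (1 / 2 + a) ≤ (period (thePrime m) : ℝ))).card : ℕ) : ℝ) ≤
      Real.exp (C * (Real.log N) ^ (1 - a) * Real.log (Real.log N)) := by
  classical
  obtain ⟨C0, hC0⟩ := large_S c a hc ha
  obtain ⟨C1, hC1, hdy⟩ := dyadic_count a (C0 + a * Real.log 4) ha ha1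
  obtain ⟨c1, hc1, hpb⟩ := thePrime_bounds
  set K : ℝ := 1 + 2 / c1 with hKdef
  have hK : 1 ≤ K := by
    rw [hKdef]
    have : 0 < 2 / c1 := by positivity
    linarith
  have hK0 : 0 < K := by linarith
  refine ⟨(Real.log (K + 2) + 1) + C1 * K * (Real.log (K + 2) + 1), ?_⟩
  intro N hN
  have hl16 : Real.exp 1 ≤ Real.log 16 := by
    have h1 : Real.log 16 = 4 * Real.log 2 := by
      rw [show (16 : ℝ) = 2 ^ 4 by norm_num, Real.log_pow]
      norm_num
    rw [h1]
    have h2 := Real.log_two_gt_d9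
    have h3 := Real.exp_one_lt_d9
    linarith
  have hN16 : (16 : ℝ) ≤ (N : ℝ) := by exact_mod_cast hN
  have hx : Real.exp 1 ≤ Real.log N := hl16.trans (Real.log_le_log (by norm_num) hN16)
  have hx1 : 1 ≤ Real.log N := by
    have := Real.add_one_le_exp (1 : ℝ)
    linarith
  have hy1 : 1 ≤ Real.log (Real.log N) := by
    rw [Real.le_log_iff_exp_le (by linarith)]
    exact hx
  set x : ℝ := Real.log N with hxdef
  -- the dyadic sets
  let T : ℕ → Finset ℕ := fun L => ((Nat.primesLE (2 ^ L)).erase 2).filter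
    (fun p : ℕ => a * Real.log L - (C0 + a * Real.log 4) ≤ S p (Nat.sqrt p))
  set F : Finset ℕ := (Finset.Icc 1 N).filter (fun m : ℕ =>
      c * Real.sqrt m * (Real.log m) ^ (1 / 2 + a) ≤ (period (thePrime m) : ℝ)) with hFdef
  set M : ℕ := ⌊K * x⌋₊ with hMdef
  have hMle : (M : ℝ) ≤ K * x := Nat.floor_le (by positivity)
  have hmem : ∀ m ∈ F, 3 ≤ m → ∃ L ∈ Finset.Icc 1 M, thePrime m ∈ T L := by
    intro m hm hm3
    have hm' := Finset.mem_filter.1 hm
    have hmN := (Finset.mem_Icc.1 hm'.1).2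
    have hp2 := f2_gt m hm3
    obtain ⟨g1, g2, g3, g4⟩ := f2_clog (thePrime m) hp2
    have hS := hC0 m hm3 hm'.2
    have hb := (hpb m (by omega)).2
    have hlm : Real.log m ≤ x := by
      apply Real.log_le_log
      · have : (3 : ℝ) ≤ m := by exact_mod_cast hm3
        linarith
      · exact_mod_cast hmN
    refine ⟨Nat.clog 2 (thePrime m), ?_, ?_⟩
    · rw [Finset.mem_Icc]
      refine ⟨by omega, Nat.le_floor ?_⟩
      have h1 : Real.log (thePrime m) ≤ x / c1 := by
        rw [le_div_iff₀ hc1]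
        linarith
      have h2 := Real.log_two_gt_d9
      have h3 : ((Nat.clog 2 (thePrime m) : ℝ) - 1) * (1 / 2) ≤ x / c1 := by
        have h4 : (2 : ℝ) ≤ (Nat.clog 2 (thePrime m) : ℝ) := by exact_mod_cast g2
        nlinarith
      have h5 : K * x = x + 2 * (x / c1) := by
        rw [hKdef]; ring
      rw [h5]
      linarith
    · refine Finset.mem_filter.2 ⟨Finset.mem_erase.2 ⟨by omega, ?_⟩, ?_⟩
      · rw [Nat.mem_primesLE]
        exact ⟨g1, f2_prime m⟩
      · have := mul_le_mul_of_nonneg_left g4 ha.le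
        linarith
  have hcard1 : (F.filter fun m => 3 ≤ m).card ≤ ∑ L ∈ Finset.Icc 1 M, (T L).card := by
    rw [← Finset.card_image_of_injOn (s := F.filter fun m => 3 ≤ m) (f := thePrime)
      (fun m hm n hn h => f2_inj (Finset.mem_filter.1 (Finset.mem_coe.1 hm)).2
        (Finset.mem_filter.1 (Finset.mem_coe.1 hn)).2 h)]
    refine (Finset.card_le_card ?_).trans Finset.card_biUnion_le
    intro p hp
    obtain ⟨m, hm, rfl⟩ := Finset.mem_image.1 hp
    have hm' := Finset.mem_filter.1 hm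
    obtain ⟨L, hL, hT⟩ := hmem m hm'.1 hm'.2
    exact Finset.mem_biUnion.2 ⟨L, hL, hT⟩
  have hcard2 : (F.filter fun m => ¬ 3 ≤ m).card ≤ 2 := by
    have hsub : (F.filter fun m => ¬ 3 ≤ m) ⊆ {1, 2} := by
      intro m hm
      have hm' := Finset.mem_filter.1 hm
      have h1 := Finset.mem_Icc.1 (Finset.mem_filter.1 hm'.1).1
      have h2 := hm'.2
      rw [Finset.mem_insert, Finset.mem_singleton]
      omega
    exact (Finset.card_le_card hsub).trans Finset.card_le_two
  have hcard : F.card ≤ 2 + ∑ L ∈ Finset.Icc 1 M, (T L).card := by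
    rw [← Finset.card_filter_add_card_filter_not (s := F) (fun m => 3 ≤ m)]
    omega
  have hsum : ((∑ L ∈ Finset.Icc 1 M, (T L).card : ℕ) : ℝ) ≤
      K * x * Real.exp (C1 * (K * x) ^ (1 - a) * Real.log (K * x + 2)) := by
    rw [Nat.cast_sum]
    have h1 : ∀ L ∈ Finset.Icc 1 M, (((T L).card : ℕ) : ℝ) ≤
        Real.exp (C1 * (K * x) ^ (1 - a) * Real.log (K * x + 2)) := by
      intro L hL
      have hL' := Finset.mem_Icc.1 hL
      refine (hdy L hL'.1).trans (Real.exp_le_exp.2 ?_)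
      have hL0 : (0 : ℝ) ≤ L := Nat.cast_nonneg L
      have hLK : (L : ℝ) ≤ K * x := by
        have : (L : ℝ) ≤ M := by exact_mod_cast hL'.2
        linarith
      have h2 : (L : ℝ) ^ (1 - a) ≤ (K * x) ^ (1 - a) :=
        Real.rpow_le_rpow hL0 hLK (by linarith)
      have h3 : Real.log ((L : ℝ) + 2) ≤ Real.log (K * x + 2) :=
        Real.log_le_log (by linarith) (by linarith)
      have h4 : 0 ≤ Real.log ((L : ℝ) + 2) := Real.log_nonneg (by linarith)
      have h5 : 0 ≤ (K * x) ^ (1 - a) := Real.rpow_nonneg (by positivity) _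
      exact mul_le_mul (mul_le_mul_of_nonneg_left h2 hC1.le) h3 h4 (by positivity)
    refine (Finset.sum_le_card_nsmul _ _ _ h1).trans ?_
    rw [Nat.card_Icc, nsmul_eq_mul, Nat.add_sub_cancel]
    exact mul_le_mul_of_nonneg_right hMle (Real.exp_pos _).le
  have hfin := f2_est a C1 K x (Real.log x) ha ha1 hC1 hK hx1 rfl hy1
  have hF : (F.card : ℝ) ≤ 2 + ((∑ L ∈ Finset.Icc 1 M, (T L).card : ℕ) : ℝ) := by
    exact_mod_cast hcard
  linarith

end Pool.Agent.MP_ffd2b5_nt
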