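import Mathlib
import Pool.Agent.MP_ffd2b5_nt.CF2
import Pool.Agent.MP_ffd2b5_nt.CF3

/-! Sanity check of the definition of `period`: for `D` not a square the set in the definition is
nonempty, so `period D` is the least period length. -/

set_option autoImplicit false

namespace Pool.Agent.MP_ffd2b5_nt

/-- For a natural number `D` which is not a square, `period D` is the least element of the set of
all `T ≥ 1` with `a_{n+T} = a_n` for all `n ≥ 1`. -/
theorem period_isLeast (D : ℕ) (hD : ¬ IsSquare D) :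
    IsLeast {T : ℕ | 1 ≤ T ∧ ∀ n : ℕ, 1 ≤ n →
      pq (Real.sqrt D) (n + T) = pq (Real.sqrt D) n} (period D) := by
  obtain ⟨F, hF, -⟩ := exists_redset D hD
  obtain ⟨T, h1, -, h2⟩ := exists_period D hD F hF
  have hne : {T : ℕ | 1 ≤ T ∧ ∀ n : ℕ, 1 ≤ n →
      pq (Real.sqrt D) (n + T) = pq (Real.sqrt D) n}.Nonempty := ⟨T, h1, h2⟩
  exact ⟨Nat.sInf_mem hne, fun x hx => Nat.sInf_le hx⟩

/-- In particular for primes. -/
theorem period_prime (p : ℕ) (hp : p.Prime) :
    IsLeast {T : ℕ | 1 ≤ T ∧ ∀ n : ℕ, 1 ≤ n →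
      pq (Real.sqrt p) (n + T) = pq (Real.sqrt p) n} (period p) := by
  refine period_isLeast p ?_
  exact hp.prime.not_isSquare

end Pool.Agent.MP_ffd2b5_nt
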